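import Mathlib

/-!
# Orders of zeros under conjugation, multiplication and translation
-/

set_option autoImplicit false

open Complex Filter Topology Set
open scoped ComplexConjugate

namespace Pool.Agent.H862.EL

lemma analyticAt_cc {g : ℂ → ℂ} {s : ℂ} (h : AnalyticAt ℂ g (conj s)) :
    AnalyticAt ℂ (fun z => conj (g (conj z))) s := by
  rw [analyticAt_iff_eventually_differentiableAt] at h ⊢
  have h2 := (Complex.continuous_conj.tendsto s).eventually h
  filter_upwards [h2] with z hz
  have h3 := hz.hasDerivAt.conj_conj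
  rw [Complex.conj_conj] at h3
  exact h3.differentiableAt

/-- orders and complex conjugation -/
lemma order_cc {f g : ℂ → ℂ} (hf : Differentiable ℂ f) (hg : Differentiable ℂ g) {c : ℂ} (hc : c ≠ 0)
    (h : ∀ z, g (conj z) = c * conj (f z)) (b : ℂ) :
    analyticOrderAt g (conj b) = analyticOrderAt f b := by
  have h' : ∀ z, g z = c * conj (f (conj z)) := fun z => by rw [← h, Complex.conj_conj]
  have ht : Tendsto (fun z : ℂ => conj z) (𝓝 (conj b)) (𝓝 b) := by
    have h2 := Complex.continuous_conj.tendsto (conj b)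
    rwa [Complex.conj_conj] at h2
  rcases eq_or_ne (analyticOrderAt f b) ⊤ with h0 | h0
  · rw [h0, analyticOrderAt_eq_top]
    rw [analyticOrderAt_eq_top] at h0
    filter_upwards [ht.eventually h0] with z hz
    rw [h' z, hz, map_zero, mul_zero]
  · obtain ⟨n, hn⟩ := ENat.ne_top_iff_exists.mp h0
    rw [← hn]
    obtain ⟨φ, hφ, hφ0, hfg⟩ := ((hf.analyticAt b).analyticOrderAt_eq_natCast).mp hn.symm
    rw [(hg.analyticAt (conj b)).analyticOrderAt_eq_natCast]
    have hφ' : AnalyticAt ℂ φ (conj (conj b)) := by rw [Complex.conj_conj]; exact hφ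
    refine ⟨fun z => c * conj (φ (conj z)), analyticAt_const.mul (analyticAt_cc hφ'), ?_, ?_⟩
    · show c * conj (φ (conj (conj b))) ≠ 0
      rw [Complex.conj_conj]
      exact mul_ne_zero hc ((map_ne_zero_iff _ (starRingEnd ℂ).injective).2 hφ0)
    · filter_upwards [ht.eventually hfg] with z hz
      rw [h' z, hz]
      simp only [smul_eq_mul, map_mul, map_pow, map_sub, Complex.conj_conj]
      ring

/-- orders after a translation and multiplication by a nonvanishing factor -/
lemma order_shift {Y g L : ℂ → ℂ} {z0 : ℂ} (hg : AnalyticAt ℂ g z0) (hg0 : g z0 ≠ 0)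
    (hL : AnalyticAt ℂ L (1 / 2 + z0)) (h : Y =ᶠ[𝓝 z0] fun z => g z * L (1 / 2 + z)) :
    analyticOrderAt Y z0 = analyticOrderAt L (1 / 2 + z0) := by
  rw [analyticOrderAt_congr h]
  have hd : HasDerivAt (fun z : ℂ => 1 / 2 + z) 1 z0 := (hasDerivAt_id _).const_add _
  have hs : AnalyticAt ℂ (fun z : ℂ => 1 / 2 + z) z0 := by fun_prop
  have h1 : AnalyticAt ℂ (fun z : ℂ => L (1 / 2 + z)) z0 :=
    AnalyticAt.comp (g := L) (f := fun z : ℂ => 1 / 2 + z) hL hs
  have h2 : analyticOrderAt (fun z => g z * L (1 / 2 + z)) z0 =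
      analyticOrderAt g z0 + analyticOrderAt (fun z : ℂ => L (1 / 2 + z)) z0 := analyticOrderAt_mul hg h1
  rw [h2, hg.analyticOrderAt_eq_zero.2 hg0, zero_add]
  exact analyticOrderAt_comp_of_deriv_ne_zero (f := L) (g := fun z : ℂ => 1 / 2 + z) (z₀ := z0) hs
    (by rw [hd.deriv]; exact one_ne_zero)

end Pool.Agent.H862.EL
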