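import Pool.Agent.H862.EL.Abs

/-!
# Exponents counted with multiplicity
-/

set_option autoImplicit false

open Complex MeasureTheory Filter Topology Set
open scoped ComplexConjugate

namespace Pool.Agent.H862.EL

open Pool.Agent.N804.LI (EM I0)

section
variable {K : Type} {z : K → ℂ} {μ : K → ℝ} {A : ℂ → ℂ} {P : ℝ → ℝ} {bar : K → K} {m : K → ℕ}

/-- the exponents repeated -/
abbrev Rep (m : K → ℕ) : Type := Σ k, Fin (m k)

/-- the conjugation -/
def rbar (bar : K → K) (hm : ∀ k, m (bar k) = m k) (p : Rep m) : Rep m :=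
  ⟨bar p.1, Fin.cast (hm p.1).symm p.2⟩

lemma rep_sum {f : K → ℂ} (hm : ∀ k, μ k = m k) (_ : Summable fun k => (μ k : ℂ) * f k)
    (hs' : Summable fun k => μ k * ‖f k‖) :
    (Summable fun p : Rep m => ‖f p.1‖) ∧ ∑' p : Rep m, f p.1 = ∑' k, (μ k : ℂ) * f k := by
  have h0 : Summable fun p : Rep m => ‖f p.1‖ := by
    rw [summable_sigma_of_nonneg (fun p => norm_nonneg _)]
    refine ⟨fun k => Summable.of_finite, ?_⟩
    refine hs'.congr fun k => ?_
    rw [tsum_fintype]
    show μ k * ‖f k‖ = ∑ _b : Fin (m k), ‖f k‖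
    rw [Finset.sum_const, Finset.card_univ, Fintype.card_fin, nsmul_eq_mul, hm]
  refine ⟨h0, ?_⟩
  rw [h0.of_norm.tsum_sigma' fun k => Summable.of_finite]
  refine tsum_congr fun k => ?_
  rw [tsum_fintype]
  show ∑ _b : Fin (m k), f k = μ k * f k
  rw [Finset.sum_const, Finset.card_univ, Fintype.card_fin, nsmul_eq_mul, hm]
  push_cast
  rfl

/-- the system with repeated exponents -/
theorem rep_sys (H : SysL z μ A P bar) (hm : ∀ k, μ k = m k) (hmb : ∀ k, m (bar k) = m k) :
    SysL (fun p : Rep m => z p.1) (fun _ => 1) A P (rbar bar hmb) where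
  pos _ := one_pos
  str p := H.str p.1
  fin R := by
    have h1 : {p : Rep m | ‖z p.1‖ ≤ R} = ⋃ k ∈ {k | ‖z k‖ ≤ R}, (fun j => (⟨k, j⟩ : Rep m)) '' univ := by
      ext ⟨k, j⟩
      simp only [Set.mem_ofPred_eq, Set.mem_iUnion, Set.mem_image, exists_prop]
      constructor
      · intro h
        exact ⟨k, h, j, Set.mem_univ _, rfl⟩
      · rintro ⟨k', hk', j', -, he⟩
        obtain ⟨rfl, -⟩ := Sigma.mk.inj_iff.1 he
        exact hk'
    rw [h1]
    exact (H.fin R).biUnion fun k _ => (Set.finite_univ).image _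
  sum := by
    have := (rep_sum (f := fun k => A (z k)) hm (by
      refine Summable.of_norm (H.sum.congr fun k => ?_)
      rw [norm_cf H.toSys]) H.sum).1
    simpa using this
  ne p := H.ne p.1
  real p := H.real p.1
  cont := H.cont
  lim := by
    refine H.lim.congr fun y => ?_
    congr 1
    have h1 := (rep_sum (f := fun k => A (z k) * cexp (z k * y)) hm (by
      refine (FF_sum H.toSys y).congr fun k => ?_
      ring) (by
      refine (FF_sum H.toSys y).norm.congr fun k => ?_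
      rw [mul_assoc, norm_mul, Complex.norm_real, Real.norm_of_nonneg (H.pos k).le])).2
    have h2 : ∀ k, (μ k : ℂ) * (A (z k) * cexp (z k * y)) = (μ k : ℂ) * A (z k) * cexp (z k * y) :=
      fun k => by ring
    simp_rw [h2] at h1
    rw [← h1]
    refine tsum_congr fun p => ?_
    push_cast
    ring
  inv p := by
    obtain ⟨k, j⟩ := p
    unfold rbar
    rw [Sigma.mk.inj_iff]
    refine ⟨H.inv k, ?_⟩
    have h1 : ∀ (k' : K) (hk : k' = k) (i : Fin (m k')), (i : ℕ) = (j : ℕ) → HEq i j := by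
      intro k' hk i hi
      subst hk
      exact heq_of_eq (Fin.ext hi)
    exact h1 _ (H.inv k) _ rfl
  mub _ := rfl
  zb p := H.zb p.1
  Ab p := H.Ab p.1
  refl p := by
    obtain ⟨k, j⟩ := p
    obtain ⟨l, hl⟩ := H.refl k
    have hml : 0 < m l := by
      have h1 := H.pos l
      rw [hm] at h1
      exact_mod_cast h1
    exact ⟨⟨l, ⟨0, hml⟩⟩, hl⟩
  line p := H.line p.1

/-- the central contribution is the same -/
lemma rep_m0 (H : SysL z μ A P bar) (hm : ∀ k, μ k = m k) :
    m0 (fun p : Rep m => z p.1) (fun _ => 1) A = m0 z μ A := by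
  classical
  unfold m0
  have hfin : {k | z k = 0}.Finite := (H.fin 0).subset fun k hk => by
    show ‖z k‖ ≤ 0
    rw [show z k = 0 from hk, norm_zero]
  have hs : Summable fun k => (μ k : ℂ) * (if z k = 0 then ((A 0).re : ℂ) else 0) :=
    summable_of_hasFiniteSupport (hfin.subset fun k hk => by
      by_contra hc
      have hc : z k ≠ 0 := hc
      exact hk (by simp [hc]))
  have hs' : Summable fun k => μ k * ‖(if z k = 0 then ((A 0).re : ℂ) else 0)‖ :=
    summable_of_hasFiniteSupport (hfin.subset fun k hk => by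
      by_contra hc
      have hc : z k ≠ 0 := hc
      exact hk (by simp [hc]))
  have h1 := (rep_sum hm hs hs').2
  have h2 : ((∑' p : Rep m, (if z p.1 = 0 then 1 * (A 0).re else 0) : ℝ) : ℂ) =
      ((∑' k, (if z k = 0 then μ k * (A 0).re else 0) : ℝ) : ℂ) := by
    rw [Complex.ofReal_tsum, Complex.ofReal_tsum]
    refine Eq.trans ?_ (h1.trans ?_)
    · refine tsum_congr fun p => ?_
      split_ifs <;> simp
    · refine tsum_congr fun k => ?_
      split_ifs <;> simp
  exact_mod_cast h2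

/-- the product over the distinct exponents, with powers -/
noncomputable def PM (z : K → ℂ) (m : K → ℕ) (A : ℂ → ℂ) (κ : ℝ) : ℝ :=
  ∏' k : {k // 0 < (z k).im}, I0 (2 * κ * (A (z k)).re) ^ m k

/-- the equivalence of the index sets -/
def repE (z : K → ℂ) (m : K → ℕ) :
    (Σ k : {k // 0 < (z k).im}, Fin (m k)) ≃ {p : Rep m // 0 < (z p.1).im} where
  toFun x := ⟨⟨x.1, x.2⟩, x.1.2⟩
  invFun p := ⟨⟨p.1.1, p.2⟩, p.1.2⟩
  left_inv _ := rfl
  right_inv _ := rfl

lemma rep_prod (H : SysL z μ A P bar) (hm : ∀ k, μ k = m k) (hRH : ∀ k, (z k).re = 0)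
    {κ : ℝ} (hκ : 0 < κ) : PR (fun p : Rep m => z p.1) (fun _ => 1) A κ = PM z m A κ ∧
      Multipliable (fun k : {k // 0 < (z k).im} => I0 (2 * κ * (A (z k)).re) ^ m k) := by
  have hc : ∀ k, 0 < (A (z k)).re := fun k => (H.line k (hRH k)).1
  have hs : Summable fun p : {p : Rep m // 0 < (z p.1).im} => (A (z p.1.1)).re := by
    have h1 := (rep_sum (f := fun k => A (z k)) hm (by
      refine Summable.of_norm (H.sum.congr fun k => ?_)
      rw [norm_cf H.toSys]) H.sum).1
    have h2 : Summable fun p : Rep m => (A (z p.1)).re :=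
      Summable.of_norm_bounded h1 fun p => Complex.abs_re_le_norm _
    exact h2.subtype _
  obtain ⟨h1, -⟩ := Pool.Agent.N804.LI.mean {p : Rep m // 0 < (z p.1).im} (fun p => (A (z p.1.1)).re)
    (fun p => (z p.1.1).im) κ hκ (fun p => hc _) hs
  have h2 := h1.hasProd
  rw [← (repE z m).hasProd_iff] at h2
  have h3 : HasProd (fun k : {k // 0 < (z k).im} => I0 (2 * κ * (A (z k)).re) ^ m k)
      (∏' p : {p : Rep m // 0 < (z p.1).im}, I0 (2 * κ * (A (z p.1.1)).re)) := by
    refine h2.sigma fun k => ?_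
    have h4 := hasProd_fintype (fun j : Fin (m k) => I0 (2 * κ * (A (z k)).re))
    rw [Finset.prod_const, Finset.card_univ, Fintype.card_fin] at h4
    exact h4
  refine ⟨?_, h3.multipliable⟩
  unfold PR PM
  rw [h3.tprod_eq]
  refine tprod_congr fun p => ?_
  rw [one_mul]

/-- the product over the distinct exponents converges -/
lemma PR_mul (H : SysL z μ A P bar) (hRH : ∀ k, (z k).re = 0) {κ : ℝ} (hκ : 0 < κ) :
    Multipliable (fun k : {k // 0 < (z k).im} => I0 (2 * κ * (μ k * (A (z k)).re))) :=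
  (Pool.Agent.N804.LI.mean {k // 0 < (z k).im} (fun k => cf z μ A k) (fun k => (z k).im) κ hκ
    (fun i => cf_pos H (hRH i)) ((cf_sum H).subtype _)).1

lemma rep_li (hm1 : ∀ k, 0 < m k) : LinearIndependent ℚ (fun p : {p : Rep m // 0 < (z p.1).im} => (z p.1.1).im) ↔
    (∀ k : {k // 0 < (z k).im}, m k = 1) ∧ LinearIndependent ℚ (fun k : {k // 0 < (z k).im} => (z k).im) := by
  constructor
  · intro h
    have h1 : ∀ k : {k // 0 < (z k).im}, m k = 1 := by
      intro k
      by_contra hne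
      have h2 : 1 < m k := lt_of_le_of_ne (hm1 k) (Ne.symm hne)
      have h3 := h.injective (a₁ := ⟨⟨k, ⟨0, hm1 k⟩⟩, k.2⟩) (a₂ := ⟨⟨k, ⟨1, h2⟩⟩, k.2⟩) rfl
      have h4 := congrArg Subtype.val h3
      have h5 := (Sigma.mk.inj_iff.1 h4).2
      rw [heq_iff_eq] at h5
      have := congrArg Fin.val h5
      simp at this
    refine ⟨h1, ?_⟩
    exact h.comp (fun k : {k // 0 < (z k).im} => (⟨⟨k, ⟨0, hm1 k⟩⟩, k.2⟩ : {p : Rep m // 0 < (z p.1).im}))
      fun a b hab => by
        have h4 := congrArg Subtype.val hab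
        exact Subtype.ext (Sigma.mk.inj_iff.1 h4).1
  · rintro ⟨h1, h2⟩
    refine h2.comp (fun p : {p : Rep m // 0 < (z p.1).im} => (⟨p.1.1, p.2⟩ : {k // 0 < (z k).im})) ?_
    rintro ⟨⟨k, j⟩, hk⟩ ⟨⟨l, i⟩, hl⟩ hab
    have h3 : k = l := congrArg Subtype.val hab
    subst h3
    have h4 : m k = 1 := h1 ⟨k, hk⟩
    have h5 : j = i := by
      apply Fin.ext
      have := j.2
      have := i.2
      omega
    rw [h5]

/-- **The limit and the two products.** -/
theorem em_both (H : SysL z μ A P bar) (hm : ∀ k, μ k = m k) (hmb : ∀ k, m (bar k) = m k)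
    (hRH : ∀ k, (z k).re = 0) {κ : ℝ} (hκ : 0 < κ) :
    ∃ E : ℝ, 0 < E ∧ Tendsto (EM P κ) atTop (𝓝 (Real.exp (κ * m0 z μ A) * E)) ∧
      PR z μ A κ ≤ E ∧ (E = PR z μ A κ ↔ LinearIndependent ℚ (fun k : {k // 0 < (z k).im} => (z k).im)) ∧
      PM z m A κ ≤ E ∧ (E = PM z m A κ ↔ (∀ k : {k // 0 < (z k).im}, m k = 1) ∧
        LinearIndependent ℚ (fun k : {k // 0 < (z k).im} => (z k).im)) ∧
      Multipliable (fun k : {k // 0 < (z k).im} => I0 (2 * κ * (μ k * (A (z k)).re))) ∧
      Multipliable (fun k : {k // 0 < (z k).im} => I0 (2 * κ * (A (z k)).re) ^ m k) := by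
  obtain ⟨E, h1, h2, h3, h4⟩ := em_line H hRH hκ
  obtain ⟨E', k1, k2, k3, k4⟩ := em_line (rep_sys H hm hmb) (fun p => hRH p.1) hκ
  rw [rep_m0 H hm] at k1
  have h5 := tendsto_nhds_unique h1 k1
  have h6 : E = E' := mul_left_cancel₀ (Real.exp_pos _).ne' h5
  rw [← h6, (rep_prod H hm hRH hκ).1] at k3 k4
  refine ⟨E, h2.trans_le h3, h1, h3, h4, k3, ?_, PR_mul H hRH hκ, (rep_prod H hm hRH hκ).2⟩
  rw [k4]
  exact rep_li fun k => by
    have h1 := H.pos k
    rw [hm] at h1
    exact_mod_cast h1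

end

end Pool.Agent.H862.EL
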