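import Pool.Agent.H862.EL.Loc

/-!
# Sums of exponentials with a growing term: linear growth along a sequence
-/

set_option autoImplicit false

namespace Pool.Agent.H862.EL

open Filter Topology MeasureTheory Set
open scoped ComplexConjugate
open Pool.Agent.N804.LI (EM gs I0)

section
variable {K : Type} {z : K → ℂ} {μ : K → ℝ} {A : ℂ → ℂ} {P : ℝ → ℝ}

/-- A growing term makes the exponential moments grow exponentially. -/
theorem em_rate (H : Sys z μ A P) (h0 : ∃ k, 0 < (z k).re) {κ : ℝ} (hκ : 0 < κ) :
    ∃ c η C : ℝ, 0 < c ∧ 0 < η ∧ ∀ᶠ s : ℝ in atTop, κ / (2 * s) * (c * Real.exp (η * s) - 2 * C) ≤ EM P κ (2 * s) := by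
  obtain ⟨γ, c, η, hc, hη, hcase⟩ := cases H h0
  obtain ⟨C, hC⟩ := cut H
  have hC0 : 0 ≤ C := (norm_nonneg _).trans (hC 0 1 one_pos)
  -- the lower bound along `2 s`
  refine ⟨c, η, C, hc, hη, ?_⟩
  have key : ∀ᶠ s : ℝ in atTop, κ / (2 * s) * (c * Real.exp (η * s) - 2 * C) ≤ EM P κ (2 * s) := by
    have hsmall : ∀ s : ℝ, 6 ≤ s → 2 * (1 / (Real.sqrt (s / 8) * Real.sqrt (2 * Real.pi))) ≤ 1 := by
      intro s hs
      rw [← Real.sqrt_mul (by linarith)]
      have h1 : 2 ≤ Real.sqrt (s / 8 * (2 * Real.pi)) := by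
        rw [show (2 : ℝ) = Real.sqrt 4 by
          rw [show (4 : ℝ) = 2 ^ 2 by norm_num]; exact (Real.sqrt_sq (by norm_num)).symm]
        apply Real.sqrt_le_sqrt
        have := Real.pi_gt_three
        nlinarith
      rw [mul_one_div, div_le_one (by linarith)]
      exact h1
    have hcont : ∀ s : ℝ, Continuous fun y => gs (Real.sqrt (s / 8)) (y - s) := fun s =>
      (gs_cont _).comp (continuous_id.sub continuous_const)
    have hII0 : ∀ s : ℝ, 0 < s → ‖II z μ A 0 s - ((∫ y in (0 : ℝ)..(2 * s), P y *
        gs (Real.sqrt (s / 8)) (y - s) : ℝ) : ℂ)‖ ≤ C := by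
      intro s hs
      have h1 := hC 0 s hs
      have e1 : ((∫ y in (0 : ℝ)..(2 * s), P y * gs (Real.sqrt (s / 8)) (y - s) : ℝ) : ℂ) =
          ∫ y in (0 : ℝ)..(2 * s), (P y : ℂ) * Complex.exp (-((0 : ℝ) * Complex.I) * y) *
            (gs (Real.sqrt (s / 8)) (y - s) : ℂ) := by
        rw [← intervalIntegral.integral_ofReal]
        refine intervalIntegral.integral_congr fun y _ => ?_
        simp
      rw [e1]
      exact h1
    rcases hcase with h | h
    · filter_upwards [h, eventually_ge_atTop (6 : ℝ)] with s h1 hs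
      have hs0 : 0 < s := by linarith
      have hε : 0 < Real.sqrt (s / 8) := Real.sqrt_pos.2 (by linarith)
      refine le_trans (mul_le_mul_of_nonneg_left ?_ (by positivity)) (em_ge H.cont hκ hs0 (hcont s)
        (fun y => (gs_pos hε _).le) fun y => ?_)
      · have h2 := (Complex.abs_re_le_norm _).trans (hII0 s hs0)
        rw [Complex.sub_re, Complex.ofReal_re] at h2
        have := (abs_le.1 h2).2
        linarith
      · have h2 := gs_le hε (y - s)
        have h3 := hsmall s hs
        have h4 := gs_pos hε (y - s)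
        linarith
    · filter_upwards [h, eventually_ge_atTop (6 : ℝ)] with s h1 hs
      have hs0 : 0 < s := by linarith
      have hε : 0 < Real.sqrt (s / 8) := Real.sqrt_pos.2 (by linarith)
      obtain ⟨J, hJ⟩ : ∃ J : ℂ, J = ∫ y in (0 : ℝ)..(2 * s), (P y : ℂ) * Complex.exp (-(γ * Complex.I) * y) *
            (gs (Real.sqrt (s / 8)) (y - s) : ℂ) := ⟨_, rfl⟩
      obtain ⟨φ, hφ⟩ : ∃ φ : ℝ, φ = Complex.arg J := ⟨_, rfl⟩
      obtain ⟨w, hw⟩ : ∃ w : ℝ → ℝ, w = fun y => (1 + Real.cos (γ * y + φ)) *
        gs (Real.sqrt (s / 8)) (y - s) := ⟨_, rfl⟩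
      have hwc : Continuous w := by
        rw [hw]
        exact (by fun_prop : Continuous fun y : ℝ => 1 + Real.cos (γ * y + φ)).mul (hcont s)
      refine le_trans (mul_le_mul_of_nonneg_left ?_ (by positivity)) (em_ge H.cont hκ hs0 hwc
        (fun y => ?_) fun y => ?_)
      · -- the integral
        have h2 := hII0 s hs0
        have h3 := hC γ s hs0
        rw [← hJ] at h3
        have hi1 : IntervalIntegrable (fun y => P y * gs (Real.sqrt (s / 8)) (y - s)) volume 0 (2 * s) :=
          (H.cont.mul (hcont s)).intervalIntegrable _ _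
        have hcos : Continuous fun y : ℝ => Real.cos (γ * y + φ) := by fun_prop
        have hi2 : IntervalIntegrable (fun y => P y * (Real.cos (γ * y + φ) * gs (Real.sqrt (s / 8)) (y - s)))
            volume 0 (2 * s) := (H.cont.mul (hcos.mul (hcont s))).intervalIntegrable _ _
        have e1 : ∫ y in (0 : ℝ)..(2 * s), P y * w y = (∫ y in (0 : ℝ)..(2 * s), P y *
            gs (Real.sqrt (s / 8)) (y - s)) + ∫ y in (0 : ℝ)..(2 * s), P y * (Real.cos (γ * y + φ) *
              gs (Real.sqrt (s / 8)) (y - s)) := by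
          rw [← intervalIntegral.integral_add hi1 hi2, hw]
          refine intervalIntegral.integral_congr fun y _ => ?_
          ring
        have e2 : ∫ y in (0 : ℝ)..(2 * s), P y * (Real.cos (γ * y + φ) *
              gs (Real.sqrt (s / 8)) (y - s)) = ‖J‖ := by
          have e3 : (Complex.exp (-(φ * Complex.I)) * J) = (‖J‖ : ℂ) := by
            conv_lhs => rw [← Complex.norm_mul_exp_arg_mul_I J, ← hφ]
            rw [mul_left_comm, ← Complex.exp_add]
            simp
          have e4 : (Complex.exp (-(φ * Complex.I)) * J).re = ‖J‖ := by rw [e3, Complex.ofReal_re]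
          rw [← e4, hJ, ← intervalIntegral.integral_const_mul]
          have hcc : Continuous fun y : ℝ => Complex.exp (-(φ * Complex.I)) * ((P y : ℂ) *
              Complex.exp (-(γ * Complex.I) * y) * (gs (Real.sqrt (s / 8)) (y - s) : ℂ)) := by
            refine continuous_const.mul (((Complex.continuous_ofReal.comp H.cont).mul (by fun_prop)).mul
              (Complex.continuous_ofReal.comp (hcont s)))
          have e5 := intervalIntegral.intervalIntegral_re (hcc.intervalIntegrable (μ := volume) 0 (2 * s))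
          refine Eq.trans ?_ e5
          refine intervalIntegral.integral_congr fun y _ => ?_
          show P y * (Real.cos (γ * y + φ) * gs (Real.sqrt (s / 8)) (y - s)) = _
          have e6 : Complex.exp (-(φ * Complex.I)) * ((P y : ℂ) *
              Complex.exp (-(γ * Complex.I) * y) * (gs (Real.sqrt (s / 8)) (y - s) : ℂ)) =
              ((P y * gs (Real.sqrt (s / 8)) (y - s) : ℝ) : ℂ) *
                Complex.exp (((-(γ * y + φ) : ℝ) : ℂ) * Complex.I) := by
            have e7 : (((-(γ * y + φ) : ℝ) : ℂ) * Complex.I) = -(φ * Complex.I) + -(γ * Complex.I) * y := by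
              push_cast; ring
            rw [e7, Complex.exp_add]
            push_cast
            ring
          show _ = (Complex.exp (-(φ * Complex.I)) * ((P y : ℂ) *
              Complex.exp (-(γ * Complex.I) * y) * (gs (Real.sqrt (s / 8)) (y - s) : ℂ))).re
          rw [e6, Complex.re_ofReal_mul, Complex.exp_ofReal_mul_I_re, Real.cos_neg]
          ring
        rw [e1, e2]
        have h4 := norm_sub_norm_le (II z μ A γ s) J
        obtain ⟨J0, hJ0⟩ : ∃ J0 : ℝ, J0 = ∫ y in (0 : ℝ)..(2 * s), P y *
            gs (Real.sqrt (s / 8)) (y - s) := ⟨_, rfl⟩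
        rw [← hJ0] at h2 ⊢
        have h5 := norm_sub_norm_le (J0 : ℂ) (II z μ A 0 s)
        rw [norm_sub_rev, Complex.norm_real, Real.norm_eq_abs] at h5
        have h6 := neg_abs_le J0
        linarith
      · rw [hw]
        have := Real.neg_one_le_cos (γ * y + φ)
        exact mul_nonneg (by linarith) (gs_pos hε _).le
      · rw [hw]
        have h2 := Real.cos_le_one (γ * y + φ)
        have h3 := gs_le hε (y - s)
        have h4 := hsmall s hs
        have h5 := gs_pos hε (y - s)
        show (1 + Real.cos (γ * y + φ)) * gs (Real.sqrt (s / 8)) (y - s) ≤ 1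
        nlinarith
  exact key

/-- **Linear growth along a sequence.** -/
theorem lin_grow (H : Sys z μ A P) (h0 : ∃ k, 0 < (z k).re) : ∃ η : ℝ, 0 < η ∧ ∃ᶠ y : ℝ in atTop, η * y ≤ P y := by
  obtain ⟨c, η, C, hc, hη, hev⟩ := em_rate H h0 one_pos
  refine ⟨η / 8, by positivity, fun hcon => ?_⟩
  obtain ⟨Y, hY⟩ := eventually_atTop.1 hcon
  obtain ⟨B, hB⟩ : ∃ B : ℝ, ∀ y ∈ Set.Icc (0 : ℝ) Y, P y ≤ B := by
    obtain ⟨B, hB⟩ := isCompact_Icc.bddAbove_image (f := P) (K := Set.Icc (0 : ℝ) Y) H.cont.continuousOn
    exact ⟨B, fun y hy => hB ⟨y, hy, rfl⟩⟩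
  have hall : ∀ y : ℝ, 0 ≤ y → P y ≤ |B| + η / 8 * y := by
    intro y hy
    rcases le_total y Y with h | h
    · have := hB y ⟨hy, h⟩
      have h2 := le_abs_self B
      have h3 : 0 ≤ η / 8 * y := by positivity
      linarith
    · have := hY y h
      push Not at this
      have h2 := abs_nonneg B
      linarith
  have hup : ∀ s : ℝ, 0 < s → EM P 1 (2 * s) ≤ Real.exp (|B| + η / 4 * s) := by
    intro s hs
    unfold EM
    have h1 : ∫ y in (0 : ℝ)..(2 * s), Real.exp (1 * P y) ≤ ∫ y in (0 : ℝ)..(2 * s), Real.exp (|B| + η / 4 * s) := by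
      refine intervalIntegral.integral_mono_on (by linarith)
        ((Real.continuous_exp.comp (continuous_const.mul H.cont)).intervalIntegrable _ _)
        intervalIntegrable_const fun y hy => ?_
      refine Real.exp_le_exp.2 ?_
      rw [one_mul]
      refine (hall y hy.1).trans ?_
      have := mul_le_mul_of_nonneg_left hy.2 (show 0 ≤ η / 8 by positivity)
      linarith
    rw [intervalIntegral.integral_const, smul_eq_mul, sub_zero] at h1
    calc 1 / (2 * s) * ∫ y in (0 : ℝ)..(2 * s), Real.exp (1 * P y)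
        ≤ 1 / (2 * s) * (2 * s * Real.exp (|B| + η / 4 * s)) := mul_le_mul_of_nonneg_left h1 (by positivity)
      _ = _ := by field_simp
  have hlim : Tendsto (fun s : ℝ => 2 * C * Real.exp (-(η * s)) + 2 * Real.exp |B| * (s * Real.exp (-(3 / 4 * η * s))))
      atTop (𝓝 0) := by
    have h1 : Tendsto (fun s : ℝ => Real.exp (-(η * s))) atTop (𝓝 0) :=
      Real.tendsto_exp_neg_atTop_nhds_zero.comp (tendsto_id.const_mul_atTop hη)
    have h2 : Tendsto (fun s : ℝ => s * Real.exp (-(3 / 4 * η * s))) atTop (𝓝 0) := by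
      have h3 := Real.tendsto_pow_mul_exp_neg_atTop_nhds_zero 1
      have h4 : Tendsto (fun s : ℝ => 3 / 4 * η * s) atTop atTop := tendsto_id.const_mul_atTop (by positivity)
      have h5 := (h3.comp h4).const_mul (1 / (3 / 4 * η))
      rw [mul_zero] at h5
      refine h5.congr fun s => ?_
      simp only [Function.comp, pow_one]
      field_simp
    have h3 := (h1.const_mul (2 * C)).add (h2.const_mul (2 * Real.exp |B|))
    rw [mul_zero, mul_zero, add_zero] at h3
    exact h3
  have h5 : ∀ᶠ s : ℝ in atTop, c ≤ 2 * C * Real.exp (-(η * s)) + 2 * Real.exp |B| * (s * Real.exp (-(3 / 4 * η * s))) := by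
    filter_upwards [hev, eventually_gt_atTop (0 : ℝ)] with s h1 hs
    have h2 := h1.trans (hup s hs)
    have h3 : c * Real.exp (η * s) - 2 * C ≤ 2 * s * Real.exp (|B| + η / 4 * s) := by
      have h4 := mul_le_mul_of_nonneg_left h2 (show 0 ≤ 2 * s by positivity)
      have e : 2 * s * (1 / (2 * s) * (c * Real.exp (η * s) - 2 * C)) = c * Real.exp (η * s) - 2 * C := by
        field_simp
      rwa [e] at h4
    have h4 := mul_le_mul_of_nonneg_right h3 (Real.exp_pos (-(η * s))).le
    have e1 : Real.exp (η * s) * Real.exp (-(η * s)) = 1 := by rw [← Real.exp_add]; simp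
    have e2 : Real.exp (|B| + η / 4 * s) * Real.exp (-(η * s)) = Real.exp |B| * Real.exp (-(3 / 4 * η * s)) := by
      rw [← Real.exp_add, ← Real.exp_add]
      congr 1
      ring
    have e3 : (c * Real.exp (η * s) - 2 * C) * Real.exp (-(η * s)) = c - 2 * C * Real.exp (-(η * s)) := by
      linear_combination c * e1
    have e4 : 2 * s * Real.exp (|B| + η / 4 * s) * Real.exp (-(η * s)) =
        2 * Real.exp |B| * (s * Real.exp (-(3 / 4 * η * s))) := by
      linear_combination (2 * s) * e2
    rw [e3, e4] at h4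
    linarith
  have := ge_of_tendsto hlim h5
  linarith

end

end Pool.Agent.H862.EL
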