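import Pool.Agent.H862.EL.Loc

/-!
# The limit of the exponential moments, for symmetric families of exponents
-/

set_option autoImplicit false

namespace Pool.Agent.H862.EL

open Filter Topology MeasureTheory Set
open scoped ComplexConjugate
open Pool.Agent.N804.LI (EM gs I0 em_const)

/-- a family of exponents symmetric under complex conjugation and under the reflection in the line -/
structure SysL {K : Type} (z : K → ℂ) (μ : K → ℝ) (A : ℂ → ℂ) (P : ℝ → ℝ) (bar : K → K) : Prop
    extends Sys z μ A P where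
  inv : ∀ k, bar (bar k) = k
  mub : ∀ k, μ (bar k) = μ k
  zb : ∀ k, z (bar k) = conj (z k)
  Ab : ∀ k, A (conj (z k)) = conj (A (z k))
  refl : ∀ k, ∃ l, z l = -(conj (z k))
  line : ∀ k, (z k).re = 0 → 0 < (A (z k)).re ∧ (A (z k)).im = 0

open Classical in
/-- the contribution of the exponent zero -/
noncomputable def m0 {K : Type} (z : K → ℂ) (μ : K → ℝ) (A : ℂ → ℂ) : ℝ :=
  ∑' k, if z k = 0 then μ k * (A 0).re else 0

/-- the product for independent phases -/
noncomputable def PR {K : Type} (z : K → ℂ) (μ : K → ℝ) (A : ℂ → ℂ) (κ : ℝ) : ℝ :=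
  ∏' k : {k // 0 < (z k).im}, I0 (2 * κ * (μ k * (A (z k)).re))

section
variable {K : Type} {z : K → ℂ} {μ : K → ℝ} {A : ℂ → ℂ} {P : ℝ → ℝ} {bar : K → K}

/-- a zero off the line gives one to the right -/
lemma right_of_off (H : SysL z μ A P bar) (h : ¬ ∀ k, (z k).re = 0) : ∃ k, 0 < (z k).re := by
  push Not at h
  obtain ⟨k, hk⟩ := h
  rcases lt_or_gt_of_ne hk with h1 | h1
  · obtain ⟨l, hl⟩ := H.refl k
    refine ⟨l, ?_⟩
    rw [hl]
    simp
    exact h1
  · exact ⟨k, h1⟩

/-- the coefficient -/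
noncomputable def cf (z : K → ℂ) (μ : K → ℝ) (A : ℂ → ℂ) (k : K) : ℝ := μ k * (A (z k)).re

lemma cf_pos (H : SysL z μ A P bar) {k : K} (h : (z k).re = 0) : 0 < cf z μ A k :=
  mul_pos (H.pos k) (H.line k h).1

lemma cf_sum (H : SysL z μ A P bar) : Summable (cf z μ A) := by
  refine Summable.of_norm_bounded H.sum fun k => ?_
  unfold cf
  rw [norm_mul, Real.norm_of_nonneg (H.pos k).le]
  exact mul_le_mul_of_nonneg_left (Complex.abs_re_le_norm _) (H.pos k).le

/-- the term of a zero on the line -/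
lemma term_line (H : SysL z μ A P bar) {k : K} (h : (z k).re = 0) (y : ℝ) :
    (μ k : ℂ) * A (z k) * Complex.exp (z k * y) =
      (cf z μ A k : ℂ) * Complex.exp (((z k).im * y : ℝ) * Complex.I) := by
  have e : z k = ((z k).im : ℂ) * Complex.I := by
    apply Complex.ext
    · simp [h]
    · simp
  have e2 : A (z k) = ((A (z k)).re : ℂ) := Complex.ext rfl (by simpa using (H.line k h).2)
  have e3 : z k * y = (((z k).im * y : ℝ) : ℂ) * Complex.I := by
    conv_lhs => rw [e]
    push_cast
    ring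
  rw [e3, cf]
  conv_lhs => rw [e2]
  push_cast
  ring

/-- the sum over the zeros on the line -/
lemma sum_line (H : SysL z μ A P bar) (hRH : ∀ k, (z k).re = 0) (y : ℝ) :
    ∑' k, (μ k : ℂ) * A (z k) * Complex.exp (z k * y) =
      ((m0 z μ A + ∑' k : {k // 0 < (z k).im}, 2 * cf z μ A k * Real.cos ((z k).im * y) : ℝ) : ℂ) := by
  classical
  have hc0 : ∀ k, 0 ≤ cf z μ A k := fun k => (cf_pos H (hRH k)).le
  have e0 : (fun k => (μ k : ℂ) * A (z k) * Complex.exp (z k * y)) =
      fun k => (cf z μ A k : ℂ) * Complex.exp (((z k).im * y : ℝ) * Complex.I) :=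
    funext fun k => term_line H (hRH k) y
  rw [e0]
  set a : K → ℂ := fun k => (cf z μ A k : ℂ) * Complex.exp (((z k).im * y : ℝ) * Complex.I) with ha
  have hcb : ∀ k, cf z μ A (bar k) = cf z μ A k := fun k => by
    unfold cf; rw [H.mub, H.zb, H.Ab]; simp
  have hn : ∀ k, ‖a k‖ = cf z μ A k := fun k => by
    simp only [ha]
    rw [norm_mul, Complex.norm_exp_ofReal_mul_I, mul_one, Complex.norm_real, Real.norm_of_nonneg (hc0 k)]
  have has : Summable a := Summable.of_norm (by simpa only [hn] using cf_sum H)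
  have hind : ∀ s : Set K, Summable (s.indicator a) := fun s => has.indicator s
  -- split
  have e1 : a = fun k => ({k | (z k).im = 0}.indicator a k + {k | 0 < (z k).im}.indicator a k) +
      {k | (z k).im < 0}.indicator a k := by
    funext k
    simp only [Set.indicator_apply, Set.mem_ofPred_eq]
    rcases lt_trichotomy (z k).im 0 with h | h | h
    · rw [if_neg (ne_of_lt h), if_neg (not_lt.2 h.le), if_pos h]; simp
    · rw [if_pos h, if_neg (by rw [h]; exact lt_irrefl _), if_neg (by rw [h]; exact lt_irrefl _)]; simp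
    · rw [if_neg (ne_of_gt h), if_pos h, if_neg (not_lt.2 h.le)]; simp
  have e2 : ∑' k, a k = (∑' k, {k | (z k).im = 0}.indicator a k + ∑' k, {k | 0 < (z k).im}.indicator a k) +
      ∑' k, {k | (z k).im < 0}.indicator a k := by
    conv_lhs => rw [e1]
    rw [((hind _).add (hind _)).tsum_add (hind _), (hind _).tsum_add (hind _)]
  -- the negative part
  let be : K ≃ K := ⟨bar, bar, H.inv, H.inv⟩
  have e3 : ∑' k, {k | (z k).im < 0}.indicator a k = ∑' k, {k | 0 < (z k).im}.indicator (fun k => a (bar k)) k := by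
    rw [← be.tsum_eq]
    refine tsum_congr fun k => ?_
    simp only [Set.indicator_apply, Set.mem_ofPred_eq]
    show (if (z (bar k)).im < 0 then a (bar k) else 0) = _
    rw [H.zb, Complex.conj_im]
    simp only [neg_lt_zero]
  have hbs : Summable (fun k => a (bar k)) := be.summable_iff.2 has
  have e4 : ∑' k, {k | (z k).im = 0}.indicator a k = ((m0 z μ A : ℝ) : ℂ) := by
    unfold m0
    rw [Complex.ofReal_tsum]
    refine tsum_congr fun k => ?_
    simp only [Set.indicator_apply, Set.mem_ofPred_eq]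
    have hiff : (z k).im = 0 ↔ z k = 0 := by
      constructor
      · intro h
        apply Complex.ext
        · simp [hRH k]
        · simp [h]
      · intro h; rw [h]; simp
    by_cases h : (z k).im = 0
    · rw [if_pos h, if_pos (hiff.1 h)]
      simp only [ha, cf, h, hiff.1 h]
      simp
    · rw [if_neg h, if_neg (fun h2 => h (hiff.2 h2))]
      simp
  rw [e2, e3, e4, add_assoc, ← (hind _).tsum_add (hbs.indicator _), Complex.ofReal_add, Complex.ofReal_tsum]
  congr 1
  have e5 : (fun k => {k | 0 < (z k).im}.indicator a k + {k | 0 < (z k).im}.indicator (fun k => a (bar k)) k) =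
      {k | 0 < (z k).im}.indicator (fun k => a k + a (bar k)) := by
    funext k
    simp only [Set.indicator_apply]
    split_ifs <;> simp
  rw [e5, ← tsum_subtype {k | 0 < (z k).im} (fun k => a k + a (bar k))]
  refine tsum_congr fun k => ?_
  simp only [ha]
  rw [hcb, H.zb, Complex.conj_im]
  push_cast
  rw [← mul_add, Complex.cos]
  ring_nf

/-- **All exponents on the line**: the limit and its lower bound. -/
theorem em_line (H : SysL z μ A P bar) (hRH : ∀ k, (z k).re = 0) {κ : ℝ} (hκ : 0 < κ) :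
    ∃ E : ℝ, Tendsto (EM P κ) atTop (𝓝 (Real.exp (κ * m0 z μ A) * E)) ∧
      0 < PR z μ A κ ∧ PR z μ A κ ≤ E ∧
      (E = PR z μ A κ ↔ LinearIndependent ℚ (fun k : {k // 0 < (z k).im} => (z k).im)) := by
  have hc0 : ∀ k, 0 < cf z μ A k := fun k => cf_pos H (hRH k)
  have hs : Summable (cf z μ A) := cf_sum H
  set c : {k // 0 < (z k).im} → ℝ := fun k => cf z μ A k with hc
  have hcs : Summable c := hs.subtype _
  obtain ⟨-, hpos, E, hE1, hE2, hE3⟩ := Pool.Agent.N804.LI.mean {k // 0 < (z k).im} c (fun k => (z k).im) κ hκ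
    (fun i => hc0 i) hcs
  refine ⟨E, ?_, hpos, hE2, hE3⟩
  have hFs : Summable (fun i => 2 * c i) := hcs.mul_left 2
  have hb : ∀ (i : {k // 0 < (z k).im}) (y : ℝ), ‖2 * c i * Real.cos ((z i).im * y)‖ ≤ 2 * c i := by
    intro i y
    have h1 : 0 ≤ 2 * c i := by have := hc0 i; simp only [hc]; linarith
    rw [norm_mul, Real.norm_of_nonneg h1, Real.norm_eq_abs]
    have := Real.abs_cos_le_one ((z i).im * y)
    nlinarith
  have hFc : Continuous (fun y : ℝ => ∑' i, 2 * c i * Real.cos ((z i).im * y)) := by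
    refine continuous_tsum (fun i => by fun_prop) hFs fun i y => hb i y
  have hFb : ∀ y : ℝ, |∑' i, 2 * c i * Real.cos ((z i).im * y)| ≤ ∑' i, 2 * c i := fun y => by
    rw [← Real.norm_eq_abs]
    exact tsum_of_norm_bounded hFs.hasSum fun i => hb i y
  refine Pool.Agent.N804.LI.pert P (fun y => m0 z μ A + ∑' i, 2 * c i * Real.cos ((z i).im * y)) κ _
    (|m0 z μ A| + ∑' i, 2 * c i) H.cont
    (by fun_prop) (fun y => (abs_add_le _ _).trans (by have := hFb y; linarith)) ?_ ?_
  · have h1 : Tendsto (fun y : ℝ => ((P y : ℂ) -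
        ∑' k, μ k * A (z k) * Complex.exp (z k * y)).re) atTop (𝓝 0) := by
      have := (Complex.continuous_re.tendsto _).comp H.lim
      rw [Complex.zero_re] at this
      exact this
    refine h1.congr fun y => ?_
    rw [sum_line H hRH y, ← Complex.ofReal_sub, Complex.ofReal_re]
  · have h1 := hE1.const_mul (Real.exp (κ * m0 z μ A))
    refine h1.congr fun Y => ?_
    rw [em_const]

/-- **The dichotomy**: a finite limit or `+∞`. -/
theorem em_dich (H : SysL z μ A P bar) {κ : ℝ} (hκ : 0 < κ) :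
    ((∀ k, (z k).re = 0) ∧ ∃ E : ℝ, Tendsto (EM P κ) atTop (𝓝 (Real.exp (κ * m0 z μ A) * E)) ∧
      0 < PR z μ A κ ∧ PR z μ A κ ≤ E ∧
      (E = PR z μ A κ ↔ LinearIndependent ℚ (fun k : {k // 0 < (z k).im} => (z k).im))) ∨
    ((¬ ∀ k, (z k).re = 0) ∧ Tendsto (EM P κ) atTop atTop) := by
  by_cases h : ∀ k, (z k).re = 0
  · exact Or.inl ⟨h, em_line H h hκ⟩
  · exact Or.inr ⟨h, em_atTop H.toSys (right_of_off H h) hκ⟩

end

end Pool.Agent.H862.EL
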