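import Pool.Agent.H862.VK.Ker

/-!
# An explicit formula with the kernel `1/(1/4 - z²)`

`√x ∑_{n ≤ x} a_n (1/n - 1/x)` and the zeros of a completed `L`-function, by Fourier inversion.
-/

set_option autoImplicit false

open Complex MeasureTheory Filter Topology Set
open scoped ComplexConjugate FourierTransform

namespace Pool.Agent.H862.EL

/-! ### Fourier inversion -/

/-- Fourier inversion, in the normalisation of Laplace transforms -/
lemma inversion {q : ℝ → ℂ} (hq : Continuous q) (hqi : Integrable q) {F : ℝ → ℂ} (hF : Integrable F)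
    (h : ∀ t : ℝ, ∫ y : ℝ, q y * cexp (-(t * y * I)) = F t) (y : ℝ) :
    q y = (1 / (2 * Real.pi)) * ∫ t : ℝ, F t * cexp (t * y * I) := by
  have e1 : ∀ w : ℝ, 𝓕 q w = F (2 * Real.pi * w) := by
    intro w
    rw [← h, Real.fourier_real_eq_integral_exp_smul]
    refine integral_congr_ae (Eventually.of_forall fun v => ?_)
    simp only [smul_eq_mul]
    rw [mul_comm]
    congr 2
    push_cast
    ring
  have hpi : (2 * Real.pi) ≠ 0 := by positivity
  have hFi : Integrable (𝓕 q) := by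
    have : 𝓕 q = fun w => F (2 * Real.pi * w) := funext e1
    rw [this]
    exact hF.comp_mul_left' hpi
  have h2 := congrFun (hq.fourierInv_fourier_eq hqi hFi) y
  rw [← h2, Real.fourierInv_eq']
  have e2 : ∀ v : ℝ, cexp (↑(2 * Real.pi * inner ℝ v y) * I) • 𝓕 q v =
      (fun t : ℝ => F t * cexp (t * y * I)) (2 * Real.pi * v) := by
    intro v
    rw [e1, smul_eq_mul, mul_comm]
    simp only
    congr 2
    rw [real_inner_eq_re_inner]
    simp
    ring
  simp_rw [e2]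
  rw [MeasureTheory.Measure.integral_comp_mul_left (fun t : ℝ => F t * cexp (t * y * I)) (2 * Real.pi)]
  rw [abs_of_pos (by positivity), ← Complex.coe_smul, smul_eq_mul]
  congr 1
  push_cast
  rw [one_div]

/-- the Riemann–Lebesgue lemma -/
lemma rlem (F : ℝ → ℂ) : Tendsto (fun y : ℝ => ∫ t : ℝ, F t * cexp (t * y * I)) atTop (𝓝 0) := by
  have h1 := Real.tendsto_integral_exp_smul_cocompact F
  have h2 : Tendsto (fun y : ℝ => -(y / (2 * Real.pi))) atTop (cocompact ℝ) := by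
    have h3 : Tendsto (fun y : ℝ => -(y / (2 * Real.pi))) atTop atBot :=
      tendsto_neg_atTop_atBot.comp (tendsto_id.atTop_div_const (by positivity))
    exact h3.mono_right atBot_le_cocompact
  refine (h1.comp h2).congr fun y => ?_
  simp only [Function.comp_apply]
  refine integral_congr_ae (Eventually.of_forall fun v => ?_)
  simp only
  rw [Circle.smul_def, Real.fourierChar_apply, smul_eq_mul, mul_comm]
  congr 2
  push_cast
  have : (Real.pi : ℂ) ≠ 0 := by exact_mod_cast Real.pi_ne_zero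
  field_simp

/-! ### the blocks -/

/-- the building block, which vanishes for `y ≤ 0` -/
noncomputable def bl (c : ℂ) (y : ℝ) : ℂ := cexp (c * (max y 0 : ℝ)) - cexp (-(1 / 2) * (max y 0 : ℝ))

lemma bl_cont (c : ℂ) : Continuous (bl c) := by
  unfold bl
  fun_prop

lemma bl_neg (c : ℂ) {y : ℝ} (hy : y ≤ 0) : bl c y = 0 := by
  unfold bl
  rw [max_eq_right hy]
  simp

lemma bl_pos (c : ℂ) {y : ℝ} (hy : 0 ≤ y) : bl c y = cexp (c * y) - cexp (-(1 / 2) * y) := by
  unfold bl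
  rw [max_eq_left hy]

lemma exp_lap {c w : ℂ} (h : c.re < w.re) :
    IntegrableOn (fun y : ℝ => cexp (c * y) * cexp (-(w * y))) (Ioi 0) ∧
      ∫ y in Ioi (0 : ℝ), cexp (c * y) * cexp (-(w * y)) = 1 / (w - c) := by
  have e : ∀ y : ℝ, cexp (c * y) * cexp (-(w * y)) = cexp ((c - w) * y) := by
    intro y
    rw [← Complex.exp_add]
    ring_nf
  have hre : (c - w).re < 0 := by rw [sub_re]; linarith
  simp_rw [e]
  refine ⟨integrableOn_exp_mul_complex_Ioi hre 0, ?_⟩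
  rw [integral_exp_mul_complex_Ioi hre]
  have h1 : c - w ≠ 0 := fun h => by rw [h, zero_re] at hre; exact lt_irrefl _ hre
  have h2 : w - c ≠ 0 := by rwa [← neg_ne_zero, neg_sub]
  simp only [ofReal_zero, mul_zero, Complex.exp_zero]
  rw [← neg_sub w c, neg_div_neg_eq]

/-- a function which vanishes on the left -/
lemma full_half {f : ℝ → ℂ} (hf : ∀ y, y ≤ 0 → f y = 0) : (IntegrableOn f (Ioi 0) → Integrable f) ∧
    ∫ y, f y = ∫ y in Ioi (0 : ℝ), f y := by
  have e : f = (Ioi (0 : ℝ)).indicator f := by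
    funext y
    by_cases hy : y ∈ Ioi (0 : ℝ)
    · rw [Set.indicator_of_mem hy]
    · rw [Set.indicator_of_notMem hy]
      exact hf y (not_lt.1 hy)
  constructor
  · intro h
    rw [e]
    exact (integrable_indicator_iff measurableSet_Ioi).2 h
  · conv_lhs => rw [e]
    exact integral_indicator measurableSet_Ioi

lemma bl_lap {c w : ℂ} (h : c.re < w.re) (hw : -(1 / 2) < w.re) :
    Integrable (fun y : ℝ => bl c y * cexp (-(w * y))) ∧
      ∫ y : ℝ, bl c y * cexp (-(w * y)) = 1 / (w - c) - 1 / (w + 1 / 2) := by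
  obtain ⟨h1, h2⟩ := full_half (f := fun y : ℝ => bl c y * cexp (-(w * y)))
    (fun y hy => by rw [bl_neg c hy, zero_mul])
  have hhalf : (-(1 / 2) : ℂ).re < w.re := by
    have : (-(1 / 2) : ℂ).re = -(1 / 2) := by norm_num
    rw [this]; exact hw
  obtain ⟨i1, v1⟩ := exp_lap h
  obtain ⟨i2, v2⟩ := exp_lap hhalf
  have e : EqOn (fun y : ℝ => bl c y * cexp (-(w * y))) (fun y : ℝ => cexp (c * y) * cexp (-(w * y)) -
      cexp (-(1 / 2) * y) * cexp (-(w * y))) (Ioi 0) := by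
    intro y hy
    have hy : (0 : ℝ) < y := hy
    simp only
    rw [bl_pos c hy.le, sub_mul]
  constructor
  · apply h1
    rw [integrableOn_congr_fun e measurableSet_Ioi]
    exact i1.sub i2
  · rw [h2, setIntegral_congr_fun measurableSet_Ioi e, integral_sub i1 i2, v1, v2, sub_neg_eq_add]

/-- the absolute integral of a block -/
lemma bl_abs {c : ℂ} (hc : c.re ≤ 1 / 2) {w : ℂ} (hw : w.re = 1) :
    ∫ y : ℝ, ‖bl c y * cexp (-(w * y))‖ ≤ 4 := by
  have hn : ∀ y : ℝ, ‖bl c y * cexp (-(w * y))‖ ≤ (Ioi (0 : ℝ)).indicator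
      (fun y => 2 * Real.exp ((-(1 / 2)) * y)) y := by
    intro y
    by_cases hy : y ∈ Ioi (0 : ℝ)
    · rw [Set.indicator_of_mem hy]
      have hy : (0 : ℝ) < y := hy
      rw [bl_pos c hy.le, norm_mul]
      have h1 : ‖cexp (-(w * y))‖ = Real.exp (-y) := by
        rw [Complex.norm_exp]
        simp [hw]
      have h2 : ‖cexp (c * y)‖ ≤ Real.exp (y / 2) := by
        rw [Complex.norm_exp]
        refine Real.exp_le_exp.2 ?_
        simp
        nlinarith
      have h3 : ‖cexp (-(1 / 2) * y)‖ ≤ Real.exp (y / 2) := by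
        rw [Complex.norm_exp]
        refine Real.exp_le_exp.2 ?_
        simp
        nlinarith
      have h4 := norm_sub_le (cexp (c * y)) (cexp (-(1 / 2) * y))
      rw [h1]
      calc ‖cexp (c * y) - cexp (-(1 / 2) * y)‖ * Real.exp (-y) ≤ (2 * Real.exp (y / 2)) * Real.exp (-y) :=
            mul_le_mul_of_nonneg_right (by linarith) (Real.exp_pos _).le
        _ = 2 * Real.exp ((-(1 / 2)) * y) := by
            rw [mul_assoc, ← Real.exp_add]
            ring_nf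
    · rw [Set.indicator_of_notMem hy]
      have hy : y ≤ 0 := not_lt.1 hy
      rw [bl_neg c hy, zero_mul, norm_zero]
  have hi : Integrable ((Ioi (0 : ℝ)).indicator (fun y => 2 * Real.exp ((-(1 / 2)) * y))) :=
    (integrable_indicator_iff measurableSet_Ioi).2
      ((integrableOn_exp_mul_Ioi (by norm_num : (-(1 / 2) : ℝ) < 0) 0).const_mul 2)
  have h1 := (bl_lap (c := c) (w := w) (by rw [hw]; linarith) (by rw [hw]; norm_num)).1
  refine (integral_mono h1.norm hi hn).trans ?_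
  rw [integral_indicator measurableSet_Ioi, integral_const_mul,
    integral_exp_mul_Ioi (by norm_num : (-(1 / 2) : ℝ) < 0) 0]
  norm_num

/-- the block with a double pole -/
noncomputable def bd (y : ℝ) : ℂ := (max y 0 : ℝ) * cexp (1 / 2 * (max y 0 : ℝ)) - bl (1 / 2) y

lemma bd_cont : Continuous bd := by
  unfold bd
  exact (by fun_prop : Continuous fun y : ℝ => ((max y 0 : ℝ) : ℂ) * cexp (1 / 2 * (max y 0 : ℝ))).sub
    (bl_cont _)

lemma yexp {c : ℂ} (hc : c.re < 0) : IntegrableOn (fun y : ℝ => (y : ℂ) * cexp (c * y)) (Ioi 0) ∧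
    ∫ y in Ioi (0 : ℝ), (y : ℂ) * cexp (c * y) = 1 / c ^ 2 := by
  have hc0 : c ≠ 0 := fun h => by rw [h, zero_re] at hc; exact lt_irrefl _ hc
  have hb : ∀ y : ℝ, 0 ≤ y → y * Real.exp (c.re * y) ≤ 2 / (-c.re) * Real.exp (c.re / 2 * y) := by
    intro y hy
    have h1 := Real.add_one_le_exp (-c.re / 2 * y)
    have h2 : y ≤ 2 / (-c.re) * Real.exp (-c.re / 2 * y) := by
      rw [div_mul_eq_mul_div, le_div_iff₀ (by linarith)]
      nlinarith
    calc y * Real.exp (c.re * y) ≤ (2 / (-c.re) * Real.exp (-c.re / 2 * y)) * Real.exp (c.re * y) :=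
          mul_le_mul_of_nonneg_right h2 (Real.exp_pos _).le
      _ = 2 / (-c.re) * Real.exp (c.re / 2 * y) := by
          rw [mul_assoc, ← Real.exp_add]
          ring_nf
  have hint : IntegrableOn (fun y : ℝ => (y : ℂ) * cexp (c * y)) (Ioi 0) := by
    refine Integrable.mono' ((integrableOn_exp_mul_Ioi (by linarith : c.re / 2 < 0) 0).const_mul (2 / (-c.re)))
      (by fun_prop : Continuous fun y : ℝ => (y : ℂ) * cexp (c * y)).aestronglyMeasurable
      ((ae_restrict_iff' measurableSet_Ioi).2 (Eventually.of_forall fun y hy => ?_))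
    have hy : (0 : ℝ) < y := hy
    rw [norm_mul, Complex.norm_real, Real.norm_of_nonneg hy.le, Complex.norm_exp]
    have : (c * y).re = c.re * y := by simp
    rw [this]
    exact hb y hy.le
  refine ⟨hint, ?_⟩
  have hd : ∀ y ∈ Ioi (0 : ℝ), HasDerivAt (fun y : ℝ => ((y : ℂ) / c - 1 / c ^ 2) * cexp (c * y))
      ((y : ℂ) * cexp (c * y)) y := by
    intro y _
    have h1 : HasDerivAt (fun y : ℝ => ((y : ℂ) / c - 1 / c ^ 2)) (1 / c) y :=
      ((hasDerivAt_id y).ofReal_comp.div_const c).sub_const _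
    have h2 : HasDerivAt (fun y : ℝ => cexp (c * y)) (cexp (c * y) * (c * 1)) y :=
      ((hasDerivAt_id y).ofReal_comp.const_mul c).cexp
    refine (h1.mul h2).congr_deriv ?_
    field_simp
    ring
  have hlim : Tendsto (fun y : ℝ => ((y : ℂ) / c - 1 / c ^ 2) * cexp (c * y)) atTop (𝓝 0) := by
    have h1 : Tendsto (fun y : ℝ => (2 / (-c.re) / ‖c‖) * Real.exp (c.re / 2 * y) + ‖1 / c ^ 2‖ *
        Real.exp (c.re * y)) atTop (𝓝 ((2 / (-c.re) / ‖c‖) * 0 + ‖1 / c ^ 2‖ * 0)) := by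
      have k1 : Tendsto (fun y : ℝ => Real.exp (c.re / 2 * y)) atTop (𝓝 0) :=
        Real.tendsto_exp_atBot.comp (tendsto_id.const_mul_atTop_of_neg (by linarith))
      have k2 : Tendsto (fun y : ℝ => Real.exp (c.re * y)) atTop (𝓝 0) :=
        Real.tendsto_exp_atBot.comp (tendsto_id.const_mul_atTop_of_neg hc)
      exact (k1.const_mul _).add (k2.const_mul _)
    rw [mul_zero, mul_zero, add_zero] at h1
    refine squeeze_zero_norm' ?_ h1
    filter_upwards [eventually_ge_atTop (0 : ℝ)] with y hy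
    rw [norm_mul, Complex.norm_exp]
    have e : (c * y).re = c.re * y := by simp
    rw [e]
    have h2 := norm_sub_le ((y : ℂ) / c) (1 / c ^ 2)
    rw [norm_div (y : ℂ) c, Complex.norm_real, Real.norm_of_nonneg hy] at h2
    have h3 := mul_le_mul_of_nonneg_right h2 (Real.exp_pos (c.re * y)).le
    refine h3.trans ?_
    rw [add_mul]
    refine add_le_add ?_ le_rfl
    have h4 := div_le_div_of_nonneg_right (hb y hy) (norm_nonneg c)
    calc y / ‖c‖ * Real.exp (c.re * y) = y * Real.exp (c.re * y) / ‖c‖ := by ring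
      _ ≤ _ := h4
      _ = _ := by ring
  have h1 := integral_Ioi_of_hasDerivAt_of_tendsto (f := fun y : ℝ => ((y : ℂ) / c - 1 / c ^ 2) * cexp (c * y))
    (by
      have : Continuous fun y : ℝ => ((y : ℂ) / c - 1 / c ^ 2) * cexp (c * y) := by fun_prop
      exact this.continuousWithinAt) hd hint hlim
  rw [h1]
  simp

lemma bd_lap {w : ℂ} (hw : 1 / 2 < w.re) : Integrable (fun y : ℝ => bd y * cexp (-(w * y))) ∧
      ∫ y : ℝ, bd y * cexp (-(w * y)) = 1 / ((w - 1 / 2) ^ 2 * (w + 1 / 2)) := by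
  have hh : (1 / 2 : ℂ).re = 1 / 2 := by norm_num
  obtain ⟨i1, v1⟩ := bl_lap (c := 1 / 2) (w := w) (by rw [hh]; exact hw) (by linarith)
  obtain ⟨i2, v2⟩ := yexp (c := 1 / 2 - w) (by rw [sub_re, hh]; linarith)
  obtain ⟨h1, h2⟩ := full_half (f := fun y : ℝ => ((max y 0 : ℝ) : ℂ) * cexp (1 / 2 * (max y 0 : ℝ)) *
      cexp (-(w * y))) (fun y hy => by rw [max_eq_right hy]; simp)
  have e : EqOn (fun y : ℝ => ((max y 0 : ℝ) : ℂ) * cexp (1 / 2 * (max y 0 : ℝ)) *
      cexp (-(w * y))) (fun y : ℝ => (y : ℂ) * cexp ((1 / 2 - w) * y)) (Ioi 0) := by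
    intro y hy
    have hy : (0 : ℝ) < y := hy
    simp only
    rw [max_eq_left hy.le, mul_assoc, ← Complex.exp_add]
    ring_nf
  have i3 : Integrable (fun y : ℝ => ((max y 0 : ℝ) : ℂ) * cexp (1 / 2 * (max y 0 : ℝ)) *
      cexp (-(w * y))) := h1 (by rw [integrableOn_congr_fun e measurableSet_Ioi]; exact i2)
  have e2 : ∀ y : ℝ, bd y * cexp (-(w * y)) = ((max y 0 : ℝ) : ℂ) * cexp (1 / 2 * (max y 0 : ℝ)) *
      cexp (-(w * y)) - bl (1 / 2) y * cexp (-(w * y)) := by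
    intro y
    unfold bd
    rw [sub_mul]
  simp_rw [e2]
  refine ⟨i3.sub i1, ?_⟩
  rw [integral_sub i3 i1, v1, h2, setIntegral_congr_fun measurableSet_Ioi e, v2]
  have n1 : w - 1 / 2 ≠ 0 := by
    intro h
    have := congrArg Complex.re h
    rw [sub_re, hh, zero_re] at this
    linarith
  have n2 : w + 1 / 2 ≠ 0 := by
    intro h
    have := congrArg Complex.re h
    rw [add_re, hh, zero_re] at this
    linarith
  have n3 : (1 / 2 - w) ^ 2 = (w - 1 / 2) ^ 2 := by ring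
  rw [n3]
  obtain ⟨u, hu⟩ : ∃ u : ℂ, u = w - 1 / 2 := ⟨_, rfl⟩
  have hv : w + 1 / 2 = u + 1 := by rw [hu]; ring
  rw [hv] at n2 ⊢
  rw [← hu] at n1 ⊢
  field_simp
  ring

/-- integrability of a sum -/
lemma int_tsum {ι : Type*} [Countable ι] {F : ι → ℝ → ℂ} (hF : ∀ i, Integrable (F i))
    (hs : Summable fun i => ∫ y, ‖F i y‖) {f : ℝ → ℂ} (hf : AEStronglyMeasurable f volume)
    (hb : ∀ y, f y = ∑' i, F i y) : Integrable f := by
  refine ⟨hf, ?_⟩
  have h1 : ∫⁻ y, ‖f y‖ₑ ≤ ∑' i, ∫⁻ y, ‖F i y‖ₑ := by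
    rw [← lintegral_tsum fun i => (hF i).1.enorm]
    refine lintegral_mono fun y => ?_
    rw [hb y]
    exact enorm_tsum_le_tsum_enorm
  refine h1.trans_lt ?_
  have h2 : ∀ i, ∫⁻ y, ‖F i y‖ₑ = ENNReal.ofReal (∫ y, ‖F i y‖) := fun i => by
    rw [← ofReal_integral_norm_eq_lintegral_enorm (hF i)]
  simp_rw [h2]
  rw [← ENNReal.ofReal_tsum_of_nonneg (fun i => integral_nonneg fun y => norm_nonneg _) hs]
  exact ENNReal.ofReal_lt_top

/-! ### the data -/

/-- a completed `L`-function `Y` (with the origin at the central point), `B` its factors at infinity,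
`κ₀` the order of the pole and `a` the coefficients of `-L'/L` -/
structure LDat (Y B : ℂ → ℂ) (κ₀ : ℂ) (a : ℕ → ℂ) : Prop where
  diff : Differentiable ℂ Y
  pf : ∀ z w : ℂ, Y z ≠ 0 → Y w ≠ 0 → HasSum (fun b : {b : ℂ // Y b = 0} =>
    (analyticOrderNatAt Y (b : ℂ) : ℂ) * (1 / (z - b) - 1 / (w - b))) (logDeriv Y z - logDeriv Y w)
  sm : Summable fun b : {b : ℂ // Y b = 0} => (analyticOrderNatAt Y (b : ℂ) : ℝ) * (1 / (1 + ‖(b : ℂ)‖) ^ 2)
  strip : ∀ z, Y z = 0 → |z.re| ≤ 1 / 2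
  nr : ∀ z : ℂ, 1 / 2 ≤ z.re → Y z ≠ 0
  nl : Y (-(1 / 2)) ≠ 0
  Ban : DifferentiableOn ℂ B {z | -(1 / 2) < z.re}
  Bbd : ∃ C : ℝ, 0 < C ∧ ∀ z : ℂ, 0 ≤ z.re → ‖B z‖ ≤ C * Real.log (2 + ‖z‖)
  a0 : a 0 = 0
  as : Summable fun n : ℕ => ‖a n‖ * (n : ℝ) ^ (-(3 / 2) : ℝ)
  eq : ∀ w : ℂ, w.re = 1 → logDeriv Y w = κ₀ / (w - 1 / 2) + B w - ∑' n : ℕ, a n * (n : ℂ) ^ (-(1 / 2 + w))

section
variable {Y B : ℂ → ℂ} {κ₀ : ℂ} {a : ℕ → ℂ}

/-- the order of a zero -/
noncomputable def od (Y : ℂ → ℂ) (b : ℂ) : ℝ := (analyticOrderNatAt Y b : ℝ)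

/-- the coefficient of a zero -/
noncomputable def az (Y : ℂ → ℂ) (b : ℂ) : ℂ := (od Y b : ℂ) * (1 / (1 / 4 - b ^ 2))

lemma od_pos (H : LDat Y B κ₀ a) (b : {b : ℂ // Y b = 0}) : 1 ≤ od Y b := by
  have h2 : analyticOrderAt Y b ≠ 0 := by
    rw [(H.diff.analyticAt b).analyticOrderAt_ne_zero]
    exact b.2
  have h3 : analyticOrderAt Y b ≠ ⊤ := by
    intro h
    rw [analyticOrderAt_eq_top] at h
    have han : AnalyticOnNhd ℂ Y Set.univ := fun z _ => H.diff.analyticAt z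
    exact H.nl (han.eqOn_zero_of_preconnected_of_eventuallyEq_zero isPreconnected_univ
      (Set.mem_univ _) h (Set.mem_univ _))
  have h4 : analyticOrderNatAt Y b ≠ 0 := by
    intro h
    unfold analyticOrderNatAt at h
    rcases (ENat.toNat_eq_zero).1 h with h | h
    · exact h2 h
    · exact h3 h
  unfold od
  exact_mod_cast Nat.one_le_iff_ne_zero.2 h4

lemma zfin (H : LDat Y B κ₀ a) (R : ℝ) : {b : {b : ℂ // Y b = 0} | ‖(b : ℂ)‖ ≤ R}.Finite := by
  obtain ⟨R', hR', hR0⟩ : ∃ R' : ℝ, R ≤ R' ∧ 0 ≤ R' := ⟨max R 0, le_max_left _ _, le_max_right _ _⟩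
  have h1 := H.sm.tendsto_cofinite_zero
  have h2 := h1.eventually (gt_mem_nhds (show (0 : ℝ) < 1 / (1 + R') ^ 2 by positivity))
  rw [eventually_cofinite] at h2
  refine h2.subset fun b hb => ?_
  have hb : ‖(b : ℂ)‖ ≤ R := hb
  show ¬ (_ < _)
  rw [not_lt]
  have h3 := od_pos H b
  unfold od at h3
  calc 1 / (1 + R') ^ 2 ≤ 1 / (1 + ‖(b : ℂ)‖) ^ 2 := by
        apply one_div_le_one_div_of_le (by positivity)
        gcongr
        linarith
    _ ≤ _ := le_mul_of_one_le_left (by positivity) h3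

lemma ne_quarter (H : LDat Y B κ₀ a) (b : {b : ℂ // Y b = 0}) : (1 / 4 - (b : ℂ) ^ 2) ≠ 0 ∧
    (1 / 2 - (b : ℂ)) ≠ 0 ∧ (1 / 2 + (b : ℂ)) ≠ 0 := by
  have h1 : (1 / 2 - (b : ℂ)) ≠ 0 := by
    intro h
    refine H.nr (1 / 2) (by norm_num) ?_
    rw [sub_eq_zero.1 h]
    exact b.2
  have h2 : (1 / 2 + (b : ℂ)) ≠ 0 := by
    intro h
    refine H.nl ?_
    rw [show (-(1 / 2) : ℂ) = b by linear_combination -h]
    exact b.2
  refine ⟨?_, h1, h2⟩
  have : (1 / 4 - (b : ℂ) ^ 2) = (1 / 2 - (b : ℂ)) * (1 / 2 + (b : ℂ)) := by ring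
  rw [this]
  exact mul_ne_zero h1 h2

lemma az_sum (H : LDat Y B κ₀ a) : Summable fun b : {b : ℂ // Y b = 0} => ‖az Y b‖ := by
  refine Summable.of_norm_bounded_eventually (g := fun b : {b : ℂ // Y b = 0} =>
    16 / 3 * ((analyticOrderNatAt Y (b : ℂ) : ℝ) * (1 / (1 + ‖(b : ℂ)‖) ^ 2))) (H.sm.mul_left _) ?_
  rw [eventually_cofinite]
  refine (zfin H 1).subset fun b hb => ?_
  show ‖(b : ℂ)‖ ≤ 1
  by_contra hcon
  push Not at hcon
  apply hb
  rw [norm_norm]
  unfold az od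
  rw [norm_mul, Complex.norm_real, Real.norm_of_nonneg (Nat.cast_nonneg _), norm_div, norm_one]
  have h1 : 3 / 16 * (1 + ‖(b : ℂ)‖) ^ 2 ≤ ‖(1 / 4 - (b : ℂ) ^ 2)‖ := by
    have h2 := norm_sub_norm_le ((b : ℂ) ^ 2) (1 / 4)
    rw [norm_sub_rev, norm_pow] at h2
    have h3 : ‖(1 / 4 : ℂ)‖ = 1 / 4 := by norm_num
    rw [h3] at h2
    nlinarith
  calc (analyticOrderNatAt Y (b : ℂ) : ℝ) * (1 / ‖(1 / 4 - (b : ℂ) ^ 2)‖)
      ≤ (analyticOrderNatAt Y (b : ℂ) : ℝ) * (1 / (3 / 16 * (1 + ‖(b : ℂ)‖) ^ 2)) := by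
        gcongr
    _ = _ := by
        field_simp

/-- the sum over the coefficients -/
noncomputable def D0 (a : ℕ → ℂ) (y : ℝ) : ℂ :=
  ∑' n : ℕ, a n * (n : ℂ) ^ (-(1 / 2) : ℂ) * bl (1 / 2) (y - Real.log n)

/-- the sum over the zeros -/
noncomputable def ZS (Y : ℂ → ℂ) (y : ℝ) : ℂ := ∑' b : {b : ℂ // Y b = 0}, az Y b * bl b y

lemma D0_fin {y : ℝ} {N : ℕ} (hN : y ≤ Real.log N) (hN0 : 0 < N) :
    D0 a y = ∑ n ∈ Finset.range N, a n * (n : ℂ) ^ (-(1 / 2) : ℂ) * bl (1 / 2) (y - Real.log n) := by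
  unfold D0
  refine tsum_eq_sum fun n hn => ?_
  rw [Finset.mem_range, not_lt] at hn
  have h1 : Real.log N ≤ Real.log n := Real.log_le_log (by exact_mod_cast hN0) (by exact_mod_cast hn)
  rw [bl_neg _ (by linarith), mul_zero]

/-- the sum over the coefficients is a finite sum -/
lemma D0_eq (h0 : a 0 = 0) (y : ℝ) : D0 a y = ∑ n ∈ Finset.Icc 1 ⌊Real.exp y⌋₊,
    a n * (cexp (1 / 2 * y) / n - cexp (-(1 / 2) * y)) := by
  unfold D0
  rw [tsum_eq_sum (s := Finset.Icc 1 ⌊Real.exp y⌋₊)]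
  · refine Finset.sum_congr rfl fun n hn => ?_
    rw [Finset.mem_Icc] at hn
    have hn0 : (0 : ℝ) < n := by exact_mod_cast hn.1
    have hnc : (n : ℂ) ≠ 0 := by exact_mod_cast hn0.ne'
    have h1 : (n : ℝ) ≤ Real.exp y := (Nat.le_floor_iff (Real.exp_pos y).le).1 hn.2
    have h2 : Real.log n ≤ y := (Real.log_le_iff_le_exp hn0).2 h1
    rw [bl_pos _ (by linarith), mul_assoc]
    congr 1
    have e1 : (n : ℂ) ^ (-(1 / 2) : ℂ) = cexp (-(1 / 2) * Real.log n) := by
      rw [Complex.cpow_def_of_ne_zero hnc, ← Complex.natCast_log]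
      ring_nf
    have e2 : (n : ℂ) = cexp (Real.log n) := by
      rw [← Complex.ofReal_exp, Real.exp_log hn0]
      simp
    rw [e1, mul_sub, ← Complex.exp_add, ← Complex.exp_add]
    congr 1
    · conv_rhs => rw [e2, ← Complex.exp_sub]
      congr 1
      push_cast
      ring
    · congr 1
      push_cast
      ring
  · intro n hn
    rw [Finset.mem_Icc, not_and_or, not_le, not_le] at hn
    rcases hn with hn | hn
    · have : n = 0 := by omega
      rw [this, h0, zero_mul, zero_mul]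
    · have h1 : Real.exp y < n := (Nat.floor_lt (Real.exp_pos y).le).1 hn
      have hn0 : (0 : ℝ) < n := (Real.exp_pos y).trans h1
      have h2 : y < Real.log n := (Real.lt_log_iff_exp_lt hn0).2 h1
      rw [bl_neg _ (by linarith), mul_zero]

lemma D0_cont : Continuous (D0 a) := by
  rw [continuous_iff_continuousAt]
  intro y
  obtain ⟨N, hN⟩ := exists_nat_ge (Real.exp (y + 1))
  have hN0 : (0 : ℝ) < N := (Real.exp_pos _).trans_le hN
  have h1 : y + 1 ≤ Real.log N := by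
    rw [Real.le_log_iff_exp_le hN0]
    exact hN
  have h2 : Continuous fun y : ℝ => ∑ n ∈ Finset.range N, a n * (n : ℂ) ^ (-(1 / 2) : ℂ) *
      bl (1 / 2) (y - Real.log n) := by
    refine continuous_finsetSum _ fun n _ => continuous_const.mul ((bl_cont _).comp (by fun_prop))
  refine h2.continuousAt.congr ?_
  filter_upwards [Iio_mem_nhds (show y < y + 1 by linarith)] with u hu
  have hu : u < y + 1 := hu
  exact (D0_fin (by linarith) (by exact_mod_cast hN0)).symm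

lemma bl_le {c : ℂ} (hc : |c.re| ≤ 1 / 2) (y : ℝ) : ‖bl c y‖ ≤ 2 * Real.exp |y| := by
  unfold bl
  have h0 : max y 0 ≤ |y| := max_le (le_abs_self _) (abs_nonneg _)
  have h0' : 0 ≤ max y 0 := le_max_right _ _
  refine (norm_sub_le _ _).trans ?_
  have h1 : ‖cexp (c * (max y 0 : ℝ))‖ ≤ Real.exp |y| := by
    rw [Complex.norm_exp]
    refine Real.exp_le_exp.2 ?_
    rw [Complex.re_mul_ofReal]
    have := (abs_le.1 hc).2
    nlinarith
  have h2 : ‖cexp (-(1 / 2) * (max y 0 : ℝ))‖ ≤ Real.exp |y| := by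
    rw [Complex.norm_exp]
    refine Real.exp_le_exp.2 ?_
    rw [Complex.re_mul_ofReal]
    have : (-(1 / 2) : ℂ).re = -(1 / 2) := by norm_num
    rw [this]
    nlinarith
  linarith

lemma ZS_cont (H : LDat Y B κ₀ a) : Continuous (ZS Y) := by
  rw [continuous_iff_continuousAt]
  intro y
  have h1 : ContinuousOn (ZS Y) (Icc (y - 1) (y + 1)) := by
    refine continuousOn_tsum (u := fun b : {b : ℂ // Y b = 0} => ‖az Y b‖ * (2 * Real.exp (|y| + 1)))
      (fun b => (continuous_const.mul (bl_cont _)).continuousOn) ((az_sum H).mul_right _) fun b x hx => ?_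
    rw [norm_mul]
    refine mul_le_mul_of_nonneg_left ((bl_le (H.strip b b.2) x).trans ?_) (norm_nonneg _)
    have h2 : |x - y| ≤ 1 := abs_le.2 ⟨by linarith [hx.1], by linarith [hx.2]⟩
    have h3 := abs_sub_abs_le_abs_sub x y
    gcongr
    linarith
  exact h1.continuousAt (Icc_mem_nhds (by linarith) (by linarith))

/-- the transform of the sum over the coefficients -/
lemma D0_lap (H : LDat Y B κ₀ a) {w : ℂ} (hw : w.re = 1) : Integrable (fun y : ℝ => D0 a y * cexp (-(w * y))) ∧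
      ∫ y : ℝ, D0 a y * cexp (-(w * y)) = (1 / (w - 1 / 2) - 1 / (w + 1 / 2)) *
        ∑' n : ℕ, a n * (n : ℂ) ^ (-(1 / 2 + w)) := by
  have hh : (1 / 2 : ℂ).re = 1 / 2 := by norm_num
  obtain ⟨i1, v1⟩ := bl_lap (c := 1 / 2) (w := w) (by rw [hh, hw]; norm_num) (by rw [hw]; norm_num)
  -- the terms
  have hterm : ∀ n : ℕ, Integrable (fun y : ℝ => a n * (n : ℂ) ^ (-(1 / 2) : ℂ) *
      bl (1 / 2) (y - Real.log n) * cexp (-(w * y))) ∧
      (∫ y : ℝ, a n * (n : ℂ) ^ (-(1 / 2) : ℂ) * bl (1 / 2) (y - Real.log n) * cexp (-(w * y)) =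
        (1 / (w - 1 / 2) - 1 / (w + 1 / 2)) * (a n * (n : ℂ) ^ (-(1 / 2 + w)))) ∧
      ∫ y : ℝ, ‖a n * (n : ℂ) ^ (-(1 / 2) : ℂ) * bl (1 / 2) (y - Real.log n) * cexp (-(w * y))‖ ≤
        4 * (‖a n‖ * (n : ℝ) ^ (-(3 / 2) : ℝ)) := by
    intro n
    rcases Nat.eq_zero_or_pos n with h0 | h0
    · rw [h0, H.a0]
      simp
    have hn : (0 : ℝ) < n := by exact_mod_cast h0
    have hnc : (n : ℂ) ≠ 0 := by exact_mod_cast h0.ne'
    have e1 : ∀ y : ℝ, a n * (n : ℂ) ^ (-(1 / 2) : ℂ) * bl (1 / 2) (y - Real.log n) * cexp (-(w * y)) =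
        (a n * (n : ℂ) ^ (-(1 / 2 + w))) * (fun u : ℝ => bl (1 / 2) u * cexp (-(w * u))) (y - Real.log n) := by
      intro y
      have e2 : (n : ℂ) ^ (-(1 / 2 + w)) = (n : ℂ) ^ (-(1 / 2) : ℂ) * cexp (-(w * Real.log n)) := by
        rw [neg_add, Complex.cpow_add _ _ hnc]
        congr 1
        rw [Complex.cpow_def_of_ne_zero hnc, ← Complex.natCast_log]
        ring_nf
      have e3 : cexp (-(w * y)) = cexp (-(w * Real.log n)) * cexp (-(w * ((y - Real.log n : ℝ) : ℂ))) := by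
        rw [← Complex.exp_add]
        congr 1
        push_cast
        ring
      rw [e2, e3]
      simp only
      ring
    simp_rw [e1]
    refine ⟨(i1.comp_sub_right (Real.log n)).const_mul _, ?_, ?_⟩
    · rw [integral_const_mul, integral_sub_right_eq_self (fun u : ℝ => bl (1 / 2) u * cexp (-(w * u))), v1]
      ring
    · simp_rw [norm_mul (a n * (n : ℂ) ^ (-(1 / 2 + w)))]
      rw [integral_const_mul, integral_sub_right_eq_self (fun u : ℝ => ‖bl (1 / 2) u * cexp (-(w * u))‖)]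
      have h1 := bl_abs (c := 1 / 2) (by rw [hh]) hw
      have h2 : ‖a n * (n : ℂ) ^ (-(1 / 2 + w))‖ = ‖a n‖ * (n : ℝ) ^ (-(3 / 2) : ℝ) := by
        rw [norm_mul, Complex.norm_natCast_cpow_of_pos h0]
        congr 2
        rw [neg_re, add_re, hh, hw]
        norm_num
      rw [h2]
      have h3 : 0 ≤ ‖a n‖ * (n : ℝ) ^ (-(3 / 2) : ℝ) := by positivity
      nlinarith
  have hs : Summable fun n : ℕ => ∫ y : ℝ, ‖a n * (n : ℂ) ^ (-(1 / 2) : ℂ) * bl (1 / 2) (y - Real.log n) *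
      cexp (-(w * y))‖ :=
    Summable.of_nonneg_of_le (fun n => integral_nonneg fun y => norm_nonneg _) (fun n => (hterm n).2.2)
      (H.as.mul_left 4)
  have hE : ∀ y : ℝ, D0 a y * cexp (-(w * y)) = ∑' n : ℕ, a n * (n : ℂ) ^ (-(1 / 2) : ℂ) *
      bl (1 / 2) (y - Real.log n) * cexp (-(w * y)) := fun y => by
    unfold D0
    rw [tsum_mul_right]
  constructor
  · exact int_tsum (fun n => (hterm n).1) hs
      (D0_cont.mul (by fun_prop : Continuous fun y : ℝ => cexp (-(w * y)))).aestronglyMeasurable hE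
  · simp_rw [hE]
    rw [← (hasSum_integral_of_summable_integral_norm (fun n => (hterm n).1) hs).tsum_eq, ← tsum_mul_left]
    exact tsum_congr fun n => (hterm n).2.1

/-- the zeros are countable -/
lemma zcount (H : LDat Y B κ₀ a) : Countable {b : ℂ // Y b = 0} := by
  have h1 := H.sm.countable_support
  have h2 : Function.support (fun b : {b : ℂ // Y b = 0} =>
      (analyticOrderNatAt Y (b : ℂ) : ℝ) * (1 / (1 + ‖(b : ℂ)‖) ^ 2)) = Set.univ := by
    ext b
    simp only [Function.mem_support, Set.mem_univ, iff_true]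
    have := od_pos H b
    unfold od at this
    have h3 : (0 : ℝ) < 1 / (1 + ‖(b : ℂ)‖) ^ 2 := by positivity
    exact (mul_pos (by linarith) h3).ne'
  rw [h2] at h1
  exact Set.countable_univ_iff.1 h1

/-- the transform of the sum over the zeros -/
lemma ZS_lap (H : LDat Y B κ₀ a) {w : ℂ} (hw : w.re = 1) : Integrable (fun y : ℝ => ZS Y y * cexp (-(w * y))) ∧
      ∫ y : ℝ, ZS Y y * cexp (-(w * y)) =
        -((1 / (w - 1 / 2) - 1 / (w + 1 / 2)) * (logDeriv Y w - logDeriv Y (1 / 2))) := by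
  have hh : (1 / 2 : ℂ).re = 1 / 2 := by norm_num
  have hst : ∀ b : {b : ℂ // Y b = 0}, (b : ℂ).re ≤ 1 / 2 := fun b => (abs_le.1 (H.strip b b.2)).2
  have hE : ∀ y : ℝ, ZS Y y * cexp (-(w * y)) = ∑' b : {b : ℂ // Y b = 0}, az Y b * bl b y * cexp (-(w * y)) :=
    fun y => by
    unfold ZS
    rw [tsum_mul_right]
  have hl : ∀ b : {b : ℂ // Y b = 0}, Integrable (fun y : ℝ => az Y b * bl b y * cexp (-(w * y))) ∧
      (∫ y : ℝ, az Y b * bl b y * cexp (-(w * y)) = az Y b * (1 / (w - b) - 1 / (w + 1 / 2))) ∧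
      ∫ y : ℝ, ‖az Y b * bl b y * cexp (-(w * y))‖ ≤ 4 * ‖az Y b‖ := by
    intro b
    have h1 := hst b
    obtain ⟨i1, v1⟩ := bl_lap (c := (b : ℂ)) (w := w) (by rw [hw]; linarith) (by rw [hw]; norm_num)
    simp_rw [mul_assoc (az Y b)]
    refine ⟨i1.const_mul _, by rw [integral_const_mul, v1], ?_⟩
    simp_rw [norm_mul (az Y b)]
    rw [integral_const_mul]
    have := bl_abs h1 hw
    nlinarith [norm_nonneg (az Y b)]
  have := zcount H
  have hs : Summable fun b : {b : ℂ // Y b = 0} => ∫ y : ℝ, ‖az Y b * bl b y * cexp (-(w * y))‖ :=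
    Summable.of_nonneg_of_le (fun n => integral_nonneg fun y => norm_nonneg _) (fun n => (hl n).2.2)
      ((az_sum H).mul_left 4)
  constructor
  · exact int_tsum (fun n => (hl n).1) hs
      ((ZS_cont H).mul (by fun_prop : Continuous fun y : ℝ => cexp (-(w * y)))).aestronglyMeasurable hE
  · simp_rw [hE]
    rw [← (hasSum_integral_of_summable_integral_norm (fun n => (hl n).1) hs).tsum_eq]
    have n1 : w - 1 / 2 ≠ 0 := by
      intro h
      have := congrArg Complex.re h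
      rw [sub_re, hh, zero_re, hw] at this
      norm_num at this
    have n2 : w + 1 / 2 ≠ 0 := by
      intro h
      have := congrArg Complex.re h
      rw [add_re, hh, zero_re, hw] at this
      norm_num at this
    have h1 := ((H.pf w (1 / 2) (H.nr w (by rw [hw]; norm_num)) (H.nr _ (by rw [hh]))).mul_left
      (-(1 / (w - 1 / 2) - 1 / (w + 1 / 2)))).tsum_eq
    rw [neg_mul] at h1
    rw [← h1]
    refine tsum_congr fun b => ?_
    rw [(hl b).2.1]
    obtain ⟨m1, m2, m3⟩ := ne_quarter H b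
    have m4 : w - b ≠ 0 := by
      intro h
      have h2 := congrArg Complex.re h
      rw [sub_re, zero_re, hw] at h2
      linarith [hst b]
    unfold az od
    push_cast
    generalize (analyticOrderNatAt Y (b : ℂ) : ℂ) = m
    generalize (b : ℂ) = b at *
    have e : (1 / 4 - b ^ 2) = (1 / 2 - b) * (1 / 2 + b) := by ring
    rw [e]
    obtain ⟨u, hu⟩ : ∃ u : ℂ, u = w - 1 / 2 := ⟨_, rfl⟩
    obtain ⟨v, hv⟩ : ∃ v : ℂ, v = 1 / 2 - b := ⟨_, rfl⟩
    have q1 : w + 1 / 2 = u + 1 := by rw [hu]; ring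
    have q2 : 1 / 2 + b = 1 - v := by rw [hv]; ring
    have q3 : w - b = u + v := by rw [hu, hv]; ring
    rw [q1] at n2 ⊢
    rw [q2] at m3 ⊢
    rw [q3] at m4 ⊢
    rw [← hu] at n1 ⊢
    rw [← hv] at m2 ⊢
    field_simp
    ring

/-- the remainder -/
noncomputable def QQ (Y B : ℂ → ℂ) (κ₀ : ℂ) (a : ℕ → ℂ) (y : ℝ) : ℂ :=
  D0 a y - κ₀ * bd y + (logDeriv Y (1 / 2) - B (1 / 2)) * bl (1 / 2) y - ZS Y y

/-- its transform -/
noncomputable def RR (B : ℂ → ℂ) (w : ℂ) : ℂ := dslope B (1 / 2) w / (w + 1 / 2)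

lemma QQ_cont (H : LDat Y B κ₀ a) : Continuous (QQ Y B κ₀ a) := by
  unfold QQ
  exact ((D0_cont.sub (continuous_const.mul bd_cont)).add (continuous_const.mul (bl_cont _))).sub (ZS_cont H)

lemma QQ_lap (H : LDat Y B κ₀ a) {w : ℂ} (hw : w.re = 1) :
    Integrable (fun y : ℝ => QQ Y B κ₀ a y * cexp (-(w * y))) ∧
      ∫ y : ℝ, QQ Y B κ₀ a y * cexp (-(w * y)) = RR B w := by
  have hh : (1 / 2 : ℂ).re = 1 / 2 := by norm_num
  obtain ⟨i1, v1⟩ := D0_lap H hw
  obtain ⟨i2, v2⟩ := bd_lap (w := w) (by rw [hw]; norm_num)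
  obtain ⟨i3, v3⟩ := bl_lap (c := 1 / 2) (w := w) (by rw [hh, hw]; norm_num) (by rw [hw]; norm_num)
  obtain ⟨i4, v4⟩ := ZS_lap H hw
  have e : ∀ y : ℝ, QQ Y B κ₀ a y * cexp (-(w * y)) = D0 a y * cexp (-(w * y)) - κ₀ * (bd y * cexp (-(w * y))) +
      (logDeriv Y (1 / 2) - B (1 / 2)) * (bl (1 / 2) y * cexp (-(w * y))) - ZS Y y * cexp (-(w * y)) := by
    intro y
    unfold QQ
    ring
  simp_rw [e]
  have j1 := i1.sub (i2.const_mul κ₀)
  have j2 := i3.const_mul (logDeriv Y (1 / 2) - B (1 / 2))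
  refine ⟨(j1.add j2).sub i4, ?_⟩
  have n1 : w - 1 / 2 ≠ 0 := by
    intro h
    have := congrArg Complex.re h
    rw [sub_re, hh, zero_re, hw] at this
    norm_num at this
  have n2 : w + 1 / 2 ≠ 0 := by
    intro h
    have := congrArg Complex.re h
    rw [add_re, hh, zero_re, hw] at this
    norm_num at this
  have n3 : w ≠ 1 / 2 := sub_ne_zero.1 n1
  have k1 := integral_sub (j1.add j2) i4
  have k2 := integral_add j1 j2
  have k3 := integral_sub i1 (i2.const_mul κ₀)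
  simp only [Pi.add_apply, Pi.sub_apply] at k1 k2 k3
  rw [k1, k2, k3, integral_const_mul, integral_const_mul, v1, v2, v3, v4, H.eq w hw]
  unfold RR
  rw [dslope_of_ne _ n3, slope_def_field]
  generalize (∑' n : ℕ, a n * (n : ℂ) ^ (-(1 / 2 + w))) = S
  generalize logDeriv Y (1 / 2) = l
  generalize B (1 / 2) = b0
  generalize B w = b1
  obtain ⟨u, hu⟩ : ∃ u : ℂ, u = w - 1 / 2 := ⟨_, rfl⟩
  have q1 : w + 1 / 2 = u + 1 := by rw [hu]; ring
  rw [q1] at n2 ⊢
  rw [← hu] at n1 ⊢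
  field_simp
  ring

lemma RR_diff (H : LDat Y B κ₀ a) {w : ℂ} (hw : -(1 / 2) < w.re) : DifferentiableAt ℂ (RR B) w := by
  have hU : IsOpen {z : ℂ | -(1 / 2) < z.re} := isOpen_lt continuous_const Complex.continuous_re
  have h1 : DifferentiableOn ℂ (dslope B (1 / 2)) {z : ℂ | -(1 / 2) < z.re} := by
    rw [Complex.differentiableOn_dslope (hU.mem_nhds (by
      show -(1 / 2 : ℝ) < (1 / 2 : ℂ).re
      norm_num))]
    exact H.Ban
  have h2 : w + 1 / 2 ≠ 0 := by
    intro h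
    have := congrArg Complex.re h
    rw [add_re, zero_re] at this
    have hh : (1 / 2 : ℂ).re = 1 / 2 := by norm_num
    rw [hh] at this
    linarith
  exact (h1.differentiableAt (hU.mem_nhds hw)).div (by fun_prop) h2

lemma RR_bd (H : LDat Y B κ₀ a) : ∃ K : ℝ, 0 ≤ K ∧ ∀ w : ℂ, 0 ≤ w.re → w.re ≤ 1 →
    ‖RR B w‖ ≤ K * (1 + ‖w.im‖) ^ (-(3 / 2) : ℝ) := by
  have hh : (1 / 2 : ℂ).re = 1 / 2 := by norm_num
  have hi : (1 / 2 : ℂ).im = 0 := by norm_num
  obtain ⟨C, hC0, hC⟩ := H.Bbd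
  -- the compact part
  obtain ⟨M, hM⟩ : ∃ M : ℝ, ∀ w : ℂ, 0 ≤ w.re → w.re ≤ 1 → |w.im| ≤ 1 → ‖RR B w‖ ≤ M := by
    have hc : IsCompact (Icc (0 : ℝ) 1 ×ℂ Icc (-1 : ℝ) 1) := isCompact_Icc.reProdIm isCompact_Icc
    have hcont : ContinuousOn (fun w => ‖RR B w‖) (Icc (0 : ℝ) 1 ×ℂ Icc (-1 : ℝ) 1) := by
      intro w hw
      have h1 : w.re ∈ Icc (0 : ℝ) 1 := hw.1
      exact (RR_diff H (by linarith [h1.1])).continuousAt.norm.continuousWithinAt
    obtain ⟨M, hM⟩ := hc.bddAbove_image hcont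
    exact ⟨M, fun w h1 h2 h3 => hM ⟨w, ⟨⟨h1, h2⟩, abs_le.1 h3⟩, rfl⟩⟩
  have hM0 : 0 ≤ M := (norm_nonneg _).trans (hM 0 (by simp) (by simp) (by simp))
  refine ⟨4 * M + 32 * C, by positivity, fun w h0 h1 => ?_⟩
  have ht0 := norm_nonneg w.im
  rcases le_or_gt |w.im| 1 with h2 | h2
  · refine (hM w h0 h1 h2).trans ?_
    have h3 : (1 / 4 : ℝ) ≤ (1 + ‖w.im‖) ^ (-(3 / 2) : ℝ) := by
      rw [Real.rpow_neg (by positivity), ← one_div]
      apply one_div_le_one_div_of_le (by positivity)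
      calc (1 + ‖w.im‖) ^ (3 / 2 : ℝ) ≤ 2 ^ (3 / 2 : ℝ) :=
            Real.rpow_le_rpow (by positivity) (by rw [Real.norm_eq_abs]; linarith) (by norm_num)
        _ ≤ 2 ^ (2 : ℝ) := Real.rpow_le_rpow_of_exponent_le (by norm_num) (by norm_num)
        _ = 4 := by norm_num
    have h4 : 0 ≤ (1 + ‖w.im‖) ^ (-(3 / 2) : ℝ) := by positivity
    nlinarith
  · have ht : 1 < ‖w.im‖ := h2
    have n3 : w ≠ 1 / 2 := by
      intro h
      rw [h, hi] at ht
      simp at ht
      linarith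
    unfold RR
    rw [dslope_of_ne _ n3, slope_def_field, norm_div, norm_div]
    have g1 : ‖w.im‖ ≤ ‖w - 1 / 2‖ := by
      have := Complex.abs_im_le_norm (w - 1 / 2)
      rw [sub_im, hi, sub_zero] at this
      exact this
    have g2 : ‖w.im‖ ≤ ‖w + 1 / 2‖ := by
      have := Complex.abs_im_le_norm (w + 1 / 2)
      rw [add_im, hi, add_zero] at this
      exact this
    have hw : ‖w‖ ≤ 1 + ‖w.im‖ := by
      refine (Complex.norm_le_abs_re_add_abs_im w).trans ?_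
      rw [abs_of_nonneg h0]
      exact add_le_add_left h1 _
    have hlog : ∀ x : ℝ, 0 ≤ x → x ≤ 1 + ‖w.im‖ → Real.log (2 + x) ≤ 4 * (1 + ‖w.im‖) ^ (1 / 2 : ℝ) := by
      intro x hx0 hx
      have h3 : Real.log (2 + x) ≤ (2 + x) ^ (1 / 2 : ℝ) / (1 / 2) :=
        Real.log_le_rpow_div (by positivity) (by norm_num)
      have h4 : (2 + x) ^ (1 / 2 : ℝ) ≤ (4 * (1 + ‖w.im‖)) ^ (1 / 2 : ℝ) :=
        Real.rpow_le_rpow (by positivity) (by linarith) (by norm_num)
      rw [Real.mul_rpow (by norm_num) (by positivity)] at h4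
      have h5 : (4 : ℝ) ^ (1 / 2 : ℝ) = 2 := by
        rw [← Real.sqrt_eq_rpow, show (4 : ℝ) = 2 ^ 2 by norm_num]
        exact Real.sqrt_sq (by norm_num)
      rw [h5] at h4
      linarith
    have h6 : ‖B w - B (1 / 2)‖ ≤ 8 * C * (1 + ‖w.im‖) ^ (1 / 2 : ℝ) := by
      refine (norm_sub_le _ _).trans ?_
      have h7 := (hC w h0).trans (mul_le_mul_of_nonneg_left (hlog ‖w‖ (norm_nonneg _) hw) hC0.le)
      have h8 := (hC (1 / 2) (by rw [hh]; norm_num)).trans (mul_le_mul_of_nonneg_left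
        (hlog ‖(1 / 2 : ℂ)‖ (norm_nonneg _) (by
          have : ‖(1 / 2 : ℂ)‖ = 1 / 2 := by norm_num
          rw [this]; linarith)) hC0.le)
      linarith
    have h9 : (1 + ‖w.im‖) ^ 2 / 4 ≤ ‖w - 1 / 2‖ * ‖w + 1 / 2‖ := by
      have := mul_le_mul g1 g2 ht0 (norm_nonneg _)
      nlinarith
    have hpos : (0 : ℝ) < 1 + ‖w.im‖ := by linarith
    calc ‖B w - B (1 / 2)‖ / ‖w - 1 / 2‖ / ‖w + 1 / 2‖ = ‖B w - B (1 / 2)‖ / (‖w - 1 / 2‖ * ‖w + 1 / 2‖) := by
          rw [div_div]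
      _ ≤ (8 * C * (1 + ‖w.im‖) ^ (1 / 2 : ℝ)) / ((1 + ‖w.im‖) ^ 2 / 4) := by
          gcongr
      _ = 32 * C * ((1 + ‖w.im‖) ^ (1 / 2 : ℝ) / (1 + ‖w.im‖) ^ (2 : ℝ)) := by
          rw [Real.rpow_two]
          field_simp
          ring
      _ = 32 * C * (1 + ‖w.im‖) ^ (-(3 / 2) : ℝ) := by
          rw [← Real.rpow_sub hpos]
          norm_num
      _ ≤ _ := by
          have : 0 ≤ (1 + ‖w.im‖) ^ (-(3 / 2) : ℝ) := by positivity
          nlinarith

/-- **The explicit formula.** -/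
theorem exf (H : LDat Y B κ₀ a) : Tendsto (QQ Y B κ₀ a) atTop (𝓝 0) := by
  obtain ⟨K, hK0, hK⟩ := RR_bd H
  have hdec : Integrable fun t : ℝ => K * (1 + ‖t‖) ^ (-(3 / 2) : ℝ) :=
    (integrable_one_add_norm (by simp; norm_num)).const_mul K
  have hline : ∀ x : ℝ, 0 ≤ x → x ≤ 1 → Continuous fun t : ℝ => RR B ⟨x, t⟩ := by
    intro x h0 h1
    rw [continuous_iff_continuousAt]
    intro t
    have h2 : ContinuousAt (RR B) (⟨x, t⟩ : ℂ) :=
      (RR_diff H (w := ⟨x, t⟩) (by show -(1 / 2 : ℝ) < x; linarith)).continuousAt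
    exact h2.comp (f := fun t : ℝ => (⟨x, t⟩ : ℂ)) (Pool.Agent.H862.VK.mk_cont x).continuousAt
  have hint : ∀ x : ℝ, 0 ≤ x → x ≤ 1 → Integrable fun t : ℝ => RR B ⟨x, t⟩ := fun x h0 h1 =>
    hdec.mono' (hline x h0 h1).aestronglyMeasurable (Eventually.of_forall fun t => hK ⟨x, t⟩ h0 h1)
  -- the inversion on the line `Re = 1`
  have hone : ∀ t y : ℝ, cexp (-((⟨1, t⟩ : ℂ) * y)) = cexp (-(y : ℂ)) * cexp (-(t * y * I)) := by
    intro t y
    rw [← Complex.exp_add]
    congr 1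
    have : (⟨1, t⟩ : ℂ) = 1 + t * I := by apply Complex.ext <;> simp
    rw [this]
    ring
  have h1 : ∀ y : ℝ, QQ Y B κ₀ a y * cexp (-(y : ℂ)) =
      (1 / (2 * Real.pi)) * ∫ t : ℝ, RR B ⟨1, t⟩ * cexp (t * y * I) := by
    intro y
    refine inversion (q := fun y : ℝ => QQ Y B κ₀ a y * cexp (-(y : ℂ))) ((QQ_cont H).mul (by fun_prop)) ?_
      (hint 1 (by norm_num) le_rfl) (fun t => ?_) y
    · have := (QQ_lap H (w := ⟨1, 0⟩) rfl).1
      refine this.congr (Eventually.of_forall fun y => ?_)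
      simp only
      rw [hone]
      simp
    · rw [← (QQ_lap H (w := ⟨1, t⟩) rfl).2]
      refine integral_congr_ae (Eventually.of_forall fun y => ?_)
      simp only
      rw [hone, mul_assoc]
  -- the shift to `Re = 0`
  have h2 : ∀ y : ℝ, QQ Y B κ₀ a y = (1 / (2 * Real.pi)) * ∫ t : ℝ, RR B ⟨0, t⟩ * cexp (t * y * I) := by
    intro y
    have e1 : QQ Y B κ₀ a y = (1 / (2 * Real.pi)) * ∫ t : ℝ, RR B ⟨1, t⟩ * cexp ((⟨1, t⟩ : ℂ) * y) := by
      have h3 := congrArg (fun x => x * cexp (y : ℂ)) (h1 y)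
      rw [mul_assoc, ← Complex.exp_add, neg_add_cancel, Complex.exp_zero, mul_one] at h3
      rw [h3, mul_assoc, ← integral_mul_const]
      congr 1
      refine integral_congr_ae (Eventually.of_forall fun t => ?_)
      simp only
      rw [mul_assoc, ← Complex.exp_add]
      congr 2
      have : (⟨1, t⟩ : ℂ) = 1 + t * I := by apply Complex.ext <;> simp
      rw [this]
      ring
    rw [e1]
    congr 1
    have hn : ∀ x : ℝ, 0 ≤ x → x ≤ 1 → ∀ t : ℝ, ‖cexp ((⟨x, t⟩ : ℂ) * y)‖ ≤ Real.exp |y| := by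
      intro x h0 h1 t
      rw [Complex.norm_exp]
      refine Real.exp_le_exp.2 ?_
      rw [Complex.re_mul_ofReal]
      show x * y ≤ |y|
      have := le_abs_self y
      have := abs_nonneg y
      nlinarith
    have hint2 : ∀ x : ℝ, 0 ≤ x → x ≤ 1 → Integrable fun t : ℝ => RR B ⟨x, t⟩ * cexp ((⟨x, t⟩ : ℂ) * y) := by
      intro x h0 h1
      refine (hdec.mul_const (Real.exp |y|)).mono' ((hline x h0 h1).mul (Complex.continuous_exp.comp
        ((Pool.Agent.H862.VK.mk_cont x).mul continuous_const))).aestronglyMeasurable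
        (Eventually.of_forall fun t => ?_)
      rw [norm_mul]
      exact mul_le_mul (hK ⟨x, t⟩ h0 h1) (hn x h0 h1 t) (norm_nonneg _) (by positivity)
    have hD : Tendsto (fun T : ℝ => K * (1 + T) ^ (-(3 / 2) : ℝ) * Real.exp |y|) atTop (𝓝 0) := by
      have k1 : Tendsto (fun T : ℝ => (1 + T) ^ (-(3 / 2) : ℝ)) atTop (𝓝 0) :=
        (tendsto_rpow_neg_atTop (by norm_num)).comp (tendsto_atTop_add_const_left _ 1 tendsto_id)
      have := (k1.const_mul K).mul_const (Real.exp |y|)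
      rw [mul_zero, zero_mul] at this
      exact this
    have h3 := Pool.Agent.H862.VK.shift0 (G := fun w => RR B w * cexp (w * y)) (a := 0) (b := 1)
      (D := fun T => K * (1 + T) ^ (-(3 / 2) : ℝ) * Real.exp |y|) (by norm_num)
      (fun z h0 _ => (RR_diff H (by linarith)).mul (by fun_prop)) (hint2 0 le_rfl (by norm_num))
      (hint2 1 (by norm_num) le_rfl) hD (fun x hx t T hT ht => by
        rw [norm_mul]
        refine mul_le_mul ?_ (hn x hx.1 hx.2 t) (norm_nonneg _) (by positivity)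
        have := hK ⟨x, t⟩ hx.1 hx.2
        rw [Real.norm_eq_abs] at this
        rwa [ht] at this)
    rw [h3]
    refine integral_congr_ae (Eventually.of_forall fun t => ?_)
    simp only
    congr 2
    have : (⟨0, t⟩ : ℂ) = t * I := by apply Complex.ext <;> simp
    rw [this]
    ring
  have h3 := (rlem fun t => RR B ⟨0, t⟩).const_mul ((1 / (2 * Real.pi) : ℂ))
  rw [mul_zero] at h3
  exact h3.congr fun y => (h2 y).symm

end

end Pool.Agent.H862.EL
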