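import Pool.Agent.H862.EL.Abs
import Pool.Agent.H862.EL.Exf

/-!
# Finite families of completed `L`-functions
-/

set_option autoImplicit false

open Complex MeasureTheory Filter Topology Set
open scoped ComplexConjugate

namespace Pool.Agent.H862.EL

open Pool.Agent.N804.LI (EM I0)

/-- the kernel -/
noncomputable def A0 (w : ℂ) : ℂ := 1 / (1 / 4 - w ^ 2)

section
variable {ι : Type} [Fintype ι] {Y B : ι → ℂ → ℂ} {κ₀ : ι → ℂ} {a : ι → ℕ → ℂ}

/-- the zeros of the family -/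
abbrev ZF (Y : ι → ℂ → ℂ) : Type := Σ i, {b : ℂ // Y i b = 0}

omit [Fintype ι] in
lemma A0_conj (w : ℂ) : A0 (conj w) = conj (A0 w) := by
  unfold A0
  rw [map_div₀, map_sub, map_pow, map_div₀, map_one, map_ofNat]

/-- the family -/
structure FDat (Y B : ι → ℂ → ℂ) (κ₀ : ι → ℂ) (a : ι → ℕ → ℂ) (σ : ι → ι) (P : ℝ → ℝ) : Prop where
  dat : ∀ i, LDat (Y i) (B i) (κ₀ i) (a i)
  inv : ∀ i, σ (σ i) = i
  cz : ∀ i b, Y i b = 0 → Y (σ i) (conj b) = 0
  co : ∀ i b, analyticOrderNatAt (Y (σ i)) (conj b) = analyticOrderNatAt (Y i) b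
  rz : ∀ i b, Y i b = 0 → Y i (-(conj b)) = 0
  cont : Continuous P
  eq : ∀ y : ℝ, 0 ≤ y → (P y : ℂ) = ∑ i, (D0 (a i) y - κ₀ i * ((y - 1) * cexp (1 / 2 * y)) +
    (logDeriv (Y i) (1 / 2) - B i (1 / 2)) * cexp (1 / 2 * y))

variable {σ : ι → ι} {P : ℝ → ℝ}

/-- the conjugate zero -/
def cbar (F : FDat Y B κ₀ a σ P) (k : ZF Y) : ZF Y := ⟨σ k.1, conj (k.2 : ℂ), F.cz k.1 k.2 k.2.2⟩

lemma A0_pos {b : ℂ} (hb : |b.re| ≤ 1 / 2) (h1 : (1 / 2 - b) ≠ 0) (h2 : (1 / 2 + b) ≠ 0)
    (h : b.im = 0 ∨ b.re = 0) : 0 < (A0 b).re ∧ (A0 b).im = 0 := by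
  have key : ∃ x : ℝ, 0 < x ∧ 1 / 4 - b ^ 2 = (x : ℂ) := by
    rcases h with h | h
    · refine ⟨1 / 4 - b.re ^ 2, ?_, ?_⟩
      · have e : b = (b.re : ℂ) := Complex.ext rfl (by simpa using h)
        have n1 : b.re ≠ 1 / 2 := by
          intro hb1
          apply h1
          rw [e, hb1]
          norm_num
        have n2 : b.re ≠ -(1 / 2) := by
          intro hb1
          apply h2
          rw [e, hb1]
          norm_num
        have h3 := abs_le.1 hb
        have h4 : b.re < 1 / 2 := lt_of_le_of_ne h3.2 n1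
        have h5 : -(1 / 2) < b.re := lt_of_le_of_ne h3.1 (Ne.symm n2)
        nlinarith
      · have e : b = (b.re : ℂ) := Complex.ext rfl (by simpa using h)
        conv_lhs => rw [e]
        push_cast
        ring
    · refine ⟨1 / 4 + b.im ^ 2, by positivity, ?_⟩
      have e : b = (b.im : ℂ) * I := by
        apply Complex.ext
        · simp [h]
        · simp
      conv_lhs => rw [e]
      rw [mul_pow, I_sq]
      push_cast
      ring
  obtain ⟨x, hx, e⟩ := key
  unfold A0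
  rw [e]
  have e2 : (1 / (x : ℂ)) = ((1 / x : ℝ) : ℂ) := by push_cast; rfl
  rw [e2, Complex.ofReal_re, Complex.ofReal_im]
  exact ⟨by positivity, rfl⟩

omit [Fintype ι] in
lemma az_eq (Y : ℂ → ℂ) (b : ℂ) : az Y b = (od Y b : ℂ) * A0 b := rfl

/-- **The system of the zeros of the family.** -/
theorem fam_sys (F : FDat Y B κ₀ a σ P) :
    SysL (fun k : ZF Y => (k.2 : ℂ)) (fun k => od (Y k.1) k.2) A0 P (cbar F) where
  pos k := lt_of_lt_of_le one_pos (od_pos (F.dat k.1) k.2)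
  str k := (F.dat k.1).strip k.2 k.2.2
  fin R := by
    have h1 : {k : ZF Y | ‖(k.2 : ℂ)‖ ≤ R} = ⋃ i, (fun b => (⟨i, b⟩ : ZF Y)) '' {b : {b : ℂ // Y i b = 0} | ‖(b : ℂ)‖ ≤ R} := by
      ext ⟨i, b⟩
      simp only [Set.mem_ofPred_eq, Set.mem_iUnion, Set.mem_image]
      constructor
      · intro h
        exact ⟨i, b, h, rfl⟩
      · rintro ⟨j, c, hc, he⟩
        obtain ⟨rfl, h2⟩ := Sigma.mk.inj_iff.1 he
        rw [heq_iff_eq] at h2
        rw [← h2]
        exact hc
    rw [h1]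
    exact Set.finite_iUnion fun i => (zfin (F.dat i) R).image _
  sum := by
    rw [summable_sigma_of_nonneg (fun k => mul_nonneg (by unfold od; positivity) (norm_nonneg _))]
    refine ⟨fun i => ?_, Summable.of_finite⟩
    refine (az_sum (F.dat i)).congr fun b => ?_
    rw [az_eq, norm_mul, Complex.norm_real, Real.norm_of_nonneg (by unfold od; positivity)]
  ne k := by
    obtain ⟨h1, -, -⟩ := ne_quarter (F.dat k.1) k.2
    exact one_div_ne_zero h1
  real k h := by
    obtain ⟨-, h1, h2⟩ := ne_quarter (F.dat k.1) k.2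
    exact A0_pos ((F.dat k.1).strip k.2 k.2.2) h1 h2 (Or.inl h)
  line k h := by
    obtain ⟨-, h1, h2⟩ := ne_quarter (F.dat k.1) k.2
    exact A0_pos ((F.dat k.1).strip k.2 k.2.2) h1 h2 (Or.inr h)
  cont := F.cont
  inv k := by
    obtain ⟨i, b, hb⟩ := k
    unfold cbar
    rw [Sigma.mk.inj_iff]
    refine ⟨F.inv i, ?_⟩
    have h1 : ∀ (j : ι) (c : ℂ) (hc : Y j c = 0) (hj : j = i) (hcb : c = b),
        HEq (⟨c, hc⟩ : {b : ℂ // Y j b = 0}) (⟨b, hb⟩ : {b : ℂ // Y i b = 0}) := by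
      intro j c hc hj hcb
      subst hj hcb
      rfl
    exact h1 _ _ _ (F.inv i) (Complex.conj_conj b)
  mub k := by
    unfold cbar od
    simp only
    rw [F.co]
  zb k := rfl
  Ab k := A0_conj _
  refl k := ⟨⟨k.1, -(conj (k.2 : ℂ)), F.rz k.1 k.2 k.2.2⟩, rfl⟩
  lim := by
    have h1 : Tendsto (fun y : ℝ => ∑ i, QQ (Y i) (B i) (κ₀ i) (a i) y) atTop (𝓝 0) := by
      have := tendsto_finsetSum (Finset.univ : Finset ι) fun i _ => exf (F.dat i)
      simpa using this
    obtain ⟨c, hc⟩ : ∃ c : ℂ, c = ∑ i, (κ₀ i + (logDeriv (Y i) (1 / 2) - B i (1 / 2)) -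
      ∑' b : {b : ℂ // Y i b = 0}, az (Y i) b) := ⟨_, rfl⟩
    have h2 : Tendsto (fun y : ℝ => c * cexp (-(1 / 2) * y)) atTop (𝓝 0) := by
      have h3 : Tendsto (fun y : ℝ => cexp (-(1 / 2) * y)) atTop (𝓝 0) := by
        rw [tendsto_zero_iff_norm_tendsto_zero]
        have h4 : ∀ y : ℝ, ‖cexp (-(1 / 2) * y)‖ = Real.exp (-(1 / 2 * y)) := by
          intro y
          rw [Complex.norm_exp]
          congr 1
          rw [Complex.re_mul_ofReal]
          norm_num
        simp_rw [h4]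
        exact Real.tendsto_exp_neg_atTop_nhds_zero.comp (tendsto_id.const_mul_atTop (by norm_num))
      have := h3.const_mul c
      rwa [mul_zero] at this
    have h3 := h1.add h2
    rw [add_zero] at h3
    refine h3.congr' ?_
    filter_upwards [eventually_ge_atTop (0 : ℝ)] with y hy
    -- the sum over the zeros
    have hsum : ∀ i, Summable fun b : {b : ℂ // Y i b = 0} => az (Y i) b * cexp ((b : ℂ) * y) := by
      intro i
      refine Summable.of_norm_bounded ((az_sum (F.dat i)).mul_right (Real.exp |y|)) fun b => ?_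
      rw [norm_mul]
      refine mul_le_mul_of_nonneg_left ?_ (norm_nonneg _)
      rw [Complex.norm_exp]
      refine Real.exp_le_exp.2 ?_
      rw [Complex.re_mul_ofReal]
      have h5 := abs_le.1 ((F.dat i).strip b b.2)
      rw [abs_of_nonneg hy]
      nlinarith
    have hZ : ∀ i, ZS (Y i) y = (∑' b : {b : ℂ // Y i b = 0}, az (Y i) b * cexp ((b : ℂ) * y)) -
        (∑' b : {b : ℂ // Y i b = 0}, az (Y i) b) * cexp (-(1 / 2) * y) := by
      intro i
      unfold ZS
      rw [← tsum_mul_right, ← (hsum i).tsum_sub (((az_sum (F.dat i)).of_norm).mul_right _)]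
      refine tsum_congr fun b => ?_
      rw [bl_pos _ hy, mul_sub]
    have hall : ∑' k : ZF Y, (od (Y k.1) k.2 : ℂ) * A0 k.2 * cexp ((k.2 : ℂ) * y) =
        ∑ i, ∑' b : {b : ℂ // Y i b = 0}, az (Y i) b * cexp ((b : ℂ) * y) := by
      have hs : Summable fun k : ZF Y => (od (Y k.1) k.2 : ℂ) * A0 k.2 * cexp ((k.2 : ℂ) * y) := by
        have h6 : Summable fun k : ZF Y => ‖(od (Y k.1) k.2 : ℂ) * A0 k.2 * cexp ((k.2 : ℂ) * y)‖ := by
          rw [summable_sigma_of_nonneg (fun k => norm_nonneg _)]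
          exact ⟨fun i => (hsum i).norm, Summable.of_finite⟩
        exact h6.of_norm
      rw [hs.tsum_sigma' fun i => hsum i, tsum_fintype]
      rfl
    rw [hall, F.eq y hy, hc, Finset.sum_mul, ← Finset.sum_add_distrib, ← Finset.sum_sub_distrib]
    refine Finset.sum_congr rfl fun i _ => ?_
    unfold QQ
    rw [hZ i]
    unfold bd
    rw [max_eq_left hy, bl_pos _ hy]
    ring

end

end Pool.Agent.H862.EL
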