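import Pool.Graph.R_pool_sql_team_seeded_63374d34.N804.LI.GlueM

/-!
# Exponential moments of sums of exponentials with a growing term tend to infinity

`P y = ∑ a_k e^{z_k y} + o(1)`; if some `z_k` has positive real part, then the means of `exp (κ P)` over
`[0, Y]` tend to infinity with `Y` (not only along a sequence).  Gaussian averages around each point.
-/

set_option autoImplicit false

namespace Pool.Agent.H862.EL

open Filter Topology MeasureTheory Set
open scoped ComplexConjugate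
open Pool.Agent.N804.LI (EM gs I0)

/-- the data -/
structure Sys {K : Type} (z : K → ℂ) (μ : K → ℝ) (A : ℂ → ℂ) (P : ℝ → ℝ) : Prop where
  pos : ∀ k, 0 < μ k
  str : ∀ k, |(z k).re| ≤ 1 / 2
  fin : ∀ R : ℝ, {k | ‖z k‖ ≤ R}.Finite
  sum : Summable fun k => μ k * ‖A (z k)‖
  ne : ∀ k, A (z k) ≠ 0
  real : ∀ k, (z k).im = 0 → 0 < (A (z k)).re ∧ (A (z k)).im = 0
  cont : Continuous P
  lim : Tendsto (fun y : ℝ => (P y : ℂ) - ∑' k, μ k * A (z k) * Complex.exp (z k * y)) atTop (𝓝 0)

/-! ### the Gaussian -/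

lemma gs_pos {ε : ℝ} (hε : 0 < ε) (v : ℝ) : 0 < gs ε v := by
  unfold gs
  positivity

lemma gs_cont (ε : ℝ) : Continuous (gs ε) := by
  unfold gs
  fun_prop

lemma gs_le {ε : ℝ} (hε : 0 < ε) (v : ℝ) : gs ε v ≤ 1 / (ε * Real.sqrt (2 * Real.pi)) := by
  unfold gs
  apply div_le_div_of_nonneg_right _ (by positivity)
  rw [Real.exp_le_one_iff]
  have : 0 ≤ v ^ 2 / (2 * ε ^ 2) := by positivity
  linarith

/-- the exponential integral against the Gaussian centred at `s` -/
lemma gauss_cexp {ε : ℝ} (hε : 0 < ε) (s : ℝ) (w : ℂ) :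
    Integrable (fun y : ℝ => Complex.exp (w * y) * (gs ε (y - s) : ℂ)) ∧
    ∫ y : ℝ, Complex.exp (w * y) * (gs ε (y - s) : ℂ) = Complex.exp (w * s + ε ^ 2 * w ^ 2 / 2) := by
  have hb : (0 : ℝ) < 1 / (2 * ε ^ 2) := by positivity
  have hbc : (-(1 / (2 * (ε : ℂ) ^ 2))).re < 0 := by
    have e : (-(1 / (2 * (ε : ℂ) ^ 2))) = ((-(1 / (2 * ε ^ 2)) : ℝ) : ℂ) := by push_cast; ring
    rw [e, Complex.ofReal_re]
    linarith
  have hc : Real.sqrt (2 * Real.pi) ≠ 0 := (Real.sqrt_pos.2 (by positivity)).ne'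
  have hεc : (ε : ℂ) ≠ 0 := by exact_mod_cast hε.ne'
  have e1 : ∀ y : ℝ, Complex.exp (w * y) * (gs ε (y - s) : ℂ) =
      (1 / (ε * Real.sqrt (2 * Real.pi) : ℝ) : ℂ) *
        Complex.exp (-(1 / (2 * (ε : ℂ) ^ 2)) * y ^ 2 + (w + s / ε ^ 2) * y + -(s ^ 2 / (2 * ε ^ 2))) := by
    intro y
    unfold gs
    push_cast
    rw [mul_div_assoc', ← Complex.exp_add, div_eq_mul_one_div, mul_comm]
    congr 2
    field_simp
    ring
  have hint := integrable_cexp_quadratic' hbc (w + s / ε ^ 2) (-(s ^ 2 / (2 * ε ^ 2)) : ℂ)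
  constructor
  · simp_rw [e1]
    exact hint.const_mul _
  · simp_rw [e1]
    rw [integral_const_mul, integral_cexp_quadratic hbc]
    have e2 : (-(s ^ 2 / (2 * (ε : ℂ) ^ 2))) - (w + s / (ε : ℂ) ^ 2) ^ 2 / (4 * -(1 / (2 * (ε : ℂ) ^ 2))) =
        w * s + ε ^ 2 * w ^ 2 / 2 := by
      field_simp
      ring
    rw [e2]
    have e3 : ((Real.pi : ℂ) / -(-(1 / (2 * (ε : ℂ) ^ 2)))) ^ (1 / 2 : ℂ) =
        ((ε * Real.sqrt (2 * Real.pi) : ℝ) : ℂ) := by
      have e4 : ((Real.pi : ℂ) / -(-(1 / (2 * (ε : ℂ) ^ 2)))) = ((2 * Real.pi * ε ^ 2 : ℝ) : ℂ) := by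
        push_cast
        field_simp
      rw [e4]
      have e5 : ((2 * Real.pi * ε ^ 2 : ℝ) : ℂ) ^ (1 / 2 : ℂ) = (((2 * Real.pi * ε ^ 2 : ℝ) ^ (1 / 2 : ℝ) : ℝ) : ℂ) := by
        rw [Complex.ofReal_cpow (by positivity)]
        norm_num
      rw [e5, ← Real.sqrt_eq_rpow, Real.sqrt_mul (by positivity), Real.sqrt_sq hε.le, mul_comm]
    rw [e3, ← mul_assoc]
    have e6 : (1 / (ε * Real.sqrt (2 * Real.pi) : ℝ) : ℂ) * ((ε * Real.sqrt (2 * Real.pi) : ℝ) : ℂ) = 1 := by
      have : ((ε * Real.sqrt (2 * Real.pi) : ℝ) : ℂ) ≠ 0 := by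
        exact_mod_cast mul_ne_zero hε.ne' hc
      field_simp
    rw [e6, one_mul]

/-- the real exponential integral -/
lemma gauss_exp {ε : ℝ} (hε : 0 < ε) (s w : ℝ) :
    Integrable (fun y : ℝ => Real.exp (w * y) * gs ε (y - s)) ∧
    ∫ y : ℝ, Real.exp (w * y) * gs ε (y - s) = Real.exp (w * s + ε ^ 2 * w ^ 2 / 2) := by
  obtain ⟨h1, h2⟩ := gauss_cexp hε s (w : ℂ)
  have e : ∀ y : ℝ, Complex.exp ((w : ℂ) * y) * (gs ε (y - s) : ℂ) =
      ((Real.exp (w * y) * gs ε (y - s) : ℝ) : ℂ) := by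
    intro y; push_cast; rfl
  simp_rw [e] at h1 h2
  refine ⟨?_, ?_⟩
  · exact h1.re.congr (Eventually.of_forall fun y => Complex.ofReal_re _)
  · rw [integral_complex_ofReal] at h2
    have e2 : Complex.exp ((w : ℂ) * s + (ε : ℂ) ^ 2 * (w : ℂ) ^ 2 / 2) =
      ((Real.exp (w * s + ε ^ 2 * w ^ 2 / 2) : ℝ) : ℂ) := by push_cast; rfl
    rw [e2] at h2
    exact_mod_cast h2

/-! ### the sums -/

section
variable {K : Type} {z : K → ℂ} {μ : K → ℝ} {A : ℂ → ℂ} {P : ℝ → ℝ}

/-- the sum of the exponentials -/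
noncomputable def FF (z : K → ℂ) (μ : K → ℝ) (A : ℂ → ℂ) (y : ℝ) : ℂ :=
  ∑' k, μ k * A (z k) * Complex.exp (z k * y)

lemma norm_cf (H : Sys z μ A P) (k : K) : ‖(μ k : ℂ) * A (z k)‖ = μ k * ‖A (z k)‖ := by
  rw [norm_mul, Complex.norm_real, Real.norm_of_nonneg (H.pos k).le]

lemma norm_exp_le (H : Sys z μ A P) (k : K) (y : ℝ) : ‖Complex.exp (z k * y)‖ ≤ Real.exp |y| := by
  rw [Complex.norm_exp, Real.exp_le_exp]
  have h1 : (z k * y).re = (z k).re * y := by simp
  rw [h1]
  refine (le_abs_self _).trans ?_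
  rw [abs_mul]
  have h2 := H.str k
  have h3 := abs_nonneg y
  nlinarith [abs_nonneg (z k).re]

lemma FF_sum (H : Sys z μ A P) (y : ℝ) : Summable fun k => (μ k : ℂ) * A (z k) * Complex.exp (z k * y) := by
  refine Summable.of_norm_bounded (H.sum.mul_right (Real.exp |y|)) fun k => ?_
  rw [norm_mul, norm_cf H]
  exact mul_le_mul_of_nonneg_left (norm_exp_le H k y) (mul_nonneg (H.pos k).le (norm_nonneg _))

lemma FF_le (H : Sys z μ A P) (y : ℝ) : ‖FF z μ A y‖ ≤ (∑' k, μ k * ‖A (z k)‖) * Real.exp |y| := by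
  unfold FF
  rw [← tsum_mul_right]
  refine tsum_of_norm_bounded (H.sum.mul_right (Real.exp |y|)).hasSum fun k => ?_
  rw [norm_mul, norm_cf H]
  exact mul_le_mul_of_nonneg_left (norm_exp_le H k y) (mul_nonneg (H.pos k).le (norm_nonneg _))

lemma FF_cont (H : Sys z μ A P) : Continuous (FF z μ A) := by
  rw [continuous_iff_continuousAt]
  intro y
  have h1 : ContinuousOn (FF z μ A) (Icc (y - 1) (y + 1)) := by
    refine continuousOn_tsum (u := fun k => μ k * ‖A (z k)‖ * Real.exp (|y| + 1))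
      (fun k => by fun_prop) (H.sum.mul_right _) fun k x hx => ?_
    rw [norm_mul, norm_cf H]
    refine mul_le_mul_of_nonneg_left ((norm_exp_le H k x).trans (Real.exp_le_exp.2 ?_))
      (mul_nonneg (H.pos k).le (norm_nonneg _))
    have h2 : |x - y| ≤ 1 := abs_le.2 ⟨by linarith [hx.1], by linarith [hx.2]⟩
    have h3 := abs_sub_abs_le_abs_sub x y
    linarith
  exact h1.continuousAt (Icc_mem_nhds (by linarith) (by linarith))

/-- the Gaussian average with a frequency -/
noncomputable def II (z : K → ℂ) (μ : K → ℝ) (A : ℂ → ℂ) (γ s : ℝ) : ℂ :=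
  ∫ y : ℝ, FF z μ A y * Complex.exp (-(γ * Complex.I) * y) * (gs (Real.sqrt (s / 8)) (y - s) : ℂ)

lemma cntb (H : Sys z μ A P) : Countable K := by
  have h1 := H.sum.countable_support
  have h2 : Function.support (fun k => μ k * ‖A (z k)‖) = Set.univ := by
    ext k
    simp only [Function.mem_support, Set.mem_univ, iff_true]
    exact mul_ne_zero (H.pos k).ne' (norm_ne_zero_iff.2 (H.ne k))
  rw [h2] at h1
  exact Set.countable_univ_iff.1 h1

lemma II_eq (H : Sys z μ A P) (γ : ℝ) {s : ℝ} (hs : 0 < s) :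
    II z μ A γ s = ∑' k, μ k * A (z k) * Complex.exp ((z k - γ * Complex.I) * s +
      (s / 8 : ℝ) * (z k - γ * Complex.I) ^ 2 / 2) := by
  have hε : 0 < Real.sqrt (s / 8) := Real.sqrt_pos.2 (by linarith)
  have hsq : (Real.sqrt (s / 8) : ℂ) ^ 2 = ((s / 8 : ℝ) : ℂ) := by
    rw [← Complex.ofReal_pow, Real.sq_sqrt (by linarith)]
  unfold II FF
  have e1 : ∀ y : ℝ, (∑' k, (μ k : ℂ) * A (z k) * Complex.exp (z k * y)) *
      Complex.exp (-(γ * Complex.I) * y) * (gs (Real.sqrt (s / 8)) (y - s) : ℂ) =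
      ∑' k, (μ k : ℂ) * A (z k) * (Complex.exp ((z k - γ * Complex.I) * y) *
        (gs (Real.sqrt (s / 8)) (y - s) : ℂ)) := by
    intro y
    rw [← tsum_mul_right, ← tsum_mul_right]
    refine tsum_congr fun k => ?_
    have e3 : (z k - γ * Complex.I) * (y : ℂ) = z k * y + -(γ * Complex.I) * y := by ring
    rw [e3, Complex.exp_add]
    ring
  simp_rw [e1]
  have hn : ∀ k (y : ℝ), ‖(μ k : ℂ) * A (z k) * (Complex.exp ((z k - γ * Complex.I) * y) *
        (gs (Real.sqrt (s / 8)) (y - s) : ℂ))‖ ≤ (μ k * ‖A (z k)‖) * ((Real.exp (1 * y) *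
          gs (Real.sqrt (s / 8)) (y - s)) + Real.exp ((-1) * y) * gs (Real.sqrt (s / 8)) (y - s)) := by
    intro k y
    rw [norm_mul, norm_cf H, norm_mul, Complex.norm_real, Real.norm_of_nonneg (gs_pos hε _).le, ← add_mul]
    refine mul_le_mul_of_nonneg_left (mul_le_mul_of_nonneg_right ?_ (gs_pos hε _).le)
      (mul_nonneg (H.pos k).le (norm_nonneg _))
    have e2 : ‖Complex.exp ((z k - γ * Complex.I) * y)‖ = ‖Complex.exp (z k * y)‖ := by
      rw [Complex.norm_exp, Complex.norm_exp]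
      congr 1
      simp
    rw [e2]
    refine (norm_exp_le H k y).trans ?_
    rcases abs_cases y with ⟨h, _⟩ | ⟨h, _⟩ <;> rw [h]
    · have := Real.exp_pos ((-1) * y)
      rw [one_mul]
      linarith
    · have := Real.exp_pos (1 * y)
      rw [neg_one_mul]
      linarith
  have hint : Integrable fun y : ℝ => (Real.exp (1 * y) *
          gs (Real.sqrt (s / 8)) (y - s)) + Real.exp ((-1) * y) * gs (Real.sqrt (s / 8)) (y - s) :=
    (gauss_exp hε s 1).1.add (gauss_exp hε s (-1)).1
  have hi : ∀ k, Integrable fun y : ℝ => (μ k : ℂ) * A (z k) * (Complex.exp ((z k - γ * Complex.I) * y) *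
        (gs (Real.sqrt (s / 8)) (y - s) : ℂ)) := fun k => (gauss_cexp hε s _).1.const_mul _
  have := cntb H
  have h := hasSum_integral_of_summable_integral_norm hi ?_
  · rw [← h.tsum_eq]
    refine tsum_congr fun k => ?_
    rw [integral_const_mul, (gauss_cexp hε s _).2, hsq]
  · refine Summable.of_nonneg_of_le (fun k => integral_nonneg fun y => norm_nonneg _) (fun k => ?_)
      (H.sum.mul_right (∫ y : ℝ, ((Real.exp (1 * y) *
          gs (Real.sqrt (s / 8)) (y - s)) + Real.exp ((-1) * y) * gs (Real.sqrt (s / 8)) (y - s))))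
    rw [← integral_const_mul]
    exact integral_mono (hi k).norm (hint.const_mul _) (hn k)

/-- the error made by `[0, 2 s]` and `P` in place of the line and the sum -/
lemma cut (H : Sys z μ A P) : ∃ C : ℝ, ∀ (γ s : ℝ), 0 < s →
    ‖II z μ A γ s - ∫ y in (0 : ℝ)..(2 * s), (P y : ℂ) * Complex.exp (-(γ * Complex.I) * y) *
      (gs (Real.sqrt (s / 8)) (y - s) : ℂ)‖ ≤ C := by
  -- the distance on `[0, ∞)`
  obtain ⟨C0, hC0⟩ : ∃ C0 : ℝ, ∀ y : ℝ, 0 ≤ y → ‖FF z μ A y - P y‖ ≤ C0 := by
    have h1 : Tendsto (fun y : ℝ => ‖FF z μ A y - P y‖) atTop (𝓝 0) := by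
      have := H.lim.norm
      rw [norm_zero] at this
      refine this.congr fun y => ?_
      rw [norm_sub_rev]
      rfl
    obtain ⟨Y0, hY0⟩ := eventually_atTop.1 (h1.eventually (gt_mem_nhds one_pos))
    have hc : Continuous fun y : ℝ => ‖FF z μ A y - P y‖ :=
      ((FF_cont H).sub (Complex.continuous_ofReal.comp H.cont)).norm
    obtain ⟨M, hM⟩ := (isCompact_Icc (a := (0 : ℝ)) (b := Y0)).bddAbove_image hc.continuousOn
    refine ⟨max M 1, fun y hy => ?_⟩
    rcases le_total y Y0 with h | h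
    · exact (hM ⟨y, ⟨hy, h⟩, rfl⟩).trans (le_max_left _ _)
    · exact (hY0 y h).le.trans (le_max_right _ _)
  obtain ⟨S, hS⟩ : ∃ S : ℝ, S = ∑' k, μ k * ‖A (z k)‖ := ⟨_, rfl⟩
  have hS0 : 0 ≤ S := by
    rw [hS]; exact tsum_nonneg fun k => mul_nonneg (H.pos k).le (norm_nonneg _)
  have hC00 : 0 ≤ C0 := (norm_nonneg _).trans (hC0 0 le_rfl)
  refine ⟨C0 + 2 * S, fun γ s hs => ?_⟩
  have hε : 0 < Real.sqrt (s / 8) := Real.sqrt_pos.2 (by linarith)
  have hsq : Real.sqrt (s / 8) ^ 2 = s / 8 := Real.sq_sqrt (by linarith)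
  obtain ⟨g, hg⟩ : ∃ g : ℝ → ℝ, g = fun y => gs (Real.sqrt (s / 8)) (y - s) := ⟨_, rfl⟩
  have hg0 : ∀ y, 0 < g y := fun y => by rw [hg]; exact gs_pos hε _
  have hgc : Continuous g := by rw [hg]; exact (gs_cont _).comp (continuous_id.sub continuous_const)
  obtain ⟨e, he⟩ : ∃ e : ℝ → ℂ, e = fun y : ℝ => Complex.exp (-(γ * Complex.I) * y) := ⟨_, rfl⟩
  have hec : Continuous e := by rw [he]; fun_prop
  have hen : ∀ y, ‖e y‖ = 1 := fun y => by
    rw [he]
    simp only [Complex.norm_exp]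
    simp
  have hF := FF_cont H
  have hPc : Continuous fun y : ℝ => (P y : ℂ) := Complex.continuous_ofReal.comp H.cont
  -- the majorant
  obtain ⟨h, hh⟩ : ∃ h : ℝ → ℝ, h = fun y => S * (Real.exp ((-1) * y) * g y + Real.exp (-(6 * s)) *
    (Real.exp (4 * y) * g y)) := ⟨_, rfl⟩
  have hhi : Integrable h := by
    rw [hh, hg]
    exact (((gauss_exp hε s (-1)).1).add ((gauss_exp hε s 4).1.const_mul _)).const_mul _
  have hh0 : ∀ y, 0 ≤ h y := fun y => by
    rw [hh]
    have := hg0 y
    positivity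
  have hhv : ∫ y, h y ≤ 2 * S := by
    rw [hh, hg]
    rw [integral_const_mul, integral_add (gauss_exp hε s (-1)).1 ((gauss_exp hε s 4).1.const_mul _),
      integral_const_mul, (gauss_exp hε s (-1)).2, (gauss_exp hε s 4).2, ← Real.exp_add, hsq]
    have h1 : Real.exp (-1 * s + s / 8 * (-1) ^ 2 / 2) ≤ 1 := by
      rw [Real.exp_le_one_iff]; nlinarith
    have h2 : Real.exp (-(6 * s) + (4 * s + s / 8 * 4 ^ 2 / 2)) ≤ 1 := by
      rw [Real.exp_le_one_iff]; nlinarith
    nlinarith
  have hFint : Integrable fun y : ℝ => FF z μ A y * e y * (g y : ℂ) := by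
    refine Integrable.mono' (g := fun y => S * (Real.exp (1 * y) * g y + Real.exp ((-1) * y) * g y)) ?_
      ((hF.mul hec).mul (Complex.continuous_ofReal.comp hgc)).aestronglyMeasurable
      (Eventually.of_forall fun y => ?_)
    · rw [hg]
      exact ((gauss_exp hε s 1).1.add (gauss_exp hε s (-1)).1).const_mul _
    · rw [norm_mul, norm_mul, hen, mul_one, Complex.norm_real, Real.norm_of_nonneg (hg0 y).le, ← add_mul,
        ← mul_assoc]
      refine mul_le_mul_of_nonneg_right ?_ (hg0 y).le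
      refine (FF_le H y).trans ?_
      rw [← hS]
      refine mul_le_mul_of_nonneg_left ?_ hS0
      rcases abs_cases y with ⟨h, _⟩ | ⟨h, _⟩ <;> rw [h]
      · have := Real.exp_pos ((-1) * y)
        rw [one_mul]
        linarith
      · have := Real.exp_pos (1 * y)
        rw [neg_one_mul]
        linarith
  have e0 : II z μ A γ s - ∫ y in (0 : ℝ)..(2 * s), (P y : ℂ) * Complex.exp (-(γ * Complex.I) * y) *
      (gs (Real.sqrt (s / 8)) (y - s) : ℂ) = (∫ y in Ioc 0 (2 * s), (FF z μ A y - P y) * e y * (g y : ℂ)) +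
      ∫ y in (Ioc 0 (2 * s))ᶜ, FF z μ A y * e y * (g y : ℂ) := by
    have h1 : II z μ A γ s = ∫ y, FF z μ A y * e y * (g y : ℂ) := by
      unfold II; rw [he, hg]
    rw [h1, intervalIntegral.integral_of_le (by linarith), ← integral_add_compl (measurableSet_Ioc (a := (0 : ℝ)) (b := 2 * s)) hFint]
    have h2 : ∫ y in Ioc 0 (2 * s), (FF z μ A y - P y) * e y * (g y : ℂ) =
        (∫ y in Ioc 0 (2 * s), FF z μ A y * e y * (g y : ℂ)) -
          ∫ y in Ioc 0 (2 * s), (P y : ℂ) * e y * (g y : ℂ) := by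
      rw [← integral_sub hFint.integrableOn]
      · refine integral_congr_ae (Eventually.of_forall fun y => ?_)
        ring
      · have : Continuous fun y : ℝ => (P y : ℂ) * e y * (g y : ℂ) :=
          (hPc.mul hec).mul (Complex.continuous_ofReal.comp hgc)
        exact this.integrableOn_Ioc
    rw [h2, he, hg]
    ring
  rw [e0]
  refine (norm_add_le _ _).trans (add_le_add ?_ ?_)
  · calc ‖∫ y in Ioc 0 (2 * s), (FF z μ A y - P y) * e y * (g y : ℂ)‖
        ≤ ∫ y in Ioc 0 (2 * s), C0 * g y := by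
          refine norm_integral_le_of_norm_le ?_ ?_
          · exact (continuous_const.mul hgc).integrableOn_Ioc
          · refine (ae_restrict_iff' measurableSet_Ioc).2 (Eventually.of_forall fun y hy => ?_)
            rw [norm_mul, norm_mul, hen, mul_one, Complex.norm_real, Real.norm_of_nonneg (hg0 y).le]
            exact mul_le_mul_of_nonneg_right (hC0 y hy.1.le) (hg0 y).le
      _ ≤ C0 := by
          rw [integral_const_mul]
          have h1 : ∫ y in Ioc 0 (2 * s), g y ≤ ∫ y, g y := by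
            refine setIntegral_le_integral ?_ (Eventually.of_forall fun y => (hg0 y).le)
            have := (gauss_exp hε s 0).1
            rw [hg]
            simpa using this
          have h2 : ∫ y, g y = 1 := by
            have := (gauss_exp hε s 0).2
            rw [hg]
            simpa using this
          nlinarith
  · calc ‖∫ y in (Ioc 0 (2 * s))ᶜ, FF z μ A y * e y * (g y : ℂ)‖
        ≤ ∫ y in (Ioc 0 (2 * s))ᶜ, h y := by
          refine norm_integral_le_of_norm_le hhi.integrableOn ?_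
          refine (ae_restrict_iff' measurableSet_Ioc.compl).2 (Eventually.of_forall fun y hy => ?_)
          rw [norm_mul, norm_mul, hen, mul_one, Complex.norm_real, Real.norm_of_nonneg (hg0 y).le, hh]
          simp only
          rw [← mul_assoc (Real.exp (-(6 * s))), ← add_mul, ← mul_assoc]
          refine mul_le_mul_of_nonneg_right ?_ (hg0 y).le
          refine (FF_le H y).trans ?_
          rw [← hS]
          refine mul_le_mul_of_nonneg_left ?_ hS0
          rw [Set.mem_compl_iff, Set.mem_Ioc, not_and_or, not_lt, not_le] at hy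
          rcases hy with hy | hy
          · rw [abs_of_nonpos hy, neg_one_mul]
            have : 0 < Real.exp (-(6 * s)) * Real.exp (4 * y) := by positivity
            linarith
          · rw [abs_of_nonneg (by linarith), ← Real.exp_add]
            have h1 : Real.exp y ≤ Real.exp (-(6 * s) + 4 * y) := Real.exp_le_exp.2 (by linarith)
            have := Real.exp_pos ((-1) * y)
            linarith
      _ ≤ ∫ y, h y := setIntegral_le_integral hhi (Eventually.of_forall hh0)
      _ ≤ 2 * S := hhv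

/-- the growth rate without the frequency -/
noncomputable def rr (z : ℂ) : ℝ := z.re + z.re ^ 2 / 16

/-- the growth rate at the frequency `γ` -/
noncomputable def hh (z : ℂ) (γ : ℝ) : ℝ := rr z - (z.im - γ) ^ 2 / 16

lemma exp_re (z : ℂ) (γ s : ℝ) : ((z - γ * Complex.I) * s + (s / 8 : ℝ) * (z - γ * Complex.I) ^ 2 / 2).re =
    s * hh z γ := by
  unfold hh rr
  have e1 : ((z - γ * Complex.I) * s + (s / 8 : ℝ) * (z - γ * Complex.I) ^ 2 / 2) =
      ((s : ℝ) : ℂ) * (z - γ * Complex.I) + ((s / 16 : ℝ) : ℂ) * ((z - γ * Complex.I) * (z - γ * Complex.I)) := by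
    push_cast; ring
  rw [e1, Complex.add_re, Complex.re_ofReal_mul, Complex.re_ofReal_mul, Complex.mul_re]
  simp
  ring

lemma rr_bd (H : Sys z μ A P) (k : K) : |rr (z k)| ≤ 1 := by
  unfold rr
  have h1 := abs_le.1 (H.str k)
  rw [abs_le]
  constructor <;> nlinarith

lemma rr_inj (H : Sys z μ A P) {k l : K} (h : rr (z k) = rr (z l)) : (z k).re = (z l).re := by
  unfold rr at h
  have h1 := abs_le.1 (H.str k)
  have h2 := abs_le.1 (H.str l)
  have e : ((z k).re - (z l).re) * (1 + ((z k).re + (z l).re) / 16) = 0 := by linarith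
  rcases mul_eq_zero.1 e with h | h
  · linarith
  · linarith

lemma exists_max (H : Sys z μ A P) (k0 : K) {c : ℝ} (hc : 0 < c) (γ : ℝ) :
    ∃ k1, ∀ k, rr (z k) - c * ((z k).im - γ) ^ 2 ≤ rr (z k1) - c * ((z k1).im - γ) ^ 2 := by
  obtain ⟨f, hf⟩ : ∃ f : K → ℝ, f = fun k => rr (z k) - c * ((z k).im - γ) ^ 2 := ⟨_, rfl⟩
  have hfin : {k | f k0 ≤ f k}.Finite := by
    refine (H.fin (1 / 2 + (|γ| + (1 + (1 - f k0) / c)))).subset fun k hk => ?_
    have h1 : f k0 ≤ f k := hk
    have h2 : f k = rr (z k) - c * ((z k).im - γ) ^ 2 := by rw [hf]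
    have h3 := (abs_le.1 (rr_bd H k)).2
    have h4 : ((z k).im - γ) ^ 2 ≤ (1 - f k0) / c := by
      rw [le_div_iff₀ hc]
      nlinarith
    have h5 : |(z k).im - γ| ≤ 1 + (1 - f k0) / c := by
      rw [← sq_abs] at h4
      nlinarith [abs_nonneg ((z k).im - γ), sq_nonneg (|(z k).im - γ| - 1)]
    have h6 : |(z k).im| ≤ |γ| + (1 + (1 - f k0) / c) := by
      have := abs_sub_abs_le_abs_sub (z k).im γ
      linarith
    show ‖z k‖ ≤ _
    exact (Complex.norm_le_abs_re_add_abs_im _).trans (add_le_add (H.str k) h6)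
  obtain ⟨k1, hk1, hmax⟩ := hfin.exists_maximalFor f _ ⟨k0, (le_rfl : f k0 ≤ f k0)⟩
  refine ⟨k1, fun k => ?_⟩
  have h1 : f k ≤ f k1 := by
    by_contra hcon
    push Not at hcon
    have h2 : f k0 ≤ f k1 := hk1
    exact absurd (hmax (show k ∈ {k | f k0 ≤ f k} from h2.trans hcon.le) hcon.le) (not_le.2 hcon)
  simpa only [hf] using h1

lemma exists_gap (H : Sys z μ A P) {γ : ℝ} {k1 : K} (h : ∀ k, z k ≠ z k1 → hh (z k) γ < hh (z k1) γ) :
    ∃ g : ℝ, 0 < g ∧ ∀ k, z k ≠ z k1 → hh (z k) γ ≤ hh (z k1) γ - g := by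
  obtain ⟨T, hT⟩ : ∃ T : Set K, T = {k | z k ≠ z k1 ∧ hh (z k1) γ - 1 ≤ hh (z k) γ} := ⟨_, rfl⟩
  have hfin : T.Finite := by
    refine (H.fin (1 / 2 + (|γ| + (1 + 16 * (2 - hh (z k1) γ))))).subset fun k hk => ?_
    rw [hT] at hk
    have h2 : hh (z k) γ = rr (z k) - ((z k).im - γ) ^ 2 / 16 := rfl
    have h3 := (abs_le.1 (rr_bd H k)).2
    have h4 : ((z k).im - γ) ^ 2 ≤ 16 * (2 - hh (z k1) γ) := by
      have := hk.2
      linarith
    have h5 : |(z k).im - γ| ≤ 1 + 16 * (2 - hh (z k1) γ) := by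
      rw [← sq_abs] at h4
      nlinarith [abs_nonneg ((z k).im - γ), sq_nonneg (|(z k).im - γ| - 1)]
    have h6 : |(z k).im| ≤ |γ| + (1 + 16 * (2 - hh (z k1) γ)) := by
      have := abs_sub_abs_le_abs_sub (z k).im γ
      linarith
    show ‖z k‖ ≤ _
    exact (Complex.norm_le_abs_re_add_abs_im _).trans (add_le_add (H.str k) h6)
  rcases T.eq_empty_or_nonempty with h0 | h0
  · refine ⟨1, one_pos, fun k hk => ?_⟩
    by_contra hcon
    push Not at hcon
    have : k ∈ T := by rw [hT]; exact ⟨hk, hcon.le⟩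
    rw [h0] at this
    exact this
  · obtain ⟨k2, hk2, hmax⟩ := hfin.exists_maximalFor (fun k => hh (z k) γ) _ h0
    have hlt : hh (z k2) γ < hh (z k1) γ := h k2 (by rw [hT] at hk2; exact hk2.1)
    refine ⟨min 1 (hh (z k1) γ - hh (z k2) γ), lt_min one_pos (by linarith), fun k hk => ?_⟩
    by_cases hkT : k ∈ T
    · have h1 : hh (z k) γ ≤ hh (z k2) γ := by
        by_contra hcon
        push Not at hcon
        exact absurd (hmax hkT hcon.le) (not_le.2 hcon)
      have := min_le_right 1 (hh (z k1) γ - hh (z k2) γ)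
      linarith
    · rw [hT] at hkT
      have h1 : ¬ (hh (z k1) γ - 1 ≤ hh (z k) γ) := fun hc => hkT ⟨hk, hc⟩
      push Not at h1
      have := min_le_left 1 (hh (z k1) γ - hh (z k2) γ)
      linarith

lemma II_le (H : Sys z μ A P) {γ M s : ℝ} (hs : 0 < s) (hM : ∀ k, hh (z k) γ ≤ M) :
    ‖II z μ A γ s‖ ≤ (∑' k, μ k * ‖A (z k)‖) * Real.exp (s * M) := by
  rw [II_eq H γ hs, ← tsum_mul_right]
  refine tsum_of_norm_bounded (H.sum.mul_right (Real.exp (s * M))).hasSum fun k => ?_
  rw [norm_mul, norm_cf H, Complex.norm_exp, exp_re]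
  refine mul_le_mul_of_nonneg_left (Real.exp_le_exp.2 ?_) (mul_nonneg (H.pos k).le (norm_nonneg _))
  exact mul_le_mul_of_nonneg_left (hM k) hs.le

open Classical in
/-- the total mass at `w` -/
noncomputable def mm (z : K → ℂ) (μ : K → ℝ) (w : ℂ) : ℝ := ∑' k, if z k = w then μ k else 0

open Classical in
lemma mm_pos (H : Sys z μ A P) (k1 : K) : 0 < mm z μ (z k1) ∧ Summable (fun k => if z k = z k1 then μ k else 0) := by
  have hfin : {k | z k = z k1}.Finite := (H.fin ‖z k1‖).subset fun k hk => by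
    show ‖z k‖ ≤ ‖z k1‖
    rw [show z k = z k1 from hk]
  have hs : Summable (fun k => if z k = z k1 then μ k else 0) :=
    summable_of_hasFiniteSupport (hfin.subset fun k hk => by
      by_contra hc
      have hc : z k ≠ z k1 := hc
      exact hk (if_neg hc))
  refine ⟨?_, hs⟩
  have h1 := hs.le_tsum k1 (fun k _ => by
    show (0 : ℝ) ≤ if z k = z k1 then μ k else 0
    split_ifs
    · exact (H.pos k).le
    · exact le_rfl)
  have h2 : (if z k1 = z k1 then μ k1 else 0) = μ k1 := if_pos rfl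
  rw [h2] at h1
  exact (H.pos k1).trans_le h1

lemma II_main (H : Sys z μ A P) {γ g : ℝ} {k1 : K}
    (h : ∀ k, z k ≠ z k1 → hh (z k) γ ≤ hh (z k1) γ - g) {s : ℝ} (hs : 0 < s) :
    ‖II z μ A γ s - mm z μ (z k1) * A (z k1) * Complex.exp ((z k1 - γ * Complex.I) * s +
      (s / 8 : ℝ) * (z k1 - γ * Complex.I) ^ 2 / 2)‖ ≤
      (∑' k, μ k * ‖A (z k)‖) * Real.exp (s * (hh (z k1) γ - g)) := by
  classical
  obtain ⟨hm, hms⟩ := mm_pos H k1
  have hsum : Summable fun k => (μ k : ℂ) * A (z k) * Complex.exp ((z k - γ * Complex.I) * s +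
      (s / 8 : ℝ) * (z k - γ * Complex.I) ^ 2 / 2) := by
    refine Summable.of_norm_bounded (H.sum.mul_right (Real.exp (s * max (hh (z k1) γ) (hh (z k1) γ - g)))) fun k => ?_
    rw [norm_mul, norm_cf H, Complex.norm_exp, exp_re]
    refine mul_le_mul_of_nonneg_left (Real.exp_le_exp.2 ?_) (mul_nonneg (H.pos k).le (norm_nonneg _))
    refine mul_le_mul_of_nonneg_left ?_ hs.le
    by_cases hk : z k = z k1
    · rw [hk]; exact le_max_left _ _
    · exact (h k hk).trans (le_max_right _ _)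
  have e1 : (mm z μ (z k1) : ℂ) * A (z k1) * Complex.exp ((z k1 - γ * Complex.I) * s +
      (s / 8 : ℝ) * (z k1 - γ * Complex.I) ^ 2 / 2) = ∑' k, if z k = z k1 then (μ k : ℂ) * A (z k) *
        Complex.exp ((z k - γ * Complex.I) * s + (s / 8 : ℝ) * (z k - γ * Complex.I) ^ 2 / 2) else 0 := by
    unfold mm
    rw [Complex.ofReal_tsum, ← tsum_mul_right, ← tsum_mul_right]
    refine tsum_congr fun k => ?_
    split_ifs with hk
    · rw [hk]
    · simp
  have hs2 : Summable fun k => if z k = z k1 then (μ k : ℂ) * A (z k) *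
        Complex.exp ((z k - γ * Complex.I) * s + (s / 8 : ℝ) * (z k - γ * Complex.I) ^ 2 / 2) else 0 :=
    hsum.indicator {k | z k = z k1}
  rw [II_eq H γ hs, e1, ← hsum.tsum_sub hs2, ← tsum_mul_right]
  refine tsum_of_norm_bounded (H.sum.mul_right _).hasSum fun k => ?_
  by_cases hk : z k = z k1
  · rw [if_pos hk, sub_self, norm_zero]
    exact mul_nonneg (mul_nonneg (H.pos k).le (norm_nonneg _)) (Real.exp_pos _).le
  · rw [if_neg hk, sub_zero, norm_mul, norm_cf H, Complex.norm_exp, exp_re]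
    refine mul_le_mul_of_nonneg_left (Real.exp_le_exp.2 ?_) (mul_nonneg (H.pos k).le (norm_nonneg _))
    exact mul_le_mul_of_nonneg_left (h k hk) hs.le

/-- **The two cases**: either a real exponent dominates, or a frequency dominates the mean. -/
lemma cases (H : Sys z μ A P) (h0 : ∃ k, 0 < (z k).re) : ∃ (γ c η : ℝ), 0 < c ∧ 0 < η ∧
    ((∀ᶠ s : ℝ in atTop, c * Real.exp (η * s) ≤ (II z μ A 0 s).re) ∨
      ∀ᶠ s : ℝ in atTop, c * Real.exp (η * s) ≤ ‖II z μ A γ s‖ - ‖II z μ A 0 s‖) := by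
  obtain ⟨k0, hk0⟩ := h0
  obtain ⟨S, hS⟩ : ∃ S : ℝ, S = ∑' k, μ k * ‖A (z k)‖ := ⟨_, rfl⟩
  have hS0 : 0 ≤ S := by
    rw [hS]; exact tsum_nonneg fun k => mul_nonneg (H.pos k).le (norm_nonneg _)
  have hr0 : 0 < rr (z k0) := by
    unfold rr
    positivity
  have hdec : ∀ (b g : ℝ), 0 < b → 0 < g → ∀ᶠ s : ℝ in atTop, 2 * S * Real.exp (-(g * s)) ≤ b / 2 := by
    intro b g hb hg
    have h1 : Tendsto (fun s : ℝ => 2 * S * Real.exp (-(g * s))) atTop (𝓝 (2 * S * 0)) := by
      refine Tendsto.const_mul _ (Real.tendsto_exp_neg_atTop_nhds_zero.comp ?_)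
      exact tendsto_id.const_mul_atTop hg
    rw [mul_zero] at h1
    exact (h1.eventually (gt_mem_nhds (by linarith : (0 : ℝ) < b / 2))).mono fun s hs => hs.le
  obtain ⟨ks, hks⟩ := exists_max H k0 (by norm_num : (0 : ℝ) < 1 / 16) 0
  have hks' : ∀ k, hh (z k) 0 ≤ hh (z ks) 0 := fun k => by
    unfold hh
    have := hks k
    linarith
  by_cases hA : ∃ k1, hh (z ks) 0 < rr (z k1) ∧ 0 < rr (z k1)
  · -- a frequency dominates
    obtain ⟨k1, h1, h1'⟩ := hA
    obtain ⟨k2, hk2⟩ := exists_max H k0 (by norm_num : (0 : ℝ) < 1 / 32) (z k1).im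
    obtain ⟨γ, hγ⟩ : ∃ γ : ℝ, γ = ((z k2).im + (z k1).im) / 2 := ⟨_, rfl⟩
    have h3 : rr (z k1) ≤ hh (z k2) γ := by
      have h4 := hk2 k1
      unfold hh
      rw [hγ]
      rw [sub_self] at h4
      nlinarith [sq_nonneg ((z k2).im - (z k1).im)]
    have h5 : ∀ k, hh (z k) γ ≤ hh (z k2) γ - ((z k).im - (z k2).im) ^ 2 / 32 := by
      intro k
      have h4 := hk2 k
      unfold hh
      rw [hγ]
      nlinarith [sq_nonneg ((z k2).im - (z k1).im)]
    obtain ⟨g, hg, hgap⟩ := exists_gap H (γ := γ) (k1 := k2) (fun k hk => by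
      rcases eq_or_ne (z k).im (z k2).im with h6 | h6
      · refine lt_of_le_of_ne ?_ fun h7 => hk ?_
        · have := h5 k
          rw [h6] at this
          linarith
        · have h8 : rr (z k) = rr (z k2) := by
            unfold hh at h7
            rw [h6] at h7
            linarith
          exact Complex.ext (rr_inj H h8) h6
      · have h7 := h5 k
        have h8 : 0 < ((z k).im - (z k2).im) ^ 2 := by
          have := sub_ne_zero.2 h6
          positivity
        linarith)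
    obtain ⟨hm, -⟩ := mm_pos H k2
    obtain ⟨b, hb⟩ : ∃ b : ℝ, b = mm z μ (z k2) * ‖A (z k2)‖ := ⟨_, rfl⟩
    have hb0 : 0 < b := by rw [hb]; exact mul_pos hm (norm_pos_iff.2 (H.ne k2))
    obtain ⟨g', hg'⟩ : ∃ g' : ℝ, g' = min g (hh (z k2) γ - hh (z ks) 0) := ⟨_, rfl⟩
    have hg'0 : 0 < g' := by rw [hg']; exact lt_min hg (by linarith)
    refine ⟨γ, b / 2, hh (z k2) γ, by linarith, by linarith, Or.inr ?_⟩
    filter_upwards [hdec b g' hb0 hg'0, eventually_gt_atTop (0 : ℝ)] with s hs1 hs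
    have h6 := II_main H hgap hs
    have h7 := II_le H (γ := 0) hs hks'
    rw [← hS] at h6 h7
    have h8 : ‖(mm z μ (z k2) : ℂ) * A (z k2) * Complex.exp ((z k2 - γ * Complex.I) * s +
      (s / 8 : ℝ) * (z k2 - γ * Complex.I) ^ 2 / 2)‖ = b * Real.exp (s * hh (z k2) γ) := by
      rw [norm_mul, norm_mul, Complex.norm_real, Real.norm_of_nonneg hm.le, Complex.norm_exp, exp_re, hb]
    have h9 := norm_sub_norm_le ((mm z μ (z k2) : ℂ) * A (z k2) * Complex.exp ((z k2 - γ * Complex.I) * s +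
      (s / 8 : ℝ) * (z k2 - γ * Complex.I) ^ 2 / 2)) (II z μ A γ s)
    rw [norm_sub_rev, h8] at h9
    have h10 : Real.exp (s * (hh (z k2) γ - g)) ≤ Real.exp (-(g' * s)) * Real.exp (s * hh (z k2) γ) := by
      rw [← Real.exp_add]
      refine Real.exp_le_exp.2 ?_
      have : g' ≤ g := by rw [hg']; exact min_le_left _ _
      nlinarith
    have h11 : Real.exp (s * hh (z ks) 0) ≤ Real.exp (-(g' * s)) * Real.exp (s * hh (z k2) γ) := by
      rw [← Real.exp_add]
      refine Real.exp_le_exp.2 ?_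
      have : g' ≤ hh (z k2) γ - hh (z ks) 0 := by rw [hg']; exact min_le_right _ _
      nlinarith
    have h12 := mul_le_mul_of_nonneg_left h10 hS0
    have h13 := mul_le_mul_of_nonneg_left h11 hS0
    have h14 := mul_le_mul_of_nonneg_right hs1 (Real.exp_pos (s * hh (z k2) γ)).le
    have h15 : Real.exp (hh (z k2) γ * s) = Real.exp (s * hh (z k2) γ) := by rw [mul_comm]
    rw [h15]
    nlinarith
  · -- a real exponent dominates
    push Not at hA
    have hM0 : 0 < hh (z ks) 0 := by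
      by_contra hcon
      push Not at hcon
      have := hA k0 (hcon.trans_lt hr0)
      linarith
    have hle : ∀ k, rr (z k) ≤ hh (z ks) 0 := by
      intro k
      by_contra hcon
      push Not at hcon
      have := hA k hcon
      linarith
    have him : (z ks).im = 0 := by
      have h1 := hle ks
      unfold hh at h1
      rw [sub_zero] at h1
      have h2 := sq_nonneg (z ks).im
      have h3 : (z ks).im ^ 2 = 0 := by linarith
      exact pow_eq_zero_iff (two_ne_zero) |>.1 h3
    have hrs : hh (z ks) 0 = rr (z ks) := by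
      unfold hh
      rw [him]
      ring
    obtain ⟨g, hg, hgap⟩ := exists_gap H (γ := 0) (k1 := ks) (fun k hk => by
      refine lt_of_le_of_ne (hks' k) fun h7 => hk ?_
      have h8 := hle k
      have h9 : (z k).im ^ 2 = 0 := by
        have h10 : hh (z k) 0 = rr (z k) - ((z k).im - 0) ^ 2 / 16 := rfl
        rw [sub_zero] at h10
        have := sq_nonneg (z k).im
        linarith
      have h11 : (z k).im = 0 := pow_eq_zero_iff (two_ne_zero) |>.1 h9
      have h12 : rr (z k) = rr (z ks) := by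
        rw [← hrs, ← h7]
        unfold hh
        rw [h11]
        ring
      exact Complex.ext (rr_inj H h12) (h11.trans him.symm))
    obtain ⟨hm, -⟩ := mm_pos H ks
    obtain ⟨hre, hAim⟩ := H.real ks him
    obtain ⟨b, hb⟩ : ∃ b : ℝ, b = mm z μ (z ks) * (A (z ks)).re := ⟨_, rfl⟩
    have hb0 : 0 < b := by rw [hb]; exact mul_pos hm hre
    refine ⟨0, b / 2, hh (z ks) 0, by linarith, hM0, Or.inl ?_⟩
    filter_upwards [hdec b g hb0 hg, eventually_gt_atTop (0 : ℝ)] with s hs1 hs
    have h6 := II_main H hgap hs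
    rw [← hS] at h6
    have h7 : Complex.exp ((z ks - (0 : ℝ) * Complex.I) * s + (s / 8 : ℝ) * (z ks - (0 : ℝ) * Complex.I) ^ 2 / 2) =
        ((Real.exp (s * hh (z ks) 0) : ℝ) : ℂ) := by
      rw [Complex.ofReal_exp]
      congr 1
      apply Complex.ext
      · rw [exp_re, Complex.ofReal_re]
      · rw [Complex.ofReal_im]
        have e1 : z ks = (((z ks).re : ℝ) : ℂ) := Complex.ext rfl (by simpa using him)
        have e2 : ((z ks - (0 : ℝ) * Complex.I) * s + (s / 8 : ℝ) * (z ks - (0 : ℝ) * Complex.I) ^ 2 / 2) =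
            (((z ks).re * s + (s / 8) * (z ks).re ^ 2 / 2 : ℝ) : ℂ) := by
          obtain ⟨x, hx⟩ : ∃ x : ℝ, x = (z ks).re := ⟨_, rfl⟩
          rw [← hx] at e1 ⊢
          rw [e1]; push_cast; ring
        rw [e2, Complex.ofReal_im]
    have h8 : ((mm z μ (z ks) : ℂ) * A (z ks) * Complex.exp ((z ks - (0 : ℝ) * Complex.I) * s +
      (s / 8 : ℝ) * (z ks - (0 : ℝ) * Complex.I) ^ 2 / 2)).re = b * Real.exp (s * hh (z ks) 0) := by
      rw [h7, Complex.re_mul_ofReal, Complex.re_ofReal_mul, hb]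
    have h9 := (Complex.abs_re_le_norm _).trans h6
    rw [Complex.sub_re, h8] at h9
    have h9' := (abs_le.1 h9).1
    have h10 : Real.exp (s * (hh (z ks) 0 - g)) ≤ Real.exp (-(g * s)) * Real.exp (s * hh (z ks) 0) := by
      rw [← Real.exp_add]
      refine Real.exp_le_exp.2 ?_
      nlinarith
    have h12 := mul_le_mul_of_nonneg_left h10 hS0
    have h14 := mul_le_mul_of_nonneg_right hs1 (Real.exp_pos (s * hh (z ks) 0)).le
    have h15 : Real.exp (hh (z ks) 0 * s) = Real.exp (s * hh (z ks) 0) := by rw [mul_comm]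
    have h16 : 0 ≤ S * (Real.exp (-(g * s)) * Real.exp (s * hh (z ks) 0)) := by positivity
    rw [h15]
    nlinarith

/-- the comparison of the exponential with weights -/
lemma em_ge (hP : Continuous P) {κ : ℝ} (hκ : 0 < κ) {s : ℝ} (hs : 0 < s) {w : ℝ → ℝ} (hw : Continuous w)
    (h0 : ∀ y, 0 ≤ w y) (h1 : ∀ y, w y ≤ 1) :
    κ / (2 * s) * ∫ y in (0 : ℝ)..(2 * s), P y * w y ≤ EM P κ (2 * s) := by
  unfold EM
  have h2 : κ * ∫ y in (0 : ℝ)..(2 * s), P y * w y ≤ ∫ y in (0 : ℝ)..(2 * s), Real.exp (κ * P y) := by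
    rw [← intervalIntegral.integral_const_mul]
    refine intervalIntegral.integral_mono_on (by linarith)
      ((continuous_const.mul (hP.mul hw)).intervalIntegrable _ _)
      ((Real.continuous_exp.comp (continuous_const.mul hP)).intervalIntegrable _ _) fun y _ => ?_
    have h3 := Real.add_one_le_exp (κ * P y)
    have h4 := Real.exp_pos (κ * P y)
    rcases le_total (P y) 0 with h5 | h5
    · have : κ * (P y * w y) ≤ 0 := mul_nonpos_of_nonneg_of_nonpos hκ.le (mul_nonpos_of_nonpos_of_nonneg h5 (h0 y))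
      linarith
    · have h6 : P y * w y ≤ P y := mul_le_of_le_one_right h5 (h1 y)
      have := mul_le_mul_of_nonneg_left h6 hκ.le
      linarith
  calc κ / (2 * s) * ∫ y in (0 : ℝ)..(2 * s), P y * w y
      = 1 / (2 * s) * (κ * ∫ y in (0 : ℝ)..(2 * s), P y * w y) := by ring
    _ ≤ _ := mul_le_mul_of_nonneg_left h2 (by positivity)

/-- **A growing term makes the exponential moments tend to infinity.** -/
theorem em_atTop (H : Sys z μ A P) (h0 : ∃ k, 0 < (z k).re) {κ : ℝ} (hκ : 0 < κ) :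
    Tendsto (EM P κ) atTop atTop := by
  obtain ⟨γ, c, η, hc, hη, hcase⟩ := cases H h0
  obtain ⟨C, hC⟩ := cut H
  have hC0 : 0 ≤ C := (norm_nonneg _).trans (hC 0 1 one_pos)
  -- the lower bound along `2 s`
  have key : ∀ᶠ s : ℝ in atTop, κ / (2 * s) * (c * Real.exp (η * s) - 2 * C) ≤ EM P κ (2 * s) := by
    have hsmall : ∀ s : ℝ, 6 ≤ s → 2 * (1 / (Real.sqrt (s / 8) * Real.sqrt (2 * Real.pi))) ≤ 1 := by
      intro s hs
      rw [← Real.sqrt_mul (by linarith)]
      have h1 : 2 ≤ Real.sqrt (s / 8 * (2 * Real.pi)) := by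
        rw [show (2 : ℝ) = Real.sqrt 4 by
          rw [show (4 : ℝ) = 2 ^ 2 by norm_num]; exact (Real.sqrt_sq (by norm_num)).symm]
        apply Real.sqrt_le_sqrt
        have := Real.pi_gt_three
        nlinarith
      rw [mul_one_div, div_le_one (by linarith)]
      exact h1
    have hcont : ∀ s : ℝ, Continuous fun y => gs (Real.sqrt (s / 8)) (y - s) := fun s =>
      (gs_cont _).comp (continuous_id.sub continuous_const)
    have hII0 : ∀ s : ℝ, 0 < s → ‖II z μ A 0 s - ((∫ y in (0 : ℝ)..(2 * s), P y *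
        gs (Real.sqrt (s / 8)) (y - s) : ℝ) : ℂ)‖ ≤ C := by
      intro s hs
      have h1 := hC 0 s hs
      have e1 : ((∫ y in (0 : ℝ)..(2 * s), P y * gs (Real.sqrt (s / 8)) (y - s) : ℝ) : ℂ) =
          ∫ y in (0 : ℝ)..(2 * s), (P y : ℂ) * Complex.exp (-((0 : ℝ) * Complex.I) * y) *
            (gs (Real.sqrt (s / 8)) (y - s) : ℂ) := by
        rw [← intervalIntegral.integral_ofReal]
        refine intervalIntegral.integral_congr fun y _ => ?_
        simp
      rw [e1]
      exact h1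
    rcases hcase with h | h
    · filter_upwards [h, eventually_ge_atTop (6 : ℝ)] with s h1 hs
      have hs0 : 0 < s := by linarith
      have hε : 0 < Real.sqrt (s / 8) := Real.sqrt_pos.2 (by linarith)
      refine le_trans (mul_le_mul_of_nonneg_left ?_ (by positivity)) (em_ge H.cont hκ hs0 (hcont s)
        (fun y => (gs_pos hε _).le) fun y => ?_)
      · have h2 := (Complex.abs_re_le_norm _).trans (hII0 s hs0)
        rw [Complex.sub_re, Complex.ofReal_re] at h2
        have := (abs_le.1 h2).2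
        linarith
      · have h2 := gs_le hε (y - s)
        have h3 := hsmall s hs
        have h4 := gs_pos hε (y - s)
        linarith
    · filter_upwards [h, eventually_ge_atTop (6 : ℝ)] with s h1 hs
      have hs0 : 0 < s := by linarith
      have hε : 0 < Real.sqrt (s / 8) := Real.sqrt_pos.2 (by linarith)
      obtain ⟨J, hJ⟩ : ∃ J : ℂ, J = ∫ y in (0 : ℝ)..(2 * s), (P y : ℂ) * Complex.exp (-(γ * Complex.I) * y) *
            (gs (Real.sqrt (s / 8)) (y - s) : ℂ) := ⟨_, rfl⟩
      obtain ⟨φ, hφ⟩ : ∃ φ : ℝ, φ = Complex.arg J := ⟨_, rfl⟩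
      obtain ⟨w, hw⟩ : ∃ w : ℝ → ℝ, w = fun y => (1 + Real.cos (γ * y + φ)) *
        gs (Real.sqrt (s / 8)) (y - s) := ⟨_, rfl⟩
      have hwc : Continuous w := by
        rw [hw]
        exact (by fun_prop : Continuous fun y : ℝ => 1 + Real.cos (γ * y + φ)).mul (hcont s)
      refine le_trans (mul_le_mul_of_nonneg_left ?_ (by positivity)) (em_ge H.cont hκ hs0 hwc
        (fun y => ?_) fun y => ?_)
      · -- the integral
        have h2 := hII0 s hs0
        have h3 := hC γ s hs0
        rw [← hJ] at h3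
        have hi1 : IntervalIntegrable (fun y => P y * gs (Real.sqrt (s / 8)) (y - s)) volume 0 (2 * s) :=
          (H.cont.mul (hcont s)).intervalIntegrable _ _
        have hcos : Continuous fun y : ℝ => Real.cos (γ * y + φ) := by fun_prop
        have hi2 : IntervalIntegrable (fun y => P y * (Real.cos (γ * y + φ) * gs (Real.sqrt (s / 8)) (y - s)))
            volume 0 (2 * s) := (H.cont.mul (hcos.mul (hcont s))).intervalIntegrable _ _
        have e1 : ∫ y in (0 : ℝ)..(2 * s), P y * w y = (∫ y in (0 : ℝ)..(2 * s), P y *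
            gs (Real.sqrt (s / 8)) (y - s)) + ∫ y in (0 : ℝ)..(2 * s), P y * (Real.cos (γ * y + φ) *
              gs (Real.sqrt (s / 8)) (y - s)) := by
          rw [← intervalIntegral.integral_add hi1 hi2, hw]
          refine intervalIntegral.integral_congr fun y _ => ?_
          ring
        have e2 : ∫ y in (0 : ℝ)..(2 * s), P y * (Real.cos (γ * y + φ) *
              gs (Real.sqrt (s / 8)) (y - s)) = ‖J‖ := by
          have e3 : (Complex.exp (-(φ * Complex.I)) * J) = (‖J‖ : ℂ) := by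
            conv_lhs => rw [← Complex.norm_mul_exp_arg_mul_I J, ← hφ]
            rw [mul_left_comm, ← Complex.exp_add]
            simp
          have e4 : (Complex.exp (-(φ * Complex.I)) * J).re = ‖J‖ := by rw [e3, Complex.ofReal_re]
          rw [← e4, hJ, ← intervalIntegral.integral_const_mul]
          have hcc : Continuous fun y : ℝ => Complex.exp (-(φ * Complex.I)) * ((P y : ℂ) *
              Complex.exp (-(γ * Complex.I) * y) * (gs (Real.sqrt (s / 8)) (y - s) : ℂ)) := by
            refine continuous_const.mul (((Complex.continuous_ofReal.comp H.cont).mul (by fun_prop)).mul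
              (Complex.continuous_ofReal.comp (hcont s)))
          have e5 := intervalIntegral.intervalIntegral_re (hcc.intervalIntegrable (μ := volume) 0 (2 * s))
          refine Eq.trans ?_ e5
          refine intervalIntegral.integral_congr fun y _ => ?_
          show P y * (Real.cos (γ * y + φ) * gs (Real.sqrt (s / 8)) (y - s)) = _
          have e6 : Complex.exp (-(φ * Complex.I)) * ((P y : ℂ) *
              Complex.exp (-(γ * Complex.I) * y) * (gs (Real.sqrt (s / 8)) (y - s) : ℂ)) =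
              ((P y * gs (Real.sqrt (s / 8)) (y - s) : ℝ) : ℂ) *
                Complex.exp (((-(γ * y + φ) : ℝ) : ℂ) * Complex.I) := by
            have e7 : (((-(γ * y + φ) : ℝ) : ℂ) * Complex.I) = -(φ * Complex.I) + -(γ * Complex.I) * y := by
              push_cast; ring
            rw [e7, Complex.exp_add]
            push_cast
            ring
          show _ = (Complex.exp (-(φ * Complex.I)) * ((P y : ℂ) *
              Complex.exp (-(γ * Complex.I) * y) * (gs (Real.sqrt (s / 8)) (y - s) : ℂ))).re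
          rw [e6, Complex.re_ofReal_mul, Complex.exp_ofReal_mul_I_re, Real.cos_neg]
          ring
        rw [e1, e2]
        have h4 := norm_sub_norm_le (II z μ A γ s) J
        obtain ⟨J0, hJ0⟩ : ∃ J0 : ℝ, J0 = ∫ y in (0 : ℝ)..(2 * s), P y *
            gs (Real.sqrt (s / 8)) (y - s) := ⟨_, rfl⟩
        rw [← hJ0] at h2 ⊢
        have h5 := norm_sub_norm_le (J0 : ℂ) (II z μ A 0 s)
        rw [norm_sub_rev, Complex.norm_real, Real.norm_eq_abs] at h5
        have h6 := neg_abs_le J0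
        linarith
      · rw [hw]
        have := Real.neg_one_le_cos (γ * y + φ)
        exact mul_nonneg (by linarith) (gs_pos hε _).le
      · rw [hw]
        have h2 := Real.cos_le_one (γ * y + φ)
        have h3 := gs_le hε (y - s)
        have h4 := hsmall s hs
        have h5 := gs_pos hε (y - s)
        show (1 + Real.cos (γ * y + φ)) * gs (Real.sqrt (s / 8)) (y - s) ≤ 1
        nlinarith
  -- to infinity
  have hlim : Tendsto (fun s : ℝ => κ / (2 * s) * (c * Real.exp (η * s) - 2 * C)) atTop atTop := by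
    have h1 : Tendsto (fun s : ℝ => Real.exp (η * s) / s) atTop atTop := by
      have h2 := tendsto_exp_mul_div_rpow_atTop 1 η hη
      refine h2.congr fun s => ?_
      rw [Real.rpow_one]
    have h3 : Tendsto (fun s : ℝ => κ * C / s) atTop (𝓝 0) := tendsto_const_nhds.div_atTop tendsto_id
    have h4 : Tendsto (fun s : ℝ => κ * c / 2 * (Real.exp (η * s) / s) + -(κ * C / s)) atTop atTop := by
      refine Filter.Tendsto.atTop_add (h1.const_mul_atTop (by positivity)) h3.neg
    refine h4.congr' ?_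
    filter_upwards [eventually_gt_atTop (0 : ℝ)] with s hs
    field_simp
    ring
  have h1 : Tendsto (fun s : ℝ => EM P κ (2 * s)) atTop atTop := tendsto_atTop_mono' _ key hlim
  have h2 : Tendsto (fun Y : ℝ => Y / 2) atTop atTop := tendsto_id.atTop_div_const (by norm_num)
  refine (h1.comp h2).congr fun Y => ?_
  show EM P κ (2 * (Y / 2)) = EM P κ Y
  congr 1
  ring

end

end Pool.Agent.H862.EL
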