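import Pool.Agent.H862.EL.Fam
import Pool.Agent.H862.VK.Zt
import Pool.Graph.R_pool_sql_team_seeded_63374d34.N804.LI.ZN

/-!
# The data for the Riemann zeta function
-/

set_option autoImplicit false

open Complex MeasureTheory Filter Topology Set
open scoped ComplexConjugate

namespace Pool.Agent.H862.EL

open Pool.Agent.N804.LI (EM I0)
open Pool.Agent.NH13.UV (Gr)
open Pool.Agent.H862.VK

/-- the weights of the zeros of a function of order `≤ 3/2` -/
lemma sm_of_growth {Y : ℂ → ℂ} (hY : Differentiable ℂ Y) (hg : Gr Y) {w0 : ℂ} (hw : Y w0 ≠ 0) :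
    Summable fun b : {b : ℂ // Y b = 0} => (analyticOrderNatAt Y (b : ℂ) : ℝ) * (1 / (1 + ‖(b : ℂ)‖) ^ 2) := by
  classical
  obtain ⟨K, hK, hgr⟩ := hg
  have hsh : ∀ u : ℂ, HasDerivAt (fun v : ℂ => v + w0) 1 u := fun u => (hasDerivAt_id u).add_const w0
  obtain ⟨F, hFdef⟩ : ∃ F : ℂ → ℂ, F = fun v => Y (v + w0) := ⟨_, rfl⟩
  have hF : Differentiable ℂ F := by
    rw [hFdef]
    exact hY.comp (differentiable_id.add_const w0)
  have hF0 : F 0 ≠ 0 := by
    rw [hFdef]
    simpa using hw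
  have hord : ∀ u, analyticOrderNatAt F u = analyticOrderNatAt Y (u + w0) := by
    intro u
    have h1 := analyticOrderAt_comp_of_deriv_ne_zero (f := Y) (g := fun v : ℂ => v + w0) (z₀ := u)
      (by fun_prop) (by rw [(hsh u).deriv]; exact one_ne_zero)
    rw [hFdef]
    unfold analyticOrderNatAt
    congr 1
  obtain ⟨K', hK'⟩ : ∃ K' : ℝ, K' = K * (1 + ‖w0‖) ^ (3 / 2 : ℝ) := ⟨_, rfl⟩
  have hK'0 : 0 < K' := by rw [hK']; positivity
  have hgr' : ∀ v, ‖F v‖ ≤ Real.exp (K' * (1 + ‖v‖) ^ (3 / 2 : ℝ)) := by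
    intro v
    rw [hFdef]
    refine (hgr _).trans (Real.exp_le_exp.2 ?_)
    rw [hK', mul_assoc, ← Real.mul_rpow (by positivity) (by positivity)]
    have h2 : 1 + ‖v + w0‖ ≤ (1 + ‖w0‖) * (1 + ‖v‖) := by
      have h3 := norm_add_le v w0
      have h4 : 0 ≤ ‖w0‖ * ‖v‖ := by positivity
      linarith
    gcongr
  obtain ⟨C, hC⟩ := VP.sum_le hF hF0 hK'0 hgr'
  refine summable_of_sum_le (c := (1 + ‖w0‖) ^ 2 * C) (fun b => by positivity) fun S => ?_
  calc ∑ b ∈ S, (analyticOrderNatAt Y (b : ℂ) : ℝ) * (1 / (1 + ‖(b : ℂ)‖) ^ 2)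
      ≤ ∑ b ∈ S, (1 + ‖w0‖) ^ 2 * ((analyticOrderNatAt F ((b : ℂ) - w0) : ℝ) *
          (1 / (1 + ‖(b : ℂ) - w0‖) ^ 2)) := by
        refine Finset.sum_le_sum fun b _ => ?_
        rw [hord, sub_add_cancel, mul_left_comm]
        refine mul_le_mul_of_nonneg_left ?_ (Nat.cast_nonneg _)
        rw [mul_one_div, div_le_div_iff₀ (by positivity) (by positivity), one_mul, ← mul_pow]
        have h1 : 1 + ‖(b : ℂ) - w0‖ ≤ (1 + ‖w0‖) * (1 + ‖(b : ℂ)‖) := by
          have h2 := norm_sub_le (b : ℂ) w0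
          have h3 : 0 ≤ ‖w0‖ * ‖(b : ℂ)‖ := by positivity
          linarith
        gcongr
    _ = (1 + ‖w0‖) ^ 2 * ∑ u ∈ S.image (fun b : {b : ℂ // Y b = 0} => (b : ℂ) - w0), ((analyticOrderNatAt F u : ℝ) *
          (1 / (1 + ‖u‖) ^ 2)) := by
        rw [Finset.sum_image (fun a _ b _ h => Subtype.ext (sub_left_inj.1 h)), Finset.mul_sum]
    _ ≤ (1 + ‖w0‖) ^ 2 * C := by
        refine mul_le_mul_of_nonneg_left (hC _) (by positivity)

lemma Yz_zero_ne : Yz 0 ≠ 0 := by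
  have h1 : (0 : ℂ) ≠ 1 / 2 := by norm_num
  rw [Yz_eq (by simp) h1]
  have h2 := Pool.Agent.N804.LI.zeta_real_ne (σ := 1 / 2) (by norm_num) (by norm_num)
  have e : ((1 / 2 : ℝ) : ℂ) = 1 / 2 + 0 := by push_cast; ring
  rw [e] at h2
  refine mul_ne_zero (mul_ne_zero (by norm_num) (Gammaℝ_ne_zero_of_re_pos (by simp))) (mul_ne_zero (by norm_num) h2)

lemma logGamma_diff {w : ℂ} (hw : 0 < w.re) : DifferentiableAt ℂ (logDeriv Gamma) w := by
  have hU : IsOpen {w : ℂ | 0 < w.re} := isOpen_lt continuous_const Complex.continuous_re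
  have h1 : DifferentiableOn ℂ Gamma {w : ℂ | 0 < w.re} := fun w hw =>
    (Complex.differentiableAt_Gamma w (Pool.Agent.NH13.UV.LDg.ne_neg_nat hw)).differentiableWithinAt
  have h2 := (h1.analyticOnNhd hU) w hw
  have h3 : Gamma w ≠ 0 := Complex.Gamma_ne_zero_of_re_pos hw
  exact (h2.deriv.div h2 h3).differentiableAt

lemma Gz_diff : DifferentiableOn ℂ Gz {z | -(1 / 2) < z.re} := by
  intro z hz
  have hz : -(1 / 2) < z.re := hz
  have hre : 0 < (1 / 2 + z).re := by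
    rw [half_re]
    linarith
  have hs0 : (1 / 2 + z : ℂ) ≠ 0 := by
    intro h
    rw [h, zero_re] at hre
    exact lt_irrefl _ hre
  have hre2 : 0 < ((1 / 2 + z) / 2).re := by
    rw [show (2 : ℂ) = ((2 : ℝ) : ℂ) by norm_num, Complex.div_ofReal_re]
    exact div_pos (by simpa using hre) (by norm_num)
  have h1 : DifferentiableAt ℂ (fun z : ℂ => logDeriv Gamma ((1 / 2 + z) / 2)) z :=
    (logGamma_diff hre2).comp z (by fun_prop)
  unfold Gz
  exact ((DifferentiableAt.div (by fun_prop) (by fun_prop) hs0).add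
    ((by fun_prop : DifferentiableAt ℂ (fun _ : ℂ => -(Real.log Real.pi : ℂ) / 2) z).add
      (h1.const_mul _))).differentiableWithinAt

/-- the coefficients -/
noncomputable def aL (n : ℕ) : ℂ := (ArithmeticFunction.vonMangoldt n : ℂ)

/-- the coefficients and the Dirichlet series -/
lemma as_of {a : ℕ → ℂ} (h : LSeriesSummable a ((3 / 2 : ℝ) : ℂ)) (h0 : a 0 = 0) :
    Summable fun n : ℕ => ‖a n‖ * (n : ℝ) ^ (-(3 / 2) : ℝ) := by
  refine h.norm.congr fun n => ?_
  rw [LSeries.norm_term_eq, ofReal_re]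
  split_ifs with hn
  · rw [hn, h0]; simp
  · rw [Real.rpow_neg (Nat.cast_nonneg n), div_eq_mul_inv]

lemma ser_of {a : ℕ → ℂ} (h0 : a 0 = 0) (s : ℂ) : ∑' n : ℕ, a n * (n : ℂ) ^ (-s) = LSeries a s := by
  unfold LSeries
  refine tsum_congr fun n => ?_
  rcases eq_or_ne n 0 with hn | hn
  · rw [hn, h0]; simp
  · rw [LSeries.term_of_ne_zero hn, Complex.cpow_neg, div_eq_mul_inv]

/-- the data for zeta -/
theorem datz : LDat Yz Gz 1 aL where
  diff := Yz_diff
  pf z w hz hw := VP.t_PFC Yz Yz_diff Yz_sym Yz_gr (fun s hs => by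
    rw [abs_le]
    constructor
    · by_contra hcon
      push Not at hcon
      have h1 : Yz (-s) = 0 := by rw [Yz_neg]; exact hs
      exact Yz_ne (by rw [neg_re]; linarith) h1
    · by_contra hcon
      push Not at hcon
      exact Yz_ne hcon.le hs) z w hz hw
  sm := sm_of_growth Yz_diff Yz_gr Yz_zero_ne
  strip s hs := by
    rw [abs_le]
    constructor
    · by_contra hcon
      push Not at hcon
      have h1 : Yz (-s) = 0 := by rw [Yz_neg]; exact hs
      exact Yz_ne (by rw [neg_re]; linarith) h1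
    · by_contra hcon
      push Not at hcon
      exact Yz_ne hcon.le hs
  nr z hz := Yz_ne hz
  nl := by rw [Yz_neg]; exact Yz_ne (by norm_num)
  Ban := Gz_diff
  Bbd := Gz_le
  a0 := by simp [aL]
  as := as_of (ArithmeticFunction.LSeriesSummable_vonMangoldt (by
    rw [Complex.ofReal_re]; norm_num)) (by simp [aL])
  eq w hw := by
    rw [ser_of (by simp [aL]), logDeriv_Yz (by rw [hw]; norm_num)]
    have h1 : LSeries aL (1 / 2 + w) = -(logDeriv riemannZeta (1 / 2 + w)) := by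
      have h := ArithmeticFunction.LSeries_vonMangoldt_eq_deriv_riemannZeta_div (s := 1 / 2 + w) (by
        rw [half_re, hw]; norm_num)
      rw [logDeriv_apply, ← neg_div]
      exact h
    rw [h1]
    ring

/-- the constant: Euler's constant -/
theorem const_z : logDeriv Yz (1 / 2) - Gz (1 / 2) = (Real.eulerMascheroniConstant : ℂ) := by
  -- `(s - 1) ζ(s)` at `s = 1`
  obtain ⟨f, hf⟩ : ∃ f : ℂ → ℂ, f = fun s => if s = 1 then 1 else (s - 1) * riemannZeta s := ⟨_, rfl⟩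
  have hf1 : f 1 = 1 := by rw [hf]; simp
  have hfd : HasDerivAt f (Real.eulerMascheroniConstant : ℂ) 1 := by
    rw [hasDerivAt_iff_tendsto_slope]
    refine tendsto_riemannZeta_sub_one_div.congr' ?_
    filter_upwards [self_mem_nhdsWithin] with s hs
    have hs : s ≠ 1 := hs
    have h1 : s - 1 ≠ 0 := sub_ne_zero.2 hs
    rw [slope_def_field, hf1, hf]
    simp only [if_neg hs]
    field_simp
  have d0 : HasDerivAt (fun z : ℂ => 1 / 2 + z) 1 (1 / 2) := (hasDerivAt_id _).const_add _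
  have e1 : (1 / 2 + 1 / 2 : ℂ) = 1 := by norm_num
  have hre : 0 < (1 / 2 + 1 / 2 : ℂ).re := by rw [e1]; simp
  have d1 : HasDerivAt (fun z : ℂ => Gammaℝ (1 / 2 + z))
      ((-(Real.log Real.pi : ℂ) / 2 + 1 / 2 * logDeriv Gamma ((1 / 2 + 1 / 2) / 2)) *
        Gammaℝ (1 / 2 + 1 / 2)) (1 / 2) := by
    have := HasDerivAt.comp (1 / 2 : ℂ) (Pool.Agent.NH13.UV.LDg.hasDerivAt_Gammaℝ hre) d0
    rw [mul_one] at this
    exact this
  have d2 : HasDerivAt (fun z : ℂ => f (1 / 2 + z)) (Real.eulerMascheroniConstant : ℂ) (1 / 2) := by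
    have hfd' : HasDerivAt f (Real.eulerMascheroniConstant : ℂ) (1 / 2 + 1 / 2) := by rw [e1]; exact hfd
    have := HasDerivAt.comp (1 / 2 : ℂ) hfd' d0
    rw [mul_one] at this
    exact this
  have hev : Yz =ᶠ[𝓝 (1 / 2 : ℂ)] fun z : ℂ => ((1 / 2 + z) * Gammaℝ (1 / 2 + z)) * f (1 / 2 + z) := by
    have : {y : ℂ | -(1 / 2) < y.re} ∈ 𝓝 (1 / 2 : ℂ) :=
      (isOpen_lt continuous_const continuous_re).mem_nhds (by
        show -(1 / 2 : ℝ) < (1 / 2 : ℂ).re
        norm_num)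
    filter_upwards [this] with y hy
    have hy' : -(1 / 2) < y.re := hy
    rcases eq_or_ne y (1 / 2) with h | h
    · rw [h, e1, hf1, Complex.Gammaℝ_one]
      unfold Yz
      ring
    · rw [Yz_eq hy' h, hf]
      have h2 : (1 / 2 + y : ℂ) ≠ 1 := s_ne_one h
      simp only [if_neg h2]
      ring
  have d3 := (d0.mul d1).mul d2
  rw [logDeriv_apply, hev.deriv_eq, hev.self_of_nhds]
  have d5 : deriv (fun z : ℂ => ((1 / 2 + z) * Gammaℝ (1 / 2 + z)) * f (1 / 2 + z)) (1 / 2) = _ := d3.deriv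
  rw [d5]
  simp only [Pi.mul_apply]
  unfold Gz
  rw [e1, hf1, Complex.Gammaℝ_one]
  ring

end Pool.Agent.H862.EL
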