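import Pool.Agent.H862.EL.Zeta
import Pool.Agent.H862.EL.Mult
import Pool.Agent.H862.EL.Ord

/-!
# The exponential moments for the Riemann zeta function
-/

set_option autoImplicit false

open Complex MeasureTheory Filter Topology Set
open scoped ComplexConjugate

namespace Pool.Agent.H862.EL.ZA

open Pool.Agent.N804.LI (EM I0)
open Pool.Agent.H862.VK

/-- the error term at `x = e^y` -/
noncomputable def Pz (y : ℝ) : ℝ := Real.exp (y / 2) * (∑ n ∈ Finset.Icc 1 ⌊Real.exp y⌋₊,
  ArithmeticFunction.vonMangoldt n * (1 / n - 1 / Real.exp y) - y + 1 + Real.eulerMascheroniConstant)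

lemma half_cast (y : ℝ) : cexp (1 / 2 * y) = ((Real.exp (y / 2) : ℝ) : ℂ) := by
  rw [Complex.ofReal_exp]
  congr 1
  push_cast
  ring

lemma nhalf_cast (y : ℝ) : cexp (-(1 / 2) * y) = ((Real.exp (-(y / 2)) : ℝ) : ℂ) := by
  rw [Complex.ofReal_exp]
  congr 1
  push_cast
  ring

lemma term_real (y : ℝ) (n : ℕ) : (cexp (1 / 2 * y) / n - cexp (-(1 / 2) * y)) =
    ((Real.exp (y / 2) * (1 / n - 1 / Real.exp y) : ℝ) : ℂ) := by
  rw [half_cast, nhalf_cast]
  have h : Real.exp (-(y / 2)) = Real.exp (y / 2) * (1 / Real.exp y) := by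
    rw [one_div, ← Real.exp_neg, ← Real.exp_add]
    congr 1
    ring
  rw [h]
  push_cast
  ring

lemma Pz_eq (y : ℝ) : (Pz y : ℂ) = D0 aL y - 1 * ((y - 1) * cexp (1 / 2 * y)) +
    (logDeriv Yz (1 / 2) - Gz (1 / 2)) * cexp (1 / 2 * y) := by
  rw [D0_eq (by simp [aL]), const_z]
  have h1 : ∑ n ∈ Finset.Icc 1 ⌊Real.exp y⌋₊, aL n * (cexp (1 / 2 * y) / n - cexp (-(1 / 2) * y)) =
      ((Real.exp (y / 2) * ∑ n ∈ Finset.Icc 1 ⌊Real.exp y⌋₊,
        ArithmeticFunction.vonMangoldt n * (1 / n - 1 / Real.exp y) : ℝ) : ℂ) := by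
    rw [Finset.mul_sum, Complex.ofReal_sum]
    refine Finset.sum_congr rfl fun n _ => ?_
    rw [term_real]
    unfold aL
    push_cast
    ring
  rw [h1, half_cast]
  unfold Pz
  push_cast
  ring

lemma Pz_cont : Continuous Pz := by
  have h1 : Continuous fun y : ℝ => (D0 aL y - 1 * ((y - 1) * cexp (1 / 2 * y)) +
    (logDeriv Yz (1 / 2) - Gz (1 / 2)) * cexp (1 / 2 * y)).re :=
    Complex.continuous_re.comp ((D0_cont.sub (by fun_prop)).add (by fun_prop))
  refine h1.congr fun y => ?_
  rw [← Pz_eq, Complex.ofReal_re]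

lemma Yz_eq_zero_iff {t : ℝ} : Yz (t * I) = 0 ↔ riemannZeta (1 / 2 + t * I) = 0 := by
  have hre : (t * I : ℂ).re = 0 := by simp
  have h1 : (t * I : ℂ) ≠ 1 / 2 := by
    intro h
    have := congrArg Complex.re h
    rw [hre] at this
    norm_num at this
  rw [Yz_eq (by rw [hre]; norm_num) h1]
  have hs : 0 < (1 / 2 + t * I : ℂ).re := by simp
  have hs0 : (1 / 2 + t * I : ℂ) ≠ 0 := by
    intro h
    rw [h, zero_re] at hs
    exact lt_irrefl _ hs
  have h2 : (1 / 2 + t * I : ℂ) * Gammaℝ (1 / 2 + t * I) ≠ 0 := mul_ne_zero hs0 (Gammaℝ_ne_zero_of_re_pos hs)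
  have h3 := sub_half_ne h1
  constructor
  · intro h
    exact (mul_eq_zero.1 ((mul_eq_zero.1 h).resolve_left h2)).resolve_left h3
  · intro h
    rw [h, mul_zero, mul_zero]

lemma Gammaℝ_an {s : ℂ} (hs : 0 < s.re) : AnalyticAt ℂ Gammaℝ s := by
  have hU : IsOpen {w : ℂ | 0 < w.re} := isOpen_lt continuous_const Complex.continuous_re
  have h1 : DifferentiableOn ℂ Gammaℝ {w : ℂ | 0 < w.re} := fun w hw =>
    (Pool.Agent.NH13.UV.LDg.hasDerivAt_Gammaℝ hw).differentiableAt.differentiableWithinAt
  exact (h1.analyticOnNhd hU) s hs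

lemma zeta_an {s : ℂ} (hs : s ≠ 1) : AnalyticAt ℂ riemannZeta s := by
  have hU : IsOpen {w : ℂ | w ≠ 1} := isOpen_ne
  have h1 : DifferentiableOn ℂ riemannZeta {w : ℂ | w ≠ 1} := fun w hw =>
    (differentiableAt_riemannZeta hw).differentiableWithinAt
  exact (h1.analyticOnNhd hU) s hs

lemma Yz_order {z : ℂ} (hz : -(1 / 2) < z.re) (h1 : z ≠ 1 / 2) :
    analyticOrderAt Yz z = analyticOrderAt riemannZeta (1 / 2 + z) := by
  have hre : 0 < (1 / 2 + z).re := by
    rw [half_re]
    linarith
  have hs0 : (1 / 2 + z : ℂ) ≠ 0 := by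
    intro h
    rw [h, zero_re] at hre
    exact lt_irrefl _ hre
  refine order_shift (g := fun z => (1 / 2 + z) * Gammaℝ (1 / 2 + z) * (z - 1 / 2)) ?_ ?_
    (zeta_an (s_ne_one h1)) ?_
  · have h2 : AnalyticAt ℂ (fun z : ℂ => Gammaℝ (1 / 2 + z)) z :=
      AnalyticAt.comp (g := Gammaℝ) (f := fun z : ℂ => 1 / 2 + z) (Gammaℝ_an hre) (by fun_prop)
    exact ((by fun_prop : AnalyticAt ℂ (fun z : ℂ => 1 / 2 + z) z).mul h2).mul (by fun_prop)
  · exact mul_ne_zero (mul_ne_zero hs0 (Gammaℝ_ne_zero_of_re_pos hre)) (sub_half_ne h1)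
  · have hmem : {y : ℂ | -(1 / 2) < y.re} ∩ {y | y ≠ 1 / 2} ∈ 𝓝 z :=
      ((isOpen_lt continuous_const continuous_re).inter isOpen_ne).mem_nhds ⟨hz, h1⟩
    filter_upwards [hmem] with y hy
    rw [Yz_eq hy.1 hy.2]
    ring

/-- the family with one member -/
theorem fz : FDat (fun _ : Unit => Yz) (fun _ => Gz) (fun _ => 1) (fun _ => aL) id Pz where
  dat _ := datz
  inv _ := rfl
  cz _ b hb := by
    show Yz (conj b) = 0
    rw [Yz_conj, hb, map_zero]
  co _ b := by
    unfold analyticOrderNatAt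
    rw [order_cc (c := 1) Yz_diff Yz_diff one_ne_zero (fun z => by rw [one_mul, Yz_conj]) b]
  rz _ b hb := by rw [Yz_sym, hb, map_zero]
  cont := Pz_cont
  eq y _ := by
    rw [Pz_eq]
    simp

/-- the abbreviation for the exponents -/
noncomputable abbrev zz (k : ZF (fun _ : Unit => Yz)) : ℂ := k.2

/-- the abbreviation for the multiplicities -/
noncomputable abbrev mz (k : ZF (fun _ : Unit => Yz)) : ℕ := analyticOrderNatAt Yz k.2

lemma m0_zero : m0 zz (fun k => od Yz k.2) A0 = 0 := by
  unfold m0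
  have : ∀ k : ZF (fun _ : Unit => Yz), (if zz k = 0 then od Yz k.2 * (A0 0).re else 0) = 0 := by
    intro k
    rw [if_neg]
    intro h
    have h2 : Yz (k.2 : ℂ) = 0 := k.2.2
    rw [show (k.2 : ℂ) = 0 from h] at h2
    exact Yz_zero_ne h2
  simp_rw [this]
  exact tsum_zero

/-- RH in terms of the exponents -/
lemma rh_iff : RiemannHypothesis ↔ ∀ k : ZF (fun _ : Unit => Yz), (zz k).re = 0 := by
  constructor
  · intro h k
    exact Yz_zero h k.2.2
  · intro h s hs htriv h1
    -- zeros of zeta with positive real part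
    have hs0 : 0 < s.re := by
      by_contra hcon
      push Not at hcon
      -- the functional equation
      rcases eq_or_ne s 0 with h0 | h0
      · rw [h0, riemannZeta_zero] at hs
        norm_num at hs
      · have hne : ∀ n : ℕ, (1 - s : ℂ) ≠ -n := by
          intro n hn
          have := congrArg Complex.re hn
          simp at this
          have h2 : (0 : ℝ) ≤ n := Nat.cast_nonneg n
          linarith
        have hne1 : (1 - s : ℂ) ≠ 1 := by
          intro hn
          apply h0
          linear_combination -hn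
        have hfe := riemannZeta_one_sub (s := 1 - s) hne hne1
        rw [sub_sub_cancel, hs] at hfe
        have hz : riemannZeta (1 - s) ≠ 0 := riemannZeta_ne_zero_of_one_le_re (by simp; linarith)
        have hG : Complex.Gamma (1 - s) ≠ 0 := Complex.Gamma_ne_zero_of_re_pos (by simp; linarith)
        have hp : ((2 : ℂ) * Real.pi) ^ (-(1 - s)) ≠ 0 := by
          rw [Ne, cpow_eq_zero_iff]
          intro hh
          have : (2 : ℂ) * Real.pi ≠ 0 := by
            have := Real.pi_ne_zero
            exact mul_ne_zero two_ne_zero (by exact_mod_cast this)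
          exact this hh.1
        have hcos : Complex.cos (Real.pi * (1 - s) / 2) = 0 := by
          have h3 := hfe.symm
          rcases mul_eq_zero.1 h3 with h4 | h4
          · rcases mul_eq_zero.1 h4 with h5 | h5
            · exact absurd h5 (mul_ne_zero (mul_ne_zero two_ne_zero hp) hG)
            · exact h5
          · exact absurd h4 hz
        rw [Complex.cos_eq_zero_iff] at hcos
        obtain ⟨k, hk⟩ := hcos
        have hpi : (Real.pi : ℂ) ≠ 0 := by exact_mod_cast Real.pi_ne_zero
        have h5 : (1 - s : ℂ) = 2 * k + 1 := by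
          have h6 : (Real.pi : ℂ) * (1 - s) = Real.pi * (2 * k + 1) := by linear_combination 2 * hk
          exact mul_left_cancel₀ hpi h6
        have h6 : s = -(2 * k) := by linear_combination -h5
        have h7 : (0 : ℤ) < k := by
          have h8 := congrArg Complex.re h6
          simp at h8
          have h9 : (0 : ℝ) ≤ k := by linarith
          have h10 : (0 : ℤ) ≤ k := by exact_mod_cast h9
          rcases h10.lt_or_eq with h11 | h11
          · exact h11
          · exfalso
            apply h0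
            rw [h6, ← h11]
            simp
        apply htriv
        refine ⟨(k - 1).toNat, ?_⟩
        rw [h6]
        have h11 : (((k - 1).toNat : ℕ) : ℤ) = k - 1 := Int.toNat_of_nonneg (by omega)
        have h12 : (((k - 1).toNat : ℕ) : ℂ) = (k : ℂ) - 1 := by exact_mod_cast congrArg (fun x : ℤ => (x : ℂ)) h11
        rw [h12]
        ring
    have hz : Yz (s - 1 / 2) = 0 := by
      have e : (1 / 2 + (s - 1 / 2) : ℂ) = s := by ring
      have hh : (1 / 2 : ℂ).re = 1 / 2 := by norm_num
      rw [Yz_eq (by rw [sub_re, hh]; linarith) (by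
        intro hcon
        apply h1
        linear_combination hcon), e, hs, mul_zero, mul_zero]
    have h2 := h ⟨(), ⟨s - 1 / 2, hz⟩⟩
    have h3 : (s - 1 / 2 : ℂ).re = 0 := h2
    have hh : (1 / 2 : ℂ).re = 1 / 2 := by norm_num
    rw [sub_re, hh] at h3
    linarith

end Pool.Agent.H862.EL.ZA
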